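import Pool.Agent.SLE.Tile

/-!
# Tiles for `(3, 2, 7)`

Generated data; everything is checked by the kernel.
-/

namespace Pool.Agent.SLE.T327

/-- The tile of the type `0`. -/
def t0 : Tile where
  tab := [
      [some (1, 1, 0), some (1, 2, 0), some (1, 23, 0), none],
      [some (1, 2, 0), some (1, 0, 0), none, some (1, 3, 0)],
      [some (1, 0, 0), some (1, 1, 0), some (1, 4, 1), some (1, 5, 0)],
      [some (2, 5, 1), some (1, 4, 0), some (1, 1, 0), some (2, 0, 0)],
      [some (1, 3, 0), some (2, 5, 1), some (1, 6, 0), some (1, 2, (-1))],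
      [some (1, 22, (-1)), some (1, 23, (-1)), some (1, 2, 0), some (1, 25, 0)],
      [some (1, 7, 0), some (1, 8, 0), some (1, 9, 0), some (1, 4, 0)],
      [some (1, 8, 0), some (1, 6, 0), some (2, 5, 2), some (1, 10, 0)],
      [some (1, 6, 0), some (1, 7, 0), some (1, 11, 0), some (1, 12, 0)],
      [some (1, 12, 1), some (1, 26, 0), some (1, 24, 0), some (1, 6, 0)],
      [some (1, 13, 0), some (1, 11, (-1)), some (1, 7, 0), some (2, 9, 2)],
      [some (1, 10, 1), some (1, 13, 1), none, some (1, 8, 0)],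
      [some (1, 26, (-1)), some (1, 9, (-1)), some (1, 8, 0), none],
      [some (1, 11, (-1)), some (1, 10, 0), some (1, 14, 0), none],
      [some (2, 9, 3), some (2, 12, 4), none, some (1, 13, 0)],
      [some (1, 17, 0), some (1, 16, 0), none, none],
      [some (1, 15, 0), some (1, 17, 0), some (1, 22, 1), none],
      [some (1, 16, 0), some (1, 15, 0), none, some (1, 23, 0)],
      [some (1, 25, 2), some (1, 19, 2), none, some (1, 22, 0)],
      [some (1, 18, (-2)), some (1, 25, 0), some (1, 21, 1), none],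
      [some (1, 21, (-1)), some (1, 24, (-1)), some (1, 26, 0), none],
      [some (1, 24, 0), some (1, 20, 1), none, some (1, 19, (-1))],
      [some (1, 23, 0), some (1, 5, 1), some (1, 18, 0), some (1, 16, (-1))],
      [some (1, 5, 1), some (1, 22, 0), some (1, 17, 0), some (1, 0, 0)],
      [some (1, 20, 1), some (1, 21, 0), some (1, 25, 0), some (1, 9, 0)],
      [some (1, 19, 0), some (1, 18, (-2)), some (1, 5, 0), some (1, 24, 0)],
      [some (1, 9, 0), some (1, 12, 1), none, some (1, 20, 0)]]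
  f := [3, 4, 4, 5, 5, 3, 4, 5, 4, 3, 5, 4, 3, 4, 5, 0, 1, 1, 1, 1, 1, 1, 2, 2, 2, 2, 2]
  h := [0, 0, 0, 0, 1, 1, 59, 59, 60, 59, 60, 60, 60, 60, 60, 0, 0, 0, 60, 60, 60, 60, 1, 0, 59, 60, 60]
  sl := []
  r := [false, false, true, false, true, true, false, false, false, false, false, false, false, false, false, false, true, false, false, false, false, false, true, false, false, false, false]
  g := [0, 0, 2, 0, 3, 2, 0, 0, 0, 0, 0, 0, 0, 0, 0, 0, 0, 0, 0, 0, 0, 0, 1, 0, 0, 0, 0]
  par := [(23, lB'), (0, lA), (0, lA'), (1, lB'), (3, lA'), (2, lB'), (4, lB), (6, lA), (6, lA'), (6, lB), (7, lB'), (8, lB), (8, lB'), (10, lA), (13, lB), (0, lA), (15, lA'), (15, lA), (22, lB), (25, lA), (26, lB'), (24, lA'), (23, lA'), (17, lB'), (9, lB), (5, lB'), (9, lA')]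
  rk := [3, 4, 4, 5, 6, 5, 7, 8, 8, 8, 9, 9, 9, 10, 11, 0, 1, 1, 4, 7, 10, 10, 3, 2, 9, 6, 9]
  rt := 15
  ded := [(true, 1, lA), (true, 5, lA'), (true, 4, lB'), (true, 24, lB), (true, 5, lA), (true, 25, lA'), (true, 7, lA), (true, 12, lA'), (true, 10, lA'), (true, 12, lA), (true, 20, lA'), (true, 13, lA), (true, 17, lA), (true, 22, lB'), (true, 19, lA), (true, 21, lB'), (true, 20, lA)]

/-- The tile of the type `1`. -/
def t1 : Tile where
  tab := [
      [some (1, 1, 0), some (1, 2, 0), some (0, 3, 0), none],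
      [some (1, 2, 0), some (1, 0, 0), none, some (1, 3, 0)],
      [some (1, 0, 0), some (1, 1, 0), some (1, 4, 1), some (1, 5, 0)],
      [some (2, 5, 1), some (1, 4, 0), some (1, 1, 0), some (2, 0, 0)],
      [some (1, 3, 0), some (2, 5, 1), some (1, 6, 0), some (1, 2, (-1))],
      [some (0, 4, (-1)), some (0, 3, (-1)), some (1, 2, 0), some (0, 7, (-2))],
      [some (1, 7, 0), some (1, 8, 0), some (1, 9, 0), some (1, 4, 0)],
      [some (1, 8, 0), some (1, 6, 0), some (2, 5, 2), some (1, 10, 0)],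
      [some (1, 6, 0), some (1, 7, 0), some (1, 11, 0), some (1, 12, 0)],
      [some (1, 12, 1), some (0, 14, (-3)), some (0, 10, (-2)), some (1, 6, 0)],
      [some (1, 13, 0), some (1, 11, (-1)), some (1, 7, 0), some (2, 9, 2)],
      [some (1, 10, 1), some (1, 13, 1), none, some (1, 8, 0)],
      [some (0, 14, (-4)), some (1, 9, (-1)), some (1, 8, 0), none],
      [some (1, 11, (-1)), some (1, 10, 0), some (1, 14, 0), none],
      [some (2, 9, 3), some (2, 12, 4), none, some (1, 13, 0)]]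
  f := [0, 1, 1, 2, 2, 0, 1, 2, 1, 0, 2, 1, 0, 1, 2]
  h := [0, 0, 0, 0, 1, 1, 60, 60, 60, 60, 60, 60, 60, 60, 60]
  sl := []
  r := [false, false, true, false, true, true, false, false, false, false, false, false, false, false, false]
  g := [0, 0, 4, 0, 5, 4, 0, 0, 0, 0, 0, 0, 0, 0, 0]
  par := [(3, lB'), (0, lA), (0, lA'), (1, lB'), (3, lA'), (2, lB'), (4, lB), (6, lA), (6, lA'), (6, lB), (7, lB'), (8, lB), (8, lB'), (10, lA), (13, lB)]
  rk := [0, 1, 1, 2, 3, 2, 4, 5, 5, 5, 6, 6, 6, 7, 8]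
  rt := 0
  ded := [(true, 1, lA), (true, 5, lA'), (true, 4, lB'), (true, 5, lA), (true, 5, lB'), (true, 7, lA), (true, 12, lA'), (true, 10, lA'), (true, 13, lA), (true, 9, lB), (true, 9, lA'), (true, 12, lA)]

/-- The tile of the type `2`. -/
def t2 : Tile where
  tab := [
      [some (1, 1, 0), some (1, 2, 0), some (0, 3, 0), none],
      [some (1, 2, 0), some (1, 0, 0), none, some (1, 3, 0)],
      [some (1, 0, 0), some (1, 1, 0), some (1, 4, 1), some (1, 5, 0)],
      [some (2, 15, 1), some (1, 4, 0), some (1, 1, 0), some (2, 16, 0)],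
      [some (1, 3, 0), some (2, 15, 1), some (1, 6, 0), some (1, 2, (-1))],
      [some (0, 4, (-1)), some (0, 3, (-1)), some (1, 2, 0), some (0, 7, (-2))],
      [some (1, 7, 0), some (1, 8, 0), some (1, 9, 0), some (1, 4, 0)],
      [some (1, 8, 0), some (1, 6, 0), some (2, 15, 2), some (1, 10, 0)],
      [some (1, 6, 0), some (1, 7, 0), some (1, 11, 0), some (1, 12, 0)],
      [some (1, 12, 1), some (0, 14, (-3)), some (0, 10, (-2)), some (1, 6, 0)],
      [some (1, 13, 0), some (1, 11, (-1)), some (1, 7, 0), some (2, 17, 2)],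
      [some (1, 10, 1), some (1, 13, 1), none, some (1, 8, 0)],
      [some (0, 14, (-4)), some (1, 9, (-1)), some (1, 8, 0), none],
      [some (1, 11, (-1)), some (1, 10, 0), some (1, 14, 0), none],
      [some (2, 17, 3), some (2, 18, 5), none, some (1, 13, 0)]]
  f := [0, 1, 1, 2, 2, 0, 1, 2, 1, 0, 2, 1, 0, 1, 2]
  h := [0, 0, 0, 0, 1, 1, 60, 60, 60, 60, 60, 60, 60, 60, 60]
  sl := []
  r := [false, false, false, false, false, true, false, false, false, false, false, false, false, false, false]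
  g := [0, 0, 0, 0, 0, 4, 0, 0, 0, 0, 0, 0, 0, 0, 0]
  par := [(3, lB'), (0, lA), (0, lA'), (1, lB'), (3, lA'), (2, lB'), (4, lB), (6, lA), (6, lA'), (6, lB), (7, lB'), (8, lB), (8, lB'), (10, lA), (13, lB)]
  rk := [0, 1, 1, 2, 3, 2, 4, 5, 5, 5, 6, 6, 6, 7, 8]
  rt := 0
  ded := [(true, 1, lA), (true, 5, lA'), (true, 4, lB'), (true, 5, lA), (true, 5, lB'), (true, 7, lA), (true, 12, lA'), (true, 10, lA'), (true, 13, lA), (true, 9, lB), (true, 9, lA'), (true, 12, lA)]

/-- The tile of the type `3`. -/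
def t3 : Tile where
  tab := [
      [some (1, 1, 0), some (1, 69, 0), some (1, 70, 0), some (1, 2, 0)],
      [some (1, 69, 0), some (1, 0, 0), some (1, 3, 1), some (1, 71, 0)],
      [some (1, 4, 0), some (1, 3, 0), some (1, 0, 0), none],
      [some (1, 2, 0), some (1, 4, 0), some (1, 5, 0), some (1, 1, (-1))],
      [some (1, 3, 0), some (1, 2, 0), none, some (2, 0, 0)],
      [some (2, 0, 1), some (2, 1, 1), some (1, 6, 0), some (1, 3, 0)],
      [some (1, 7, 0), some (1, 8, 0), some (1, 9, 0), some (1, 5, 0)],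
      [some (1, 8, 0), some (1, 6, 0), some (2, 1, 2), some (1, 10, 0)],
      [some (1, 6, 0), some (1, 7, 0), some (1, 11, 0), some (1, 12, 0)],
      [some (1, 12, 1), some (1, 73, 0), some (1, 72, 0), some (1, 6, 0)],
      [some (1, 13, 0), some (1, 11, (-1)), some (1, 7, 0), some (2, 9, 2)],
      [some (1, 10, 1), some (1, 13, 1), none, some (1, 8, 0)],
      [some (1, 73, (-1)), some (1, 9, (-1)), some (1, 8, 0), none],
      [some (1, 11, (-1)), some (1, 10, 0), some (1, 14, 0), none],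
      [some (2, 9, 3), some (2, 12, 4), none, some (1, 13, 0)],
      [some (0, 4, (-1)), some (0, 3, (-1)), some (1, 19, 0), some (0, 7, (-2))],
      [some (1, 20, 0), some (1, 19, 0), some (0, 3, 0), none],
      [some (1, 18, 2), some (0, 14, (-3)), some (0, 10, (-2)), some (1, 21, 0)],
      [some (0, 14, (-5)), some (1, 17, (-2)), some (1, 22, 0), none],
      [some (1, 16, 0), some (1, 20, 0), some (1, 25, 1), some (1, 15, 0)],
      [some (1, 19, 0), some (1, 16, 0), none, some (1, 26, 0)],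
      [some (1, 28, 1), some (1, 22, 1), some (1, 17, 0), some (1, 25, 0)],
      [some (1, 21, (-1)), some (1, 28, 0), some (1, 24, 0), some (1, 18, 0)],
      [some (1, 24, (-1)), some (1, 27, 0), some (1, 29, 2), none],
      [some (1, 27, 1), some (1, 23, 1), none, some (1, 22, 0)],
      [some (1, 26, 0), some (1, 30, 0), some (1, 21, 0), some (1, 19, (-1))],
      [some (1, 30, 0), some (1, 25, 0), some (1, 20, 0), some (1, 31, 0)],
      [some (1, 23, 0), some (1, 24, (-1)), some (1, 28, 0), some (1, 32, 1)],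
      [some (1, 22, 0), some (1, 21, (-1)), some (1, 30, 0), some (1, 27, 0)],
      [some (1, 32, 0), some (1, 33, 2), none, some (1, 23, (-2))],
      [some (1, 25, 0), some (1, 26, 0), some (1, 34, 1), some (1, 28, 0)],
      [some (1, 35, 0), some (1, 34, 0), some (1, 26, 0), none],
      [some (1, 33, 2), some (1, 29, 0), some (1, 27, (-1)), some (1, 36, 0)],
      [some (1, 29, (-2)), some (1, 32, (-2)), some (1, 37, 0), none],
      [some (1, 31, 0), some (1, 35, 0), some (1, 38, 1), some (1, 30, (-1))],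
      [some (1, 34, 0), some (1, 31, 0), none, some (1, 39, 0)],
      [some (1, 40, 1), some (1, 37, 1), some (1, 32, 0), some (1, 38, 0)],
      [some (1, 36, (-1)), some (1, 40, 0), some (1, 42, 0), some (1, 33, 0)],
      [some (1, 39, 0), some (1, 43, 0), some (1, 36, 0), some (1, 34, (-1))],
      [some (1, 43, 0), some (1, 38, 0), some (1, 35, 0), some (1, 44, 0)],
      [some (1, 37, 0), some (1, 36, (-1)), some (1, 43, 0), some (1, 45, 0)],
      [some (1, 42, (-1)), some (1, 45, 0), some (1, 46, 2), none],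
      [some (1, 45, 1), some (1, 41, 1), none, some (1, 37, 0)],
      [some (1, 38, 0), some (1, 39, 0), some (1, 47, 1), some (1, 40, 0)],
      [some (1, 48, 0), some (1, 47, 0), some (1, 39, 0), none],
      [some (1, 41, 0), some (1, 42, (-1)), some (1, 40, 0), some (1, 49, 1)],
      [some (1, 49, 0), some (1, 50, 2), none, some (1, 41, (-2))],
      [some (1, 44, 0), some (1, 48, 0), some (1, 51, 1), some (1, 43, (-1))],
      [some (1, 47, 0), some (1, 44, 0), none, some (1, 52, 0)],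
      [some (1, 50, 2), some (1, 46, 0), some (1, 45, (-1)), some (1, 53, 0)],
      [some (1, 46, (-2)), some (1, 49, (-2)), some (1, 54, 0), none],
      [some (1, 52, 0), some (1, 55, 0), some (1, 53, 0), some (1, 47, (-1))],
      [some (1, 55, 0), some (1, 51, 0), some (1, 48, 0), some (1, 56, 0)],
      [some (1, 57, 1), some (1, 54, 1), some (1, 49, 0), some (1, 51, 0)],
      [some (1, 53, (-1)), some (1, 57, 0), some (1, 58, 0), some (1, 50, 0)],
      [some (1, 51, 0), some (1, 52, 0), some (1, 59, 1), some (1, 57, 0)],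
      [some (1, 60, 0), some (1, 59, 0), some (1, 52, 0), none],
      [some (1, 54, 0), some (1, 53, (-1)), some (1, 55, 0), some (1, 61, 0)],
      [some (1, 61, 1), some (1, 62, 5), none, some (1, 54, 0)],
      [some (1, 56, 0), some (1, 60, 0), some (1, 63, 1), some (1, 55, (-1))],
      [some (1, 59, 0), some (1, 56, 0), none, some (1, 64, 0)],
      [some (1, 62, 4), some (1, 58, (-1)), some (1, 57, 0), some (1, 65, 2)],
      [some (1, 58, (-5)), some (1, 61, (-4)), some (1, 66, 0), none],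
      [some (1, 64, 0), some (1, 70, 0), some (1, 69, 1), some (1, 59, (-1))],
      [some (1, 70, 0), some (1, 63, 0), some (1, 60, 0), none],
      [some (1, 71, 1), some (1, 66, 1), some (1, 61, (-2)), some (1, 69, 0)],
      [some (1, 65, (-1)), some (1, 71, 0), some (1, 67, 1), some (1, 62, 0)],
      [some (1, 72, 0), some (1, 68, 1), none, some (1, 66, (-1))],
      [some (1, 67, (-1)), some (1, 72, (-1)), some (1, 73, 0), none],
      [some (1, 0, 0), some (1, 1, 0), some (1, 65, 0), some (1, 63, (-1))],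
      [some (1, 63, 0), some (1, 64, 0), none, some (1, 0, 0)],
      [some (1, 66, 0), some (1, 65, (-1)), some (1, 1, 0), some (1, 72, 0)],
      [some (1, 68, 1), some (1, 67, 0), some (1, 71, 0), some (1, 9, 0)],
      [some (1, 9, 0), some (1, 12, 1), none, some (1, 68, 0)]]
  f := [13, 13, 14, 14, 15, 15, 14, 15, 14, 13, 15, 14, 13, 14, 15, 0, 0, 0, 0, 1, 1, 1, 1, 1, 1, 2, 2, 2, 2, 2, 3, 3, 3, 3, 4, 4, 4, 4, 5, 5, 5, 5, 5, 6, 6, 6, 6, 7, 7, 7, 7, 8, 8, 8, 8, 9, 9, 9, 9, 10, 10, 10, 10, 11, 11, 11, 11, 11, 11, 12, 12, 12, 12, 12]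
  h := [0, 2, 0, 3, 0, 3, 59, 59, 60, 59, 60, 60, 60, 60, 60, 1, 0, 60, 60, 0, 0, 60, 60, 60, 60, 1, 0, 60, 60, 60, 0, 0, 60, 60, 0, 0, 60, 60, 1, 0, 60, 60, 60, 0, 0, 60, 60, 0, 0, 60, 60, 1, 0, 60, 60, 0, 0, 60, 60, 0, 0, 60, 60, 1, 0, 60, 60, 60, 60, 2, 0, 60, 59, 60]
  sl := []
  r := [false, false, false, false, false, false, false, false, false, false, false, false, false, false, false, false, false, false, false, false, false, false, false, false, false, false, false, false, false, false, false, false, false, false, false, false, false, false, false, false, false, false, false, false, false, false, false, false, false, false, false, false, false, false, false, false, false, false, false, false, false, false, false, false, false, false, false, false, false, false, false, false, false, false]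
  g := [0, 0, 0, 0, 0, 0, 0, 0, 0, 0, 0, 0, 0, 0, 0, 0, 0, 0, 0, 0, 0, 0, 0, 0, 0, 0, 0, 0, 0, 0, 0, 0, 0, 0, 0, 0, 0, 0, 0, 0, 0, 0, 0, 0, 0, 0, 0, 0, 0, 0, 0, 0, 0, 0, 0, 0, 0, 0, 0, 0, 0, 0, 0, 0, 0, 0, 0, 0, 0, 0, 0, 0, 0, 0]
  par := [(70, lB'), (0, lA), (0, lB'), (2, lA'), (2, lA), (3, lB), (5, lB), (6, lA), (6, lA'), (6, lB), (7, lB'), (8, lB), (8, lB'), (10, lA), (13, lB), (19, lB'), (3, lB'), (21, lB), (22, lB'), (16, lA'), (16, lA), (25, lB), (28, lA), (27, lA), (22, lB), (26, lA'), (20, lB'), (28, lB'), (30, lB'), (32, lA'), (26, lA), (26, lB'), (36, lB), (37, lB'), (31, lA'), (31, lA), (38, lB), (40, lA), (39, lA'), (35, lB'), (43, lB'), (45, lA), (37, lB), (39, lA), (39, lB'), (40, lB'), (49, lA'), (44, lA'), (44, lA), (53, lB), (54, lB'), (52, lA'), (48, lB'), (51, lB), (57, lA), (52, lA), (52, lB'), (55, lB'), (54, lB), (56, lA'), (56, lA), (57, lB'), (66, lB'), (64, lA'), (60, lB'), (69, lB), (71, lA), (72, lA'), (73, lB'), (0, lA'), (64, lA), (1, lB'), (9, lB),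 (9, lA')]
  rk := [13, 14, 14, 15, 15, 16, 17, 18, 18, 18, 19, 19, 19, 20, 21, 2, 0, 5, 6, 1, 1, 4, 5, 6, 6, 3, 2, 5, 4, 9, 3, 3, 8, 9, 4, 4, 7, 8, 6, 5, 7, 9, 9, 6, 6, 8, 12, 7, 7, 11, 12, 9, 8, 10, 11, 9, 9, 10, 12, 10, 10, 11, 17, 12, 11, 15, 16, 20, 20, 14, 12, 15, 19, 19]
  rt := 16
  ded := [(true, 1, lA), (true, 3, lB'), (true, 72, lB), (true, 71, lA'), (true, 4, lA), (true, 7, lA), (true, 12, lA'), (true, 10, lA'), (true, 12, lA), (true, 68, lA'), (true, 13, lA), (true, 15, lA'), (true, 20, lA), (true, 25, lB'), (true, 27, lA'), (true, 23, lA), (true, 30, lA), (true, 34, lB'), (true, 35, lA), (true, 38, lB'), (true, 45, lA'), (true, 43, lA), (true, 47, lB'), (true, 41, lA), (true, 48, lA), (true, 51, lB'), (true, 55, lA), (true, 57, lA'), (true, 59, lB'), (true, 54, lA), (true, 61, lA'), (true, 60, lA), (true, 63, lB'), (true, 70, lA), (true, 66, lA), (true, 67, lB'), (true, 68, lA), (true, 69, lB'), (true, 15, lA), (true, 15, lB'), (true, 28, lA'), (true, 32, lB), (true,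 40, lA'), (true, 49, lB), (true, 46, lB'), (true, 50, lA'), (true, 65, lB), (true, 62, lA'), (true, 17, lB), (true, 17, lA'), (true, 22, lA), (true, 29, lB'), (true, 37, lA), (true, 50, lA), (true, 62, lA), (true, 18, lA'), (true, 33, lA'), (true, 18, lA), (true, 33, lA)]

/-- The tile of the type `4`. -/
def t4 : Tile where
  tab := [
      [some (1, 1, 0), some (0, 5, (-1)), some (0, 4, 0), some (1, 2, 0)],
      [some (0, 5, (-1)), some (1, 0, 0), some (1, 3, 1), some (0, 7, (-2))],
      [some (1, 4, 0), some (1, 3, 0), some (1, 0, 0), none],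
      [some (1, 2, 0), some (1, 4, 0), some (1, 5, 0), some (1, 1, (-1))],
      [some (1, 3, 0), some (1, 2, 0), none, some (2, 0, 0)],
      [some (2, 0, 1), some (2, 1, 1), some (1, 6, 0), some (1, 3, 0)],
      [some (1, 7, 0), some (1, 8, 0), some (1, 9, 0), some (1, 5, 0)],
      [some (1, 8, 0), some (1, 6, 0), some (2, 1, 2), some (1, 10, 0)],
      [some (1, 6, 0), some (1, 7, 0), some (1, 11, 0), some (1, 12, 0)],
      [some (1, 12, 1), some (0, 14, (-3)), some (0, 10, (-2)), some (1, 6, 0)],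
      [some (1, 13, 0), some (1, 11, (-1)), some (1, 7, 0), some (2, 9, 2)],
      [some (1, 10, 1), some (1, 13, 1), none, some (1, 8, 0)],
      [some (0, 14, (-4)), some (1, 9, (-1)), some (1, 8, 0), none],
      [some (1, 11, (-1)), some (1, 10, 0), some (1, 14, 0), none],
      [some (2, 9, 3), some (2, 12, 4), none, some (1, 13, 0)]]
  f := [0, 0, 1, 1, 2, 2, 1, 2, 1, 0, 2, 1, 0, 1, 2]
  h := [0, 4, 0, 5, 0, 5, 60, 60, 60, 60, 60, 60, 60, 60, 60]
  sl := [0, 2, 0, 2, 0, 2, 2, 2, 2, 2, 2, 2, 2, 2, 2]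
  r := [false, false, false, false, false, false, false, false, false, false, false, false, false, false, false]
  g := [0, 0, 0, 0, 0, 0, 0, 0, 0, 0, 0, 0, 0, 0, 0]
  par := [(4, lB'), (0, lA), (0, lB'), (2, lA'), (2, lA), (3, lB), (5, lB), (6, lA), (6, lA'), (6, lB), (7, lB'), (8, lB), (8, lB'), (10, lA), (13, lB)]
  rk := [0, 1, 1, 2, 2, 3, 4, 5, 5, 5, 6, 6, 6, 7, 8]
  rt := 0
  ded := [(true, 0, lA'), (true, 3, lB'), (true, 4, lA), (true, 7, lA), (true, 12, lA'), (true, 10, lA'), (true, 13, lA), (true, 1, lA), (true, 1, lB'), (true, 9, lB), (true, 9, lA'), (true, 12, lA)]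

/-- The data. -/
def data : TileData where
  l := 3
  m := 2
  n := 7
  T := [t0, t1, t2, t3, t4]
  len := [6, 3, 3, 16, 3]
  a := 2
  x0 := 15
  r1 := 0
  e1 := 1
  r2 := 5
  d2 := 0
  e2 := 0
  p0 := [lA, lB', lB', lA, lB', lB']
  p1 := [lA, lB', lB']
  p2 := [lA, lB', lB', lA, lB', lB', lA, lB', lB', lA, lB', lB', lA', lB, lB, lA', lB, lB, lA']
  p3 := [lB, lB, lA']
  q0 := [lA', lB, lA', lB, lB, lA']
  q1 := [lB, lB, lA']
  q2 := [lB, lB, lA', lB, lB, lA', lB, lB, lA', lB, lB, lA', lB, lB, lB, lA, lB', lA, lB']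
  qa := [lB', lA, lB']
  q3 := [lB', lA, lB']
  c := [lA']
  α := 1
  K0 := 5

/-- The data satisfy the conditions. -/
theorem ok : data.check = true := by decide +kernel

end Pool.Agent.SLE.T327
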