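import Pool.Agent.SLE.Tile

/-!
# Tiles for `(3, 3, 4)`

Generated data; everything is checked by the kernel.
-/

namespace Pool.Agent.SLE.T334

/-- The tile of the type `0`. -/
def t0 : Tile where
  tab := [
      [some (1, 1, 0), some (1, 2, 0), some (1, 84, 0), none],
      [some (1, 2, 0), some (1, 0, 0), none, some (1, 3, 0)],
      [some (1, 0, 0), some (1, 1, 0), some (1, 4, 0), some (1, 5, 0)],
      [some (1, 6, 0), some (1, 7, 0), some (1, 1, 0), none],
      [some (1, 8, 1), some (1, 9, 1), some (1, 10, 0), some (1, 2, 0)],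
      [some (1, 85, 0), some (1, 83, (-1)), some (1, 2, 0), some (1, 10, (-1))],
      [some (1, 7, 0), some (1, 3, 0), none, some (1, 11, 0)],
      [some (1, 3, 0), some (1, 6, 0), some (1, 12, 0), some (1, 8, 0)],
      [some (1, 9, 0), some (1, 4, (-1)), some (1, 7, 0), some (1, 13, (-1))],
      [some (1, 4, (-1)), some (1, 8, 0), some (1, 14, 0), none],
      [none, none, some (1, 5, 1), some (1, 4, 0)],
      [some (1, 15, 0), some (1, 16, (-1)), some (1, 6, 0), none],
      [some (1, 17, 0), some (1, 18, 0), some (1, 13, 0), some (1, 7, 0)],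
      [some (1, 19, 0), some (1, 20, 0), some (1, 8, 1), some (1, 12, 0)],
      [some (1, 21, 0), some (1, 22, 0), none, some (1, 9, 0)],
      [some (1, 16, (-1)), some (1, 11, 0), none, none],
      [some (1, 11, 1), some (1, 15, 1), none, some (1, 17, 0)],
      [some (1, 18, 0), some (1, 12, 0), some (1, 16, 0), none],
      [some (1, 12, 0), some (1, 17, 0), some (1, 23, 0), some (1, 24, 0)],
      [some (1, 20, 0), some (1, 13, 0), some (1, 25, 1), none],
      [some (1, 13, 0), some (1, 19, 0), none, some (1, 21, 0)],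
      [some (1, 22, 0), some (1, 14, 0), some (1, 20, 0), none],
      [some (1, 14, 0), some (1, 21, 0), none, none],
      [none, none, some (1, 26, 1), some (1, 18, 0)],
      [some (1, 27, 0), some (1, 25, 0), some (1, 18, 0), some (1, 26, 0)],
      [some (1, 24, 0), some (1, 27, 0), none, some (1, 19, (-1))],
      [some (1, 28, 0), some (1, 29, 0), some (1, 24, 0), some (1, 23, (-1))],
      [some (1, 25, 0), some (1, 24, 0), some (1, 30, 0), none],
      [some (1, 29, 0), some (1, 26, 0), none, some (1, 31, 0)],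
      [some (1, 26, 0), some (1, 28, 0), some (1, 32, 0), some (1, 33, 0)],
      [some (1, 33, 1), some (1, 34, 1), none, some (1, 27, 0)],
      [some (1, 35, 0), some (1, 36, (-1)), some (1, 28, 0), none],
      [some (1, 37, 0), some (1, 38, 0), some (1, 39, 0), some (1, 29, 0)],
      [some (1, 34, 0), some (1, 30, (-1)), some (1, 29, 0), some (1, 39, (-1))],
      [some (1, 30, (-1)), some (1, 33, 0), some (1, 40, 0), none],
      [some (1, 36, (-1)), some (1, 31, 0), none, none],
      [some (1, 31, 1), some (1, 35, 1), none, some (1, 37, 0)],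
      [some (1, 38, 0), some (1, 32, 0), some (1, 36, 0), none],
      [some (1, 32, 0), some (1, 37, 0), none, some (2, 0, 0)],
      [some (2, 5, 1), some (1, 41, 0), some (1, 33, 1), some (1, 32, 0)],
      [some (1, 42, 0), some (1, 43, 0), none, some (1, 34, 0)],
      [some (1, 39, 0), some (2, 5, 1), none, some (1, 42, 0)],
      [some (1, 43, 0), some (1, 40, 0), some (1, 41, 0), none],
      [some (1, 40, 0), some (1, 42, 0), none, none],
      [some (1, 46, 0), some (1, 45, 0), none, none],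
      [some (1, 44, 0), some (1, 46, 0), some (1, 47, 0), none],
      [some (1, 45, 0), some (1, 44, 0), none, some (1, 48, 0)],
      [some (1, 55, 1), some (1, 49, 1), none, some (1, 45, 0)],
      [some (1, 50, 0), some (1, 56, 0), some (1, 46, 0), none],
      [some (1, 47, (-1)), some (1, 55, 0), some (1, 51, 0), none],
      [some (1, 56, 0), some (1, 48, 0), none, some (1, 52, 0)],
      [some (1, 57, 0), some (1, 53, 0), none, some (1, 49, 0)],
      [some (1, 54, 0), some (1, 58, (-1)), some (1, 50, 0), none],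
      [some (1, 51, 0), some (1, 57, 0), none, none],
      [some (1, 58, (-1)), some (1, 52, 0), none, none],
      [some (1, 49, 0), some (1, 47, (-1)), some (1, 56, 0), some (1, 59, (-1))],
      [some (1, 48, 0), some (1, 50, 0), some (1, 60, 0), some (1, 55, 0)],
      [some (1, 53, 0), some (1, 51, 0), some (1, 61, 0), none],
      [some (1, 52, 1), some (1, 54, 1), none, some (1, 62, 0)],
      [some (1, 63, 0), some (1, 61, 0), some (1, 55, 1), some (1, 60, 0)],
      [some (1, 62, 0), some (1, 64, 0), some (1, 59, 0), some (1, 56, 0)],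
      [some (1, 59, 0), some (1, 63, 0), none, some (1, 57, 0)],
      [some (1, 64, 0), some (1, 60, 0), some (1, 58, 0), none],
      [some (1, 61, 0), some (1, 59, 0), some (1, 65, 1), none],
      [some (1, 60, 0), some (1, 62, 0), some (1, 67, 0), some (1, 66, 0)],
      [some (1, 66, 0), some (1, 68, 0), none, some (1, 63, (-1))],
      [some (1, 68, 0), some (1, 65, 0), some (1, 64, 0), some (1, 69, 0)],
      [none, none, some (1, 69, 1), some (1, 64, 0)],
      [some (1, 65, 0), some (1, 66, 0), some (1, 73, 0), none],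
      [some (1, 70, 0), some (1, 74, 0), some (1, 66, 0), some (1, 67, (-1))],
      [some (1, 74, 0), some (1, 69, 0), none, some (1, 71, 0)],
      [some (1, 72, 0), some (1, 77, (-1)), some (1, 70, 0), none],
      [some (1, 77, (-1)), some (1, 71, 0), none, none],
      [some (1, 79, 1), some (1, 75, 1), none, some (1, 68, 0)],
      [some (1, 69, 0), some (1, 70, 0), some (1, 80, 0), some (1, 79, 0)],
      [some (1, 73, (-1)), some (1, 79, 0), some (1, 76, 0), none],
      [some (1, 82, 1), some (1, 78, 1), none, some (1, 75, 0)],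
      [some (1, 71, 1), some (1, 72, 1), none, some (1, 81, 0)],
      [some (1, 76, (-1)), some (1, 82, 0), none, none],
      [some (1, 75, 0), some (1, 73, (-1)), some (1, 74, 0), some (1, 83, (-1))],
      [some (1, 81, 0), some (1, 84, 0), some (1, 83, 0), some (1, 74, 0)],
      [some (1, 84, 0), some (1, 80, 0), some (1, 77, 0), none],
      [some (1, 78, 0), some (1, 76, (-1)), some (1, 85, 0), none],
      [some (1, 5, 1), some (1, 85, 1), some (1, 79, 1), some (1, 80, 0)],
      [some (1, 80, 0), some (1, 81, 0), none, some (1, 0, 0)],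
      [some (1, 83, (-1)), some (1, 5, 0), none, some (1, 82, 0)]]
  f := [11, 12, 12, 13, 13, 11, 13, 14, 14, 13, 12, 13, 15, 15, 13, 13, 14, 15, 16, 16, 15, 14, 13, 17, 17, 17, 18, 18, 18, 19, 19, 18, 20, 20, 19, 18, 19, 20, 21, 21, 19, 21, 20, 19, 0, 1, 1, 2, 2, 2, 2, 2, 2, 2, 2, 3, 3, 3, 3, 4, 4, 4, 4, 5, 5, 6, 6, 6, 7, 7, 7, 7, 7, 8, 8, 8, 8, 8, 8, 9, 9, 9, 9, 10, 10, 10]
  h := [0, 0, 0, 0, (-1), 0, 60, 0, 0, 60, (-1), 60, 0, (-1), 60, 60, 59, 59, 0, (-1), 60, 60, 60, 0, 0, 0, 0, 0, 60, 0, 0, 60, 0, 0, 60, 60, 59, 59, 0, (-1), 60, 60, 60, 60, 0, 0, 0, 0, 0, 60, 60, 60, 60, 60, 60, 1, 0, 60, 59, 0, 0, 60, 59, 0, 0, 1, 0, 0, 0, 0, 60, 60, 60, 0, 0, 60, 60, 59, 60, 0, 0, 59, 60, (-1), 0, 60]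
  sl := []
  r := [false, false, true, false, true, true, false, false, true, false, true, false, false, true, false, false, false, false, false, true, false, false, false, false, false, true, false, true, false, false, true, false, false, true, false, false, false, false, false, true, false, false, false, false, false, true, false, true, false, false, false, false, false, false, false, true, false, false, false, true, false, false, false, true, false, true, false, false, true, false, false, false, false, true, false, false, false, false, false, true, false, false, false, true, false, false]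
  g := [0, 0, 2, 0, 1, 2, 0, 0, 2, 0, 1, 0, 0, 1, 0, 0, 0, 0, 0, 1, 0, 0, 0, 0, 0, 2, 0, 2, 0, 0, 2, 0, 0, 3, 0, 0, 0, 0, 0, 2, 0, 0, 0, 0, 0, 0, 0, 0, 0, 0, 0, 0, 0, 0, 0, 1, 0, 0, 0, 0, 0, 0, 0, 0, 0, 1, 0, 0, 1, 0, 0, 0, 0, 1, 0, 0, 0, 0, 0, 2, 0, 0, 0, 1, 0, 0]
  par := [(84, lB'), (0, lA), (0, lA'), (1, lB'), (2, lB), (2, lB'), (3, lA), (3, lA'), (7, lB'), (8, lA), (4, lB), (6, lB'), (7, lB), (12, lB), (9, lB), (11, lA), (17, lB), (12, lA), (12, lA'), (13, lA), (13, lA'), (20, lB'), (14, lA'), (18, lB), (18, lB'), (24, lA'), (24, lB'), (24, lA), (26, lA), (26, lA'), (27, lB), (28, lB'), (29, lB), (29, lB'), (33, lA), (31, lA), (37, lB), (32, lA), (32, lA'), (32, lB), (34, lB), (39, lA'), (41, lB'), (40, lA'), (0, lA), (44, lA'), (44, lA), (45, lB), (46, lB'), (55, lA), (48, lA), (49, lB), (50, lB'), (51, lA'), (52, lA), (56, lB'), (48, lA'), (61, lB'), (62, lB), (60, lB), (56, lB), (59, lA'), (60, lA), (59, lA), (60, lA'), (66, lA'), (64, lB'), (64, lB), (66, lA), (66, lB'), (69, lA), (70, lB'),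 (71, lA), (68, lB), (69, lA'), (79, lA), (75, lB), (81, lB), (82, lA), (74, lB'), (74, lB), (80, lA), (85, lB'), (80, lB), (80, lA'), (5, lA)]
  rk := [11, 12, 12, 13, 13, 13, 14, 14, 15, 16, 14, 15, 15, 16, 17, 16, 17, 16, 16, 17, 17, 18, 18, 17, 17, 18, 18, 18, 19, 19, 19, 20, 20, 20, 21, 21, 22, 21, 21, 21, 22, 22, 23, 23, 0, 1, 1, 2, 2, 5, 3, 6, 4, 7, 5, 4, 3, 7, 6, 5, 4, 6, 5, 6, 5, 7, 6, 6, 7, 7, 8, 9, 10, 8, 8, 10, 11, 11, 16, 9, 9, 10, 15, 10, 10, 14]
  rt := 44
  ded := [(true, 1, lA), (true, 5, lA'), (true, 8, lA'), (true, 10, lB), (true, 6, lA), (true, 9, lA), (true, 85, lA), (true, 11, lA'), (true, 13, lB), (true, 21, lA'), (true, 15, lA), (true, 17, lA), (true, 25, lB'), (true, 19, lA), (true, 21, lA), (true, 23, lB), (true, 27, lA), (true, 33, lA'), (true, 28, lA), (true, 31, lA'), (true, 39, lB), (true, 34, lA), (true, 35, lA), (true, 37, lA), (true, 42, lA'), (true, 42, lA), (true, 46, lA), (true, 55, lA'), (true, 49, lA), (true, 50, lA), (true, 52, lA'), (true, 54, lA), (true, 59,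 lB), (true, 63, lA), (true, 65, lB'), (true, 62, lA), (true, 67, lB), (true, 68, lA), (true, 79, lA'), (true, 70, lA), (true, 71, lA'), (true, 72, lA), (true, 75, lA), (true, 83, lB), (true, 82, lA'), (true, 78, lA), (true, 81, lA), (true, 57, lA'), (true, 57, lA)]

/-- The tile of the type `1`. -/
def t1 : Tile where
  tab := [
      [some (1, 1, 0), some (1, 2, 0), some (0, 38, 0), none],
      [some (1, 2, 0), some (1, 0, 0), none, some (1, 3, 0)],
      [some (1, 0, 0), some (1, 1, 0), some (1, 4, 0), some (1, 5, 0)],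
      [some (1, 6, 0), some (1, 7, 0), some (1, 1, 0), none],
      [some (1, 8, 1), some (1, 9, 1), some (1, 10, 0), some (1, 2, 0)],
      [some (0, 41, (-1)), some (0, 39, (-1)), some (1, 2, 0), some (1, 10, (-1))],
      [some (1, 7, 0), some (1, 3, 0), none, some (1, 11, 0)],
      [some (1, 3, 0), some (1, 6, 0), some (1, 12, 0), some (1, 8, 0)],
      [some (1, 9, 0), some (1, 4, (-1)), some (1, 7, 0), some (1, 13, (-1))],
      [some (1, 4, (-1)), some (1, 8, 0), some (1, 14, 0), none],
      [none, none, some (1, 5, 1), some (1, 4, 0)],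
      [some (1, 15, 0), some (1, 16, (-1)), some (1, 6, 0), none],
      [some (1, 17, 0), some (1, 18, 0), some (1, 13, 0), some (1, 7, 0)],
      [some (1, 19, 0), some (1, 20, 0), some (1, 8, 1), some (1, 12, 0)],
      [some (1, 21, 0), some (1, 22, 0), none, some (1, 9, 0)],
      [some (1, 16, (-1)), some (1, 11, 0), none, none],
      [some (1, 11, 1), some (1, 15, 1), none, some (1, 17, 0)],
      [some (1, 18, 0), some (1, 12, 0), some (1, 16, 0), none],
      [some (1, 12, 0), some (1, 17, 0), some (1, 23, 0), some (1, 24, 0)],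
      [some (1, 20, 0), some (1, 13, 0), some (1, 25, 1), none],
      [some (1, 13, 0), some (1, 19, 0), none, some (1, 21, 0)],
      [some (1, 22, 0), some (1, 14, 0), some (1, 20, 0), none],
      [some (1, 14, 0), some (1, 21, 0), none, none],
      [none, none, some (1, 26, 1), some (1, 18, 0)],
      [some (1, 27, 0), some (1, 25, 0), some (1, 18, 0), some (1, 26, 0)],
      [some (1, 24, 0), some (1, 27, 0), none, some (1, 19, (-1))],
      [some (1, 28, 0), some (1, 29, 0), some (1, 24, 0), some (1, 23, (-1))],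
      [some (1, 25, 0), some (1, 24, 0), some (1, 30, 0), none],
      [some (1, 29, 0), some (1, 26, 0), none, some (1, 31, 0)],
      [some (1, 26, 0), some (1, 28, 0), some (1, 32, 0), some (1, 33, 0)],
      [some (1, 33, 1), some (1, 34, 1), none, some (1, 27, 0)],
      [some (1, 35, 0), some (1, 36, (-1)), some (1, 28, 0), none],
      [some (1, 37, 0), some (1, 38, 0), some (1, 39, 0), some (1, 29, 0)],
      [some (1, 34, 0), some (1, 30, (-1)), some (1, 29, 0), some (1, 39, (-1))],
      [some (1, 30, (-1)), some (1, 33, 0), some (1, 40, 0), none],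
      [some (1, 36, (-1)), some (1, 31, 0), none, none],
      [some (1, 31, 1), some (1, 35, 1), none, some (1, 37, 0)],
      [some (1, 38, 0), some (1, 32, 0), some (1, 36, 0), none],
      [some (1, 32, 0), some (1, 37, 0), none, some (2, 0, 0)],
      [some (2, 5, 1), some (1, 41, 0), some (1, 33, 1), some (1, 32, 0)],
      [some (1, 42, 0), some (1, 43, 0), none, some (1, 34, 0)],
      [some (1, 39, 0), some (2, 5, 1), none, some (1, 42, 0)],
      [some (1, 43, 0), some (1, 40, 0), some (1, 41, 0), none],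
      [some (1, 40, 0), some (1, 42, 0), none, none]]
  f := [0, 1, 1, 2, 2, 0, 2, 3, 3, 2, 1, 2, 4, 4, 2, 2, 3, 4, 5, 5, 4, 3, 2, 6, 6, 6, 7, 7, 7, 8, 8, 7, 9, 9, 8, 7, 8, 9, 10, 10, 8, 10, 9, 8]
  h := [0, 0, 0, 0, (-1), 0, 60, 0, 0, 60, (-1), 60, 0, (-1), 60, 60, 59, 59, 0, (-1), 60, 60, 60, 0, 0, 0, 0, 0, 60, 0, 0, 60, 0, 0, 60, 60, 59, 59, 0, (-1), 60, 60, 60, 60]
  sl := []
  r := [false, false, true, false, true, true, false, false, true, false, true, false, false, true, false, false, false, false, false, true, false, false, false, false, false, true, false, true, false, false, true, false, false, true, false, false, false, false, false, true, false, false, false, false]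
  g := [0, 0, 3, 0, 2, 3, 0, 0, 3, 0, 2, 0, 0, 2, 0, 0, 0, 0, 0, 2, 0, 0, 0, 0, 0, 3, 0, 3, 0, 0, 3, 0, 0, 4, 0, 0, 0, 0, 0, 3, 0, 0, 0, 0]
  par := [(38, lB'), (0, lA), (0, lA'), (1, lB'), (2, lB), (2, lB'), (3, lA), (3, lA'), (7, lB'), (8, lA), (4, lB), (6, lB'), (7, lB), (12, lB), (9, lB), (11, lA), (17, lB), (12, lA), (12, lA'), (13, lA), (13, lA'), (20, lB'), (14, lA'), (18, lB), (18, lB'), (24, lA'), (24, lB'), (24, lA), (26, lA), (26, lA'), (27, lB), (28, lB'), (29, lB), (29, lB'), (33, lA), (31, lA), (37, lB), (32, lA), (32, lA'), (32, lB), (34, lB), (39, lA'), (41, lB'), (40, lA')]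
  rk := [0, 1, 1, 2, 2, 2, 3, 3, 4, 5, 3, 4, 4, 5, 6, 5, 6, 5, 5, 6, 6, 7, 7, 6, 6, 7, 7, 7, 8, 8, 8, 9, 9, 9, 10, 10, 11, 10, 10, 10, 11, 11, 12, 12]
  rt := 0
  ded := [(true, 1, lA), (true, 5, lA'), (true, 8, lA'), (true, 10, lB), (true, 6, lA), (true, 9, lA), (true, 5, lA), (true, 11, lA'), (true, 13, lB), (true, 21, lA'), (true, 15, lA), (true, 17, lA), (true, 25, lB'), (true, 19, lA), (true, 21, lA), (true, 23, lB), (true, 27, lA), (true, 33, lA'), (true, 28, lA), (true, 31, lA'), (true, 39, lB), (true, 34, lA), (true, 35, lA), (true, 37, lA), (true, 42, lA'), (true, 42, lA)]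

/-- The tile of the type `2`. -/
def t2 : Tile where
  tab := [
      [some (1, 1, 0), some (1, 2, 0), some (0, 38, 0), none],
      [some (1, 2, 0), some (1, 0, 0), none, some (1, 3, 0)],
      [some (1, 0, 0), some (1, 1, 0), some (1, 4, 0), some (1, 5, 0)],
      [some (1, 6, 0), some (1, 7, 0), some (1, 1, 0), none],
      [some (1, 8, 1), some (1, 9, 1), some (1, 10, 0), some (1, 2, 0)],
      [some (0, 41, (-1)), some (0, 39, (-1)), some (1, 2, 0), some (1, 10, (-1))],
      [some (1, 7, 0), some (1, 3, 0), none, some (1, 11, 0)],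
      [some (1, 3, 0), some (1, 6, 0), some (1, 12, 0), some (1, 8, 0)],
      [some (1, 9, 0), some (1, 4, (-1)), some (1, 7, 0), some (1, 13, (-1))],
      [some (1, 4, (-1)), some (1, 8, 0), some (1, 14, 0), none],
      [none, none, some (1, 5, 1), some (1, 4, 0)],
      [some (1, 15, 0), some (1, 16, (-1)), some (1, 6, 0), none],
      [some (1, 17, 0), some (1, 18, 0), some (1, 13, 0), some (1, 7, 0)],
      [some (1, 19, 0), some (1, 20, 0), some (1, 8, 1), some (1, 12, 0)],
      [some (1, 21, 0), some (1, 22, 0), none, some (1, 9, 0)],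
      [some (1, 16, (-1)), some (1, 11, 0), none, none],
      [some (1, 11, 1), some (1, 15, 1), none, some (1, 17, 0)],
      [some (1, 18, 0), some (1, 12, 0), some (1, 16, 0), none],
      [some (1, 12, 0), some (1, 17, 0), some (1, 23, 0), some (1, 24, 0)],
      [some (1, 20, 0), some (1, 13, 0), some (1, 25, 1), none],
      [some (1, 13, 0), some (1, 19, 0), none, some (1, 21, 0)],
      [some (1, 22, 0), some (1, 14, 0), some (1, 20, 0), none],
      [some (1, 14, 0), some (1, 21, 0), none, none],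
      [none, none, some (1, 26, 1), some (1, 18, 0)],
      [some (1, 27, 0), some (1, 25, 0), some (1, 18, 0), some (1, 26, 0)],
      [some (1, 24, 0), some (1, 27, 0), none, some (1, 19, (-1))],
      [some (1, 28, 0), some (1, 29, 0), some (1, 24, 0), some (1, 23, (-1))],
      [some (1, 25, 0), some (1, 24, 0), some (1, 30, 0), none],
      [some (1, 29, 0), some (1, 26, 0), none, some (1, 31, 0)],
      [some (1, 26, 0), some (1, 28, 0), some (1, 32, 0), some (1, 33, 0)],
      [some (1, 33, 1), some (1, 34, 1), none, some (1, 27, 0)],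
      [some (1, 35, 0), some (1, 36, (-1)), some (1, 28, 0), none],
      [some (1, 37, 0), some (1, 38, 0), some (1, 39, 0), some (1, 29, 0)],
      [some (1, 34, 0), some (1, 30, (-1)), some (1, 29, 0), some (1, 39, (-1))],
      [some (1, 30, (-1)), some (1, 33, 0), some (1, 40, 0), none],
      [some (1, 36, (-1)), some (1, 31, 0), none, none],
      [some (1, 31, 1), some (1, 35, 1), none, some (1, 37, 0)],
      [some (1, 38, 0), some (1, 32, 0), some (1, 36, 0), none],
      [some (1, 32, 0), some (1, 37, 0), none, some (2, 45, 0)],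
      [some (2, 44, 1), some (1, 41, 0), some (1, 33, 1), some (1, 32, 0)],
      [some (1, 42, 0), some (1, 43, 0), none, some (1, 34, 0)],
      [some (1, 39, 0), some (2, 44, 1), none, some (1, 42, 0)],
      [some (1, 43, 0), some (1, 40, 0), some (1, 41, 0), none],
      [some (1, 40, 0), some (1, 42, 0), none, none]]
  f := [0, 1, 1, 2, 2, 0, 2, 3, 3, 2, 1, 2, 4, 4, 2, 2, 3, 4, 5, 5, 4, 3, 2, 6, 6, 6, 7, 7, 7, 8, 8, 7, 9, 9, 8, 7, 8, 9, 10, 10, 8, 10, 9, 8]
  h := [0, 0, 0, 0, (-1), 0, 60, 0, 0, 60, (-1), 60, 0, (-1), 60, 60, 59, 59, 0, (-1), 60, 60, 60, 0, 0, 0, 0, 0, 60, 0, 0, 60, 0, 0, 60, 60, 59, 59, 0, (-1), 60, 60, 60, 60]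
  sl := []
  r := [false, false, false, false, false, true, false, false, false, false, false, false, false, false, false, false, false, false, false, false, false, false, false, false, false, false, false, false, false, false, false, false, false, false, false, false, false, false, false, false, false, false, false, false]
  g := [0, 0, 0, 0, 0, 3, 0, 0, 0, 0, 0, 0, 0, 0, 0, 0, 0, 0, 0, 0, 0, 0, 0, 0, 0, 0, 0, 0, 0, 0, 0, 0, 0, 0, 0, 0, 0, 0, 0, 0, 0, 0, 0, 0]
  par := [(38, lB'), (0, lA), (0, lA'), (1, lB'), (2, lB), (2, lB'), (3, lA), (3, lA'), (7, lB'), (8, lA), (4, lB), (6, lB'), (7, lB), (12, lB), (9, lB), (11, lA), (17, lB), (12, lA), (12, lA'), (13, lA), (13, lA'), (20, lB'), (14, lA'), (18, lB), (18, lB'), (24, lA'), (24, lB'), (24, lA), (26, lA), (26, lA'), (27, lB), (28, lB'), (29, lB), (29, lB'), (33, lA), (31, lA), (37, lB), (32, lA), (32, lA'), (32, lB), (34, lB), (39, lA'), (41, lB'), (40, lA')]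
  rk := [0, 1, 1, 2, 2, 2, 3, 3, 4, 5, 3, 4, 4, 5, 6, 5, 6, 5, 5, 6, 6, 7, 7, 6, 6, 7, 7, 7, 8, 8, 8, 9, 9, 9, 10, 10, 11, 10, 10, 10, 11, 11, 12, 12]
  rt := 0
  ded := [(true, 1, lA), (true, 5, lA'), (true, 8, lA'), (true, 10, lB), (true, 6, lA), (true, 9, lA), (true, 5, lA), (true, 11, lA'), (true, 13, lB), (true, 21, lA'), (true, 15, lA), (true, 17, lA), (true, 25, lB'), (true, 19, lA), (true, 21, lA), (true, 23, lB), (true, 27, lA), (true, 33, lA'), (true, 28, lA), (true, 31, lA'), (true, 39, lB), (true, 34, lA), (true, 35, lA), (true, 37, lA), (true, 42, lA'), (true, 42, lA)]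

/-- The tile of the type `3`. -/
def t3 : Tile where
  tab := [
      [some (1, 1, 0), some (1, 88, 0), some (1, 89, 0), some (1, 2, 0)],
      [some (1, 88, 0), some (1, 0, 0), some (1, 3, 0), none],
      [some (1, 4, 0), some (1, 5, 0), some (1, 0, 0), some (1, 6, 0)],
      [some (1, 7, 1), some (1, 8, 1), none, some (1, 1, 0)],
      [some (1, 5, 0), some (1, 2, 0), none, some (1, 9, 0)],
      [some (1, 2, 0), some (1, 4, 0), some (1, 10, 0), some (1, 7, 0)],
      [none, none, some (1, 2, 0), some (1, 89, (-1))],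
      [some (1, 8, 0), some (1, 3, (-1)), some (1, 5, 0), some (1, 11, (-1))],
      [some (1, 3, (-1)), some (1, 7, 0), some (1, 12, 0), none],
      [some (1, 13, 0), some (1, 14, (-1)), some (1, 4, 0), none],
      [some (1, 15, 0), some (1, 16, 0), some (1, 11, 0), some (1, 5, 0)],
      [some (1, 17, 0), some (1, 18, 0), some (1, 7, 1), some (1, 10, 0)],
      [some (1, 19, 0), some (1, 20, 0), none, some (1, 8, 0)],
      [some (1, 14, (-1)), some (1, 9, 0), none, none],
      [some (1, 9, 1), some (1, 13, 1), none, some (1, 15, 0)],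
      [some (1, 16, 0), some (1, 10, 0), some (1, 14, 0), none],
      [some (1, 10, 0), some (1, 15, 0), none, some (1, 21, 0)],
      [some (1, 18, 0), some (1, 11, 0), some (1, 22, 1), some (1, 23, 0)],
      [some (1, 11, 0), some (1, 17, 0), none, some (1, 19, 0)],
      [some (1, 20, 0), some (1, 12, 0), some (1, 18, 0), none],
      [some (1, 12, 0), some (1, 19, 0), none, none],
      [some (1, 24, 0), some (1, 22, 0), some (1, 16, 0), none],
      [some (1, 21, 0), some (1, 24, 0), some (1, 25, 0), some (1, 17, (-1))],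
      [none, none, some (1, 17, 0), some (1, 25, 0)],
      [some (1, 22, 0), some (1, 21, 0), none, some (1, 26, 0)],
      [some (1, 27, 1), some (1, 28, 1), some (1, 23, 0), some (1, 22, 0)],
      [some (1, 29, 0), some (1, 30, 0), some (1, 24, 0), none],
      [some (1, 28, 0), some (1, 25, (-1)), some (1, 30, 0), some (1, 31, (-1))],
      [some (1, 25, (-1)), some (1, 27, 0), some (1, 32, 0), none],
      [some (1, 30, 0), some (1, 26, 0), none, some (1, 33, 0)],
      [some (1, 26, 0), some (1, 29, 0), some (1, 34, 0), some (1, 27, 0)],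
      [some (1, 35, 0), some (1, 36, 0), some (1, 27, 1), some (1, 34, 0)],
      [some (1, 37, 0), some (1, 38, 0), none, some (1, 28, 0)],
      [some (1, 39, 0), some (1, 40, (-1)), some (1, 29, 0), none],
      [some (1, 41, 0), some (1, 42, 0), some (1, 31, 0), some (1, 30, 0)],
      [some (1, 36, 0), some (1, 31, 0), some (1, 43, 0), none],
      [some (1, 31, 0), some (1, 35, 0), none, some (1, 37, 0)],
      [some (1, 38, 0), some (1, 32, 0), some (1, 36, 0), none],
      [some (1, 32, 0), some (1, 37, 0), none, none],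
      [some (1, 40, (-1)), some (1, 33, 0), none, none],
      [some (1, 33, 1), some (1, 39, 1), none, some (1, 41, 0)],
      [some (1, 42, 0), some (1, 34, 0), some (1, 40, 0), none],
      [some (1, 34, 0), some (1, 41, 0), some (2, 6, 1), some (2, 0, 0)],
      [some (2, 0, 1), some (2, 1, 1), none, some (1, 35, 0)],
      [some (0, 41, (-1)), some (0, 39, (-1)), some (1, 46, 0), some (1, 48, (-1))],
      [some (1, 47, 0), some (1, 46, 0), some (0, 38, 0), none],
      [some (1, 45, 0), some (1, 47, 0), some (1, 49, 0), some (1, 44, 0)],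
      [some (1, 46, 0), some (1, 45, 0), none, some (1, 50, 0)],
      [none, none, some (1, 44, 1), some (1, 49, 0)],
      [some (1, 57, 1), some (1, 51, 1), some (1, 48, 0), some (1, 46, 0)],
      [some (1, 52, 0), some (1, 58, 0), some (1, 47, 0), none],
      [some (1, 49, (-1)), some (1, 57, 0), some (1, 53, 0), none],
      [some (1, 58, 0), some (1, 50, 0), none, some (1, 54, 0)],
      [some (1, 59, 0), some (1, 55, 0), none, some (1, 51, 0)],
      [some (1, 56, 0), some (1, 60, (-1)), some (1, 52, 0), none],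
      [some (1, 53, 0), some (1, 59, 0), none, none],
      [some (1, 60, (-1)), some (1, 54, 0), none, none],
      [some (1, 51, 0), some (1, 49, (-1)), some (1, 58, 0), some (1, 61, (-1))],
      [some (1, 50, 0), some (1, 52, 0), some (1, 62, 0), some (1, 57, 0)],
      [some (1, 55, 0), some (1, 53, 0), some (1, 63, 0), none],
      [some (1, 54, 1), some (1, 56, 1), none, some (1, 64, 0)],
      [some (1, 65, 0), some (1, 63, 0), some (1, 57, 1), some (1, 62, 0)],
      [some (1, 64, 0), some (1, 66, 0), some (1, 61, 0), some (1, 58, 0)],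
      [some (1, 61, 0), some (1, 65, 0), none, some (1, 59, 0)],
      [some (1, 66, 0), some (1, 62, 0), some (1, 60, 0), none],
      [some (1, 63, 0), some (1, 61, 0), some (1, 67, 1), some (1, 69, 0)],
      [some (1, 62, 0), some (1, 64, 0), none, some (1, 68, 0)],
      [some (1, 68, 0), some (1, 71, 0), some (1, 70, 0), some (1, 65, (-1))],
      [some (1, 71, 0), some (1, 67, 0), some (1, 66, 0), none],
      [none, none, some (1, 65, 0), some (1, 70, 0)],
      [some (1, 75, 1), some (1, 72, 1), some (1, 69, 0), some (1, 67, 0)],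
      [some (1, 67, 0), some (1, 68, 0), none, some (1, 76, 0)],
      [some (1, 70, (-1)), some (1, 75, 0), some (1, 73, 0), none],
      [some (1, 78, 0), some (1, 74, 0), none, some (1, 72, 0)],
      [some (1, 73, 0), some (1, 78, 0), none, none],
      [some (1, 72, 0), some (1, 70, (-1)), some (1, 82, 0), some (1, 81, (-1))],
      [some (1, 77, 0), some (1, 82, 0), some (1, 71, 0), none],
      [some (1, 82, 0), some (1, 76, 0), none, some (1, 79, 0)],
      [some (1, 74, 0), some (1, 73, 0), some (1, 83, 0), none],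
      [some (1, 80, 0), some (1, 84, (-1)), some (1, 77, 0), none],
      [some (1, 84, (-1)), some (1, 79, 0), none, none],
      [some (1, 85, 0), some (1, 83, 0), some (1, 75, 1), some (1, 86, 0)],
      [some (1, 76, 0), some (1, 77, 0), some (1, 86, 0), some (1, 75, 0)],
      [some (1, 81, 0), some (1, 85, 0), none, some (1, 78, 0)],
      [some (1, 79, 1), some (1, 80, 1), none, some (1, 87, 0)],
      [some (1, 83, 0), some (1, 81, 0), some (1, 88, 1), none],
      [some (1, 87, 0), some (1, 89, 0), some (1, 81, 0), some (1, 82, 0)],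
      [some (1, 89, 0), some (1, 86, 0), some (1, 84, 0), none],
      [some (1, 0, 0), some (1, 1, 0), none, some (1, 85, (-1))],
      [some (1, 86, 0), some (1, 87, 0), some (1, 6, 1), some (1, 0, 0)]]
  f := [12, 12, 13, 13, 13, 14, 12, 14, 13, 13, 15, 15, 13, 13, 14, 15, 16, 16, 15, 14, 13, 17, 17, 17, 18, 18, 19, 19, 18, 19, 20, 20, 18, 19, 21, 21, 20, 19, 18, 19, 20, 21, 22, 22, 0, 0, 1, 1, 1, 2, 2, 2, 2, 2, 2, 2, 2, 3, 3, 3, 3, 4, 4, 4, 4, 5, 5, 6, 6, 6, 7, 7, 7, 7, 7, 8, 8, 8, 8, 8, 8, 9, 9, 9, 9, 10, 10, 10, 11, 11]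
  h := [(-1), 0, (-1), 0, 60, (-1), 0, 1, 60, 60, (-1), 0, 60, 60, 59, 59, (-1), 0, 60, 60, 60, (-1), 1, 0, (-1), 0, (-1), 1, 60, 60, (-1), 0, 60, 60, (-1), 0, 60, 60, 60, 60, 59, 59, (-1), 0, 0, 0, 0, 0, (-1), (-1), 0, 60, 60, 60, 60, 60, 60, 0, 0, 60, 59, (-1), 0, 60, 59, (-1), 0, 0, 0, (-1), (-1), 0, 60, 60, 60, 0, 0, 60, 60, 60, 60, (-1), 0, 60, 59, (-1), (-1), 59, 0, (-1)]
  sl := []
  r := [false, false, false, false, false, false, false, false, false, false, false, false, false, false, false, false, false, false, false, false, false, false, false, false, false, false, false, false, false, false, false, false, false, false, false, false, false, false, false, false, false, false, false, false, false, false, false, false, false, false, false, false, false, false, false, false, false, false, false, false, false, false, false, false, false, false, false, false, false, false, false, false, false, false, false, false, false, false, false, false, false, false, false, false, false, false, false, false,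 false, false]
  g := [0, 0, 0, 0, 0, 0, 0, 0, 0, 0, 0, 0, 0, 0, 0, 0, 0, 0, 0, 0, 0, 0, 0, 0, 0, 0, 0, 0, 0, 0, 0, 0, 0, 0, 0, 0, 0, 0, 0, 0, 0, 0, 0, 0, 0, 0, 0, 0, 0, 0, 0, 0, 0, 0, 0, 0, 0, 0, 0, 0, 0, 0, 0, 0, 0, 0, 0, 0, 0, 0, 0, 0, 0, 0, 0, 0, 0, 0, 0, 0, 0, 0, 0, 0, 0, 0, 0, 0, 0, 0]
  par := [(89, lB'), (0, lA), (0, lB'), (1, lB), (2, lA), (2, lA'), (2, lB'), (5, lB'), (7, lA), (4, lB'), (5, lB), (10, lB), (8, lB), (9, lA), (15, lB), (10, lA), (10, lA'), (11, lA), (11, lA'), (18, lB'), (12, lA'), (16, lB'), (21, lA'), (17, lB'), (21, lA), (22, lB), (24, lB'), (30, lB'), (27, lA), (26, lA), (26, lA'), (34, lB), (28, lB), (29, lB'), (30, lB), (31, lA), (31, lA'), (36, lB'), (32, lA'), (33, lA), (41, lB), (34, lA), (34, lA'), (35, lB), (46, lB'), (38, lB'), (45, lA'), (45, lA), (49, lB), (46, lB), (47, lB'), (57, lA), (50, lA), (51, lB), (52, lB'), (53, lA'), (54, lA), (58, lB'), (50, lA'), (63, lB'), (64, lB), (62, lB), (58, lB), (61, lA'), (62, lA), (61, lA), (62, lA'), (68, lA'), (66, lB'),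 (65, lB'), (67, lB), (68, lA), (75, lA), (72, lB), (73, lA'), (82, lB'), (71, lB'), (76, lA), (83, lB'), (77, lB'), (79, lA), (86, lB), (76, lA'), (81, lA'), (87, lB), (81, lA), (82, lB), (86, lA), (0, lA'), (86, lA')]
  rk := [12, 13, 13, 14, 14, 14, 14, 15, 16, 15, 15, 16, 17, 16, 17, 16, 16, 17, 17, 18, 18, 17, 18, 18, 18, 19, 19, 21, 22, 20, 20, 22, 23, 21, 21, 23, 23, 24, 24, 22, 23, 22, 22, 24, 2, 0, 1, 1, 3, 2, 2, 5, 3, 6, 4, 7, 5, 4, 3, 7, 6, 5, 4, 6, 5, 6, 5, 7, 6, 7, 8, 7, 11, 12, 13, 10, 8, 9, 13, 10, 11, 11, 9, 12, 12, 12, 10, 11, 13, 11]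
  rt := 45
  ded := [(true, 1, lA), (true, 88, lB'), (true, 89, lB), (true, 7, lA'), (true, 4, lA), (true, 8, lA), (true, 9, lA'), (true, 11, lB), (true, 19, lA'), (true, 13, lA), (true, 15, lA), (true, 22, lB'), (true, 17, lA), (true, 19, lA), (true, 25, lB), (true, 24, lA), (true, 27, lA'), (true, 28, lA), (true, 29, lA), (true, 31, lB), (true, 37, lA'), (true, 33, lA'), (true, 35, lA), (true, 37, lA), (true, 39, lA), (true, 41, lA), (true, 44, lA'), (true, 48, lB), (true, 47, lA), (true, 57, lA'), (true, 51, lA), (true, 52, lA), (true, 54, lA'), (true, 56, lA), (true, 61, lB), (true, 65, lA), (true, 67, lB'), (true, 64, lA), (true, 70, lB), (true, 71, lA), (true, 75, lA'), (true, 72, lA), (true, 81, lB), (true, 77, lA), (true, 79, lA'), (true, 80, lA), (true, 85, lA), (true, 87, lA), (true, 44, lA), (true, 59, lA'), (true, 59, lA), (true, 78, lA'), (true, 78, lA)]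

/-- The tile of the type `4`. -/
def t4 : Tile where
  tab := [
      [some (1, 1, 0), some (0, 43, (-1)), some (0, 42, 0), some (1, 2, 0)],
      [some (0, 43, (-1)), some (1, 0, 0), some (1, 3, 0), none],
      [some (1, 4, 0), some (1, 5, 0), some (1, 0, 0), some (1, 6, 0)],
      [some (1, 7, 1), some (1, 8, 1), none, some (1, 1, 0)],
      [some (1, 5, 0), some (1, 2, 0), none, some (1, 9, 0)],
      [some (1, 2, 0), some (1, 4, 0), some (1, 10, 0), some (1, 7, 0)],
      [none, none, some (1, 2, 0), some (0, 42, (-1))],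
      [some (1, 8, 0), some (1, 3, (-1)), some (1, 5, 0), some (1, 11, (-1))],
      [some (1, 3, (-1)), some (1, 7, 0), some (1, 12, 0), none],
      [some (1, 13, 0), some (1, 14, (-1)), some (1, 4, 0), none],
      [some (1, 15, 0), some (1, 16, 0), some (1, 11, 0), some (1, 5, 0)],
      [some (1, 17, 0), some (1, 18, 0), some (1, 7, 1), some (1, 10, 0)],
      [some (1, 19, 0), some (1, 20, 0), none, some (1, 8, 0)],
      [some (1, 14, (-1)), some (1, 9, 0), none, none],
      [some (1, 9, 1), some (1, 13, 1), none, some (1, 15, 0)],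
      [some (1, 16, 0), some (1, 10, 0), some (1, 14, 0), none],
      [some (1, 10, 0), some (1, 15, 0), none, some (1, 21, 0)],
      [some (1, 18, 0), some (1, 11, 0), some (1, 22, 1), some (1, 23, 0)],
      [some (1, 11, 0), some (1, 17, 0), none, some (1, 19, 0)],
      [some (1, 20, 0), some (1, 12, 0), some (1, 18, 0), none],
      [some (1, 12, 0), some (1, 19, 0), none, none],
      [some (1, 24, 0), some (1, 22, 0), some (1, 16, 0), none],
      [some (1, 21, 0), some (1, 24, 0), some (1, 25, 0), some (1, 17, (-1))],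
      [none, none, some (1, 17, 0), some (1, 25, 0)],
      [some (1, 22, 0), some (1, 21, 0), none, some (1, 26, 0)],
      [some (1, 27, 1), some (1, 28, 1), some (1, 23, 0), some (1, 22, 0)],
      [some (1, 29, 0), some (1, 30, 0), some (1, 24, 0), none],
      [some (1, 28, 0), some (1, 25, (-1)), some (1, 30, 0), some (1, 31, (-1))],
      [some (1, 25, (-1)), some (1, 27, 0), some (1, 32, 0), none],
      [some (1, 30, 0), some (1, 26, 0), none, some (1, 33, 0)],
      [some (1, 26, 0), some (1, 29, 0), some (1, 34, 0), some (1, 27, 0)],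
      [some (1, 35, 0), some (1, 36, 0), some (1, 27, 1), some (1, 34, 0)],
      [some (1, 37, 0), some (1, 38, 0), none, some (1, 28, 0)],
      [some (1, 39, 0), some (1, 40, (-1)), some (1, 29, 0), none],
      [some (1, 41, 0), some (1, 42, 0), some (1, 31, 0), some (1, 30, 0)],
      [some (1, 36, 0), some (1, 31, 0), some (1, 43, 0), none],
      [some (1, 31, 0), some (1, 35, 0), none, some (1, 37, 0)],
      [some (1, 38, 0), some (1, 32, 0), some (1, 36, 0), none],
      [some (1, 32, 0), some (1, 37, 0), none, none],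
      [some (1, 40, (-1)), some (1, 33, 0), none, none],
      [some (1, 33, 1), some (1, 39, 1), none, some (1, 41, 0)],
      [some (1, 42, 0), some (1, 34, 0), some (1, 40, 0), none],
      [some (1, 34, 0), some (1, 41, 0), some (2, 6, 1), some (2, 0, 0)],
      [some (2, 0, 1), some (2, 1, 1), none, some (1, 35, 0)]]
  f := [0, 0, 1, 1, 1, 2, 0, 2, 1, 1, 3, 3, 1, 1, 2, 3, 4, 4, 3, 2, 1, 5, 5, 5, 6, 6, 7, 7, 6, 7, 8, 8, 6, 7, 9, 9, 8, 7, 6, 7, 8, 9, 10, 10]
  h := [(-1), 1, (-1), 1, 60, (-1), 0, 2, 60, 60, (-1), 1, 60, 60, 59, 59, (-1), 1, 60, 60, 60, (-1), 2, 1, (-1), 1, (-1), 2, 60, 60, (-1), 1, 60, 60, (-1), 1, 60, 60, 60, 60, 59, 59, (-1), 1]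
  sl := [0, 1, 0, 1, 0, 0, 0, 1, 1, 0, 0, 1, 1, 0, 0, 0, 0, 1, 1, 1, 1, 0, 1, 1, 0, 1, 0, 1, 1, 0, 0, 1, 1, 0, 0, 1, 1, 1, 1, 0, 0, 0, 0, 1]
  r := [false, false, false, false, false, false, false, false, false, false, false, false, false, false, false, false, false, false, false, false, false, false, false, false, false, false, false, false, false, false, false, false, false, false, false, false, false, false, false, false, false, false, false, false]
  g := [0, 0, 0, 0, 0, 0, 0, 0, 0, 0, 0, 0, 0, 0, 0, 0, 0, 0, 0, 0, 0, 0, 0, 0, 0, 0, 0, 0, 0, 0, 0, 0, 0, 0, 0, 0, 0, 0, 0, 0, 0, 0, 0, 0]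
  par := [(42, lB'), (0, lA), (0, lB'), (1, lB), (2, lA), (2, lA'), (2, lB'), (5, lB'), (7, lA), (4, lB'), (5, lB), (10, lB), (8, lB), (9, lA), (15, lB), (10, lA), (10, lA'), (11, lA), (11, lA'), (18, lB'), (12, lA'), (16, lB'), (21, lA'), (17, lB'), (21, lA), (22, lB), (24, lB'), (30, lB'), (27, lA), (26, lA), (26, lA'), (34, lB), (28, lB), (29, lB'), (30, lB), (31, lA), (31, lA'), (36, lB'), (32, lA'), (33, lA), (41, lB), (34, lA), (34, lA'), (35, lB)]
  rk := [0, 1, 1, 2, 2, 2, 2, 3, 4, 3, 3, 4, 5, 4, 5, 4, 4, 5, 5, 6, 6, 5, 6, 6, 6, 7, 7, 9, 10, 8, 8, 10, 11, 9, 9, 11, 11, 12, 12, 10, 11, 10, 10, 12]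
  rt := 0
  ded := [(true, 0, lA'), (false, 42, lB), (true, 7, lA'), (true, 4, lA), (true, 8, lA), (true, 9, lA'), (true, 11, lB), (true, 19, lA'), (true, 13, lA), (true, 15, lA), (true, 22, lB'), (true, 17, lA), (true, 19, lA), (true, 25, lB), (true, 24, lA), (true, 27, lA'), (true, 28, lA), (true, 29, lA), (true, 31, lB), (true, 37, lA'), (true, 33, lA'), (true, 35, lA), (true, 37, lA), (true, 39, lA), (true, 41, lA), (true, 1, lA)]

/-- The data. -/
def data : TileData where
  l := 3
  m := 3
  n := 4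
  T := [t0, t1, t2, t3, t4]
  len := [22, 11, 11, 23, 11]
  a := 1
  x0 := 44
  r1 := 0
  e1 := 1
  r2 := 5
  d2 := 0
  e2 := 0
  p0 := [lA, lB', lA', lB, lA', lB', lB', lA', lB, lA', lB', lA, lB', lA', lB, lA', lB', lB', lA', lB, lA', lB']
  p1 := [lA, lB', lA', lB, lA', lB', lB', lA', lB, lA', lB']
  p2 := [lA, lB', lA', lB, lA', lB', lB', lA', lB', lB', lA, lB', lB', lA, lB', lA, lB', lB', lA, lB', lA, lB, lA', lB, lA, lB', lA, lB', lB', lA, lB', lA, lB, lA']
  p3 := [lB, lA, lB', lA, lB', lB', lA, lB', lA, lB, lA']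
  q0 := [lA', lB, lA, lB', lA, lB, lA', lB, lA, lB', lA, lB', lB', lA, lB', lA, lB, lA', lB, lA, lB', lA]
  q1 := [lB', lB', lA, lB', lA, lB, lA', lB, lA, lB', lA]
  q2 := [lB', lB', lA, lB', lA, lB, lA', lB, lA, lB', lA, lB', lB', lA, lB', lA, lB', lB', lA, lB', lB', lA', lB', lB', lA', lB, lA', lB', lA, lB', lA', lB, lA', lB']
  qa := [lB', lA', lB, lA', lB', lA, lB', lA', lB, lA', lB']
  q3 := [lB', lA', lB, lA', lB', lA, lB', lA', lB, lA', lB']
  c := [lA']
  α := 1
  K0 := 2

/-- The data satisfy the conditions. -/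
theorem ok : data.check = true := by decide +kernel

end Pool.Agent.SLE.T334
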