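import Pool.Agent.SLE.Tile

/-!
# Tiles for `(3, 3, 5)`

Generated data; everything is checked by the kernel.
-/

namespace Pool.Agent.SLE.T335

/-- The tile of the type `0`. -/
def t0 : Tile where
  tab := [
      [some (1, 1, 0), some (1, 2, 0), some (1, 37, 0), none],
      [some (1, 2, 0), some (1, 0, 0), none, some (1, 3, 0)],
      [some (1, 0, 0), some (1, 1, 0), some (1, 4, 0), some (1, 5, 0)],
      [some (1, 6, 0), some (1, 7, 0), some (1, 1, 0), none],
      [some (1, 8, 1), some (1, 9, 1), some (1, 10, 0), some (1, 2, 0)],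
      [some (1, 38, 0), some (1, 36, (-1)), some (1, 2, 0), some (1, 11, 0)],
      [some (1, 7, 0), some (1, 3, 0), none, some (1, 12, 0)],
      [some (1, 3, 0), some (1, 6, 0), some (1, 13, 0), some (1, 8, 0)],
      [some (1, 9, 0), some (1, 4, (-1)), some (1, 7, 0), some (1, 14, 0)],
      [some (1, 4, (-1)), some (1, 8, 0), none, none],
      [none, none, some (1, 11, 1), some (1, 4, 0)],
      [none, none, some (1, 5, 0), some (1, 10, (-1))],
      [some (1, 15, 0), some (1, 16, (-1)), some (1, 6, 0), none],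
      [some (1, 17, 0), some (1, 18, 0), some (1, 19, 0), some (1, 7, 0)],
      [none, none, some (1, 8, 0), some (1, 19, (-1))],
      [some (1, 16, (-1)), some (1, 12, 0), none, none],
      [some (1, 12, 1), some (1, 15, 1), none, some (1, 17, 0)],
      [some (1, 18, 0), some (1, 13, 0), some (1, 16, 0), none],
      [some (1, 13, 0), some (1, 17, 0), none, some (2, 0, 0)],
      [some (2, 5, 1), some (1, 20, 0), some (1, 14, 1), some (1, 13, 0)],
      [some (1, 19, 0), some (2, 5, 1), none, none],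
      [some (1, 23, 0), some (1, 22, 0), none, none],
      [some (1, 21, 0), some (1, 23, 0), some (1, 24, 0), none],
      [some (1, 22, 0), some (1, 21, 0), none, some (1, 25, 0)],
      [some (1, 30, 1), some (1, 26, 1), none, some (1, 22, 0)],
      [some (1, 27, 0), some (1, 31, 0), some (1, 23, 0), none],
      [some (1, 24, (-1)), some (1, 30, 0), none, none],
      [some (1, 31, 0), some (1, 25, 0), none, some (1, 28, 0)],
      [some (1, 29, 0), some (1, 32, (-1)), some (1, 27, 0), none],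
      [some (1, 32, (-1)), some (1, 28, 0), none, none],
      [some (1, 26, 0), some (1, 24, (-1)), some (1, 31, 0), some (1, 33, 0)],
      [some (1, 25, 0), some (1, 27, 0), some (1, 34, 0), some (1, 30, 0)],
      [some (1, 28, 1), some (1, 29, 1), none, some (1, 35, 0)],
      [none, none, some (1, 30, 0), some (1, 36, (-1))],
      [some (1, 35, 0), some (1, 37, 0), some (1, 36, 0), some (1, 31, 0)],
      [some (1, 37, 0), some (1, 34, 0), some (1, 32, 0), none],
      [some (1, 5, 1), some (1, 38, 1), some (1, 33, 1), some (1, 34, 0)],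
      [some (1, 34, 0), some (1, 35, 0), none, some (1, 0, 0)],
      [some (1, 36, (-1)), some (1, 5, 0), none, none]]
  f := [6, 7, 7, 8, 8, 6, 8, 9, 9, 8, 7, 6, 8, 10, 10, 8, 9, 10, 11, 11, 11, 0, 1, 1, 2, 2, 2, 2, 2, 2, 3, 3, 3, 4, 4, 4, 5, 5, 5]
  h := [0, 0, 0, 0, 0, 1, 60, 0, 1, 60, 59, 60, 60, 0, 1, 60, 59, 59, 0, 0, 60, 0, 0, 0, 0, 0, 60, 60, 60, 60, 1, 0, 59, 1, 0, 59, 0, 0, 60]
  sl := []
  r := [false, false, true, false, true, true, false, false, true, false, false, false, false, false, true, false, false, false, false, true, false, false, true, false, true, false, false, false, false, false, true, false, false, true, false, false, true, false, false]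
  g := [0, 0, 1, 0, 1, 1, 0, 0, 2, 0, 0, 0, 0, 0, 2, 0, 0, 0, 0, 1, 0, 0, 0, 0, 0, 0, 0, 0, 0, 0, 1, 0, 0, 1, 0, 0, 0, 0, 0]
  par := [(37, lB'), (0, lA), (0, lA'), (1, lB'), (2, lB), (2, lB'), (3, lA), (3, lA'), (7, lB'), (8, lA), (4, lB), (5, lB'), (6, lB'), (7, lB), (8, lB'), (12, lA), (17, lB), (13, lA), (13, lA'), (13, lB), (19, lA'), (0, lA), (21, lA'), (21, lA), (22, lB), (23, lB'), (30, lA), (25, lA), (27, lB'), (28, lA), (31, lB'), (25, lA'), (35, lB), (30, lB'), (31, lB), (34, lA), (34, lB), (34, lA'), (5, lA)]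
  rk := [6, 7, 7, 8, 8, 8, 9, 9, 10, 11, 9, 9, 10, 10, 11, 11, 12, 11, 11, 11, 12, 0, 1, 1, 2, 2, 5, 3, 4, 5, 4, 3, 6, 5, 4, 5, 5, 5, 9]
  rt := 21
  ded := [(true, 1, lA), (true, 5, lA'), (true, 8, lA'), (true, 10, lB), (true, 6, lA), (true, 9, lA), (true, 38, lA), (true, 12, lA'), (true, 19, lB), (true, 15, lA), (true, 17, lA), (true, 23, lA), (true, 30, lA'), (true, 26, lA), (true, 27, lA), (true, 28, lA'), (true, 29, lA), (true, 36, lB), (true, 35, lA)]

/-- The tile of the type `1`. -/
def t1 : Tile where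
  tab := [
      [some (1, 1, 0), some (1, 2, 0), some (0, 18, 0), none],
      [some (1, 2, 0), some (1, 0, 0), none, some (1, 3, 0)],
      [some (1, 0, 0), some (1, 1, 0), some (1, 4, 0), some (1, 5, 0)],
      [some (1, 6, 0), some (1, 7, 0), some (1, 1, 0), none],
      [some (1, 8, 1), some (1, 9, 1), some (1, 10, 0), some (1, 2, 0)],
      [some (0, 20, (-1)), some (0, 19, (-1)), some (1, 2, 0), some (1, 11, 0)],
      [some (1, 7, 0), some (1, 3, 0), none, some (1, 12, 0)],
      [some (1, 3, 0), some (1, 6, 0), some (1, 13, 0), some (1, 8, 0)],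
      [some (1, 9, 0), some (1, 4, (-1)), some (1, 7, 0), some (1, 14, 0)],
      [some (1, 4, (-1)), some (1, 8, 0), none, none],
      [none, none, some (1, 11, 1), some (1, 4, 0)],
      [none, none, some (1, 5, 0), some (1, 10, (-1))],
      [some (1, 15, 0), some (1, 16, (-1)), some (1, 6, 0), none],
      [some (1, 17, 0), some (1, 18, 0), some (1, 19, 0), some (1, 7, 0)],
      [none, none, some (1, 8, 0), some (1, 19, (-1))],
      [some (1, 16, (-1)), some (1, 12, 0), none, none],
      [some (1, 12, 1), some (1, 15, 1), none, some (1, 17, 0)],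
      [some (1, 18, 0), some (1, 13, 0), some (1, 16, 0), none],
      [some (1, 13, 0), some (1, 17, 0), none, some (2, 0, 0)],
      [some (2, 5, 1), some (1, 20, 0), some (1, 14, 1), some (1, 13, 0)],
      [some (1, 19, 0), some (2, 5, 1), none, none]]
  f := [0, 1, 1, 2, 2, 0, 2, 3, 3, 2, 1, 0, 2, 4, 4, 2, 3, 4, 5, 5, 5]
  h := [0, 0, 0, 0, 0, 1, 60, 0, 1, 60, 59, 60, 60, 0, 1, 60, 59, 59, 0, 0, 60]
  sl := []
  r := [false, false, true, false, true, true, false, false, true, false, false, false, false, false, true, false, false, false, false, true, false]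
  g := [0, 0, 2, 0, 2, 2, 0, 0, 3, 0, 0, 0, 0, 0, 3, 0, 0, 0, 0, 2, 0]
  par := [(18, lB'), (0, lA), (0, lA'), (1, lB'), (2, lB), (2, lB'), (3, lA), (3, lA'), (7, lB'), (8, lA), (4, lB), (5, lB'), (6, lB'), (7, lB), (8, lB'), (12, lA), (17, lB), (13, lA), (13, lA'), (13, lB), (19, lA')]
  rk := [0, 1, 1, 2, 2, 2, 3, 3, 4, 5, 3, 3, 4, 4, 5, 5, 6, 5, 5, 5, 6]
  rt := 0
  ded := [(true, 1, lA), (true, 5, lA'), (true, 8, lA'), (true, 10, lB), (true, 6, lA), (true, 9, lA), (true, 5, lA), (true, 12, lA'), (true, 19, lB), (true, 15, lA), (true, 17, lA)]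

/-- The tile of the type `2`. -/
def t2 : Tile where
  tab := [
      [some (1, 1, 0), some (1, 2, 0), some (0, 18, 0), none],
      [some (1, 2, 0), some (1, 0, 0), none, some (1, 3, 0)],
      [some (1, 0, 0), some (1, 1, 0), some (1, 4, 0), some (1, 5, 0)],
      [some (1, 6, 0), some (1, 7, 0), some (1, 1, 0), none],
      [some (1, 8, 1), some (1, 9, 1), some (1, 10, 0), some (1, 2, 0)],
      [some (0, 20, (-1)), some (0, 19, (-1)), some (1, 2, 0), some (1, 11, 0)],
      [some (1, 7, 0), some (1, 3, 0), none, some (1, 12, 0)],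
      [some (1, 3, 0), some (1, 6, 0), some (1, 13, 0), some (1, 8, 0)],
      [some (1, 9, 0), some (1, 4, (-1)), some (1, 7, 0), some (1, 14, 0)],
      [some (1, 4, (-1)), some (1, 8, 0), none, none],
      [none, none, some (1, 11, 1), some (1, 4, 0)],
      [none, none, some (1, 5, 0), some (1, 10, (-1))],
      [some (1, 15, 0), some (1, 16, (-1)), some (1, 6, 0), none],
      [some (1, 17, 0), some (1, 18, 0), some (1, 19, 0), some (1, 7, 0)],
      [none, none, some (1, 8, 0), some (1, 19, (-1))],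
      [some (1, 16, (-1)), some (1, 12, 0), none, none],
      [some (1, 12, 1), some (1, 15, 1), none, some (1, 17, 0)],
      [some (1, 18, 0), some (1, 13, 0), some (1, 16, 0), none],
      [some (1, 13, 0), some (1, 17, 0), none, some (2, 22, 0)],
      [some (2, 21, 1), some (1, 20, 0), some (1, 14, 1), some (1, 13, 0)],
      [some (1, 19, 0), some (2, 21, 1), none, none]]
  f := [0, 1, 1, 2, 2, 0, 2, 3, 3, 2, 1, 0, 2, 4, 4, 2, 3, 4, 5, 5, 5]
  h := [0, 0, 0, 0, 0, 1, 60, 0, 1, 60, 59, 60, 60, 0, 1, 60, 59, 59, 0, 0, 60]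
  sl := []
  r := [false, false, false, false, false, true, false, false, false, false, false, false, false, false, false, false, false, false, false, false, false]
  g := [0, 0, 0, 0, 0, 2, 0, 0, 0, 0, 0, 0, 0, 0, 0, 0, 0, 0, 0, 0, 0]
  par := [(18, lB'), (0, lA), (0, lA'), (1, lB'), (2, lB), (2, lB'), (3, lA), (3, lA'), (7, lB'), (8, lA), (4, lB), (5, lB'), (6, lB'), (7, lB), (8, lB'), (12, lA), (17, lB), (13, lA), (13, lA'), (13, lB), (19, lA')]
  rk := [0, 1, 1, 2, 2, 2, 3, 3, 4, 5, 3, 3, 4, 4, 5, 5, 6, 5, 5, 5, 6]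
  rt := 0
  ded := [(true, 1, lA), (true, 5, lA'), (true, 8, lA'), (true, 10, lB), (true, 6, lA), (true, 9, lA), (true, 5, lA), (true, 12, lA'), (true, 19, lB), (true, 15, lA), (true, 17, lA)]

/-- The tile of the type `3`. -/
def t3 : Tile where
  tab := [
      [none, none, some (1, 1, 0), some (1, 34, 0)],
      [some (1, 2, 0), some (1, 3, 0), some (1, 4, 0), some (1, 0, 0)],
      [some (1, 3, 0), some (1, 1, 0), none, none],
      [some (1, 1, 0), some (1, 2, 0), some (1, 5, 0), some (1, 6, 0)],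
      [some (1, 7, 0), some (1, 8, 0), some (1, 33, 1), some (1, 1, 0)],
      [none, none, some (1, 9, 1), some (1, 3, 0)],
      [some (1, 10, 0), some (1, 11, 0), some (1, 3, 0), some (1, 12, 0)],
      [some (1, 8, 0), some (1, 4, 0), some (1, 11, 1), none],
      [some (1, 4, 0), some (1, 7, 0), none, some (1, 35, 0)],
      [none, none, some (1, 12, 0), some (1, 5, (-1))],
      [some (1, 11, 0), some (1, 6, 0), some (1, 13, 0), none],
      [some (1, 6, 0), some (1, 10, 0), none, some (1, 7, (-1))],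
      [some (1, 14, 0), some (1, 15, 0), some (1, 6, 0), some (1, 9, 0)],
      [some (1, 16, 1), some (1, 17, 1), none, some (1, 10, 0)],
      [some (1, 15, 0), some (1, 12, 0), none, none],
      [some (1, 12, 0), some (1, 14, 0), some (2, 0, 0), some (1, 16, 0)],
      [some (1, 17, 0), some (1, 13, (-1)), some (1, 15, 0), some (2, 4, (-1))],
      [some (1, 13, (-1)), some (1, 16, 0), some (1, 18, 0), none],
      [some (1, 19, 0), some (1, 20, 0), none, some (1, 17, 0)],
      [some (1, 20, 0), some (1, 18, 0), some (2, 8, 0), none],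
      [some (1, 18, 0), some (1, 19, 0), none, none],
      [some (0, 20, (-1)), some (0, 19, (-1)), some (1, 24, 0), some (1, 23, 0)],
      [some (1, 25, 0), some (1, 24, 0), some (0, 18, 0), none],
      [none, none, some (1, 21, 0), some (1, 26, (-1))],
      [some (1, 22, 0), some (1, 25, 0), some (1, 27, 0), some (1, 21, 0)],
      [some (1, 24, 0), some (1, 22, 0), none, some (1, 28, 0)],
      [none, none, some (1, 23, 1), some (1, 27, 0)],
      [some (1, 33, 1), some (1, 29, 1), some (1, 26, 0), some (1, 24, 0)],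
      [some (1, 30, 0), some (1, 34, 0), some (1, 25, 0), none],
      [some (1, 27, (-1)), some (1, 33, 0), some (1, 31, 0), none],
      [some (1, 34, 0), some (1, 28, 0), none, none],
      [some (1, 35, 0), some (1, 32, 0), none, some (1, 29, 0)],
      [some (1, 31, 0), some (1, 35, 0), none, none],
      [some (1, 29, 0), some (1, 27, (-1)), some (1, 34, 0), some (1, 4, (-1))],
      [some (1, 28, 0), some (1, 30, 0), some (1, 0, 0), some (1, 33, 0)],
      [some (1, 32, 0), some (1, 31, 0), some (1, 8, 0), none]]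
  f := [4, 5, 5, 6, 4, 6, 7, 5, 4, 7, 7, 6, 8, 8, 8, 9, 9, 8, 8, 9, 8, 0, 0, 0, 1, 1, 1, 2, 2, 2, 2, 2, 2, 3, 3, 3]
  h := [0, 0, 60, 0, 0, 60, 0, 0, 60, 60, 1, 1, 0, 1, 60, 0, 2, 60, 60, 60, 60, 1, 0, 60, 0, 0, 59, 0, 0, 60, 60, 60, 60, 1, 0, 60]
  sl := []
  r := [false, false, false, false, false, false, false, false, false, false, false, false, false, false, false, false, false, false, false, false, false, false, false, false, false, false, false, false, false, false, false, false, false, false, false, false]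
  g := [0, 0, 0, 0, 0, 0, 0, 0, 0, 0, 0, 0, 0, 0, 0, 0, 0, 0, 0, 0, 0, 0, 0, 0, 0, 0, 0, 0, 0, 0, 0, 0, 0, 0, 0, 0]
  par := [(34, lB), (0, lB), (1, lA), (1, lA'), (1, lB), (3, lB), (3, lB'), (4, lA), (4, lA'), (12, lB'), (6, lA), (6, lA'), (6, lB'), (10, lB), (12, lA), (12, lA'), (15, lB'), (16, lA), (17, lB), (18, lA), (18, lA'), (24, lB'), (18, lB'), (21, lB'), (22, lA'), (22, lA), (27, lB), (24, lB), (25, lB'), (33, lA), (28, lA), (35, lA'), (35, lA), (34, lB'), (28, lA'), (8, lB')]
  rk := [4, 5, 6, 6, 6, 7, 7, 7, 7, 9, 8, 8, 8, 9, 9, 9, 10, 11, 12, 13, 13, 2, 0, 3, 1, 1, 3, 2, 2, 5, 3, 9, 9, 4, 3, 8]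
  rt := 22
  ded := [(true, 4, lB), (true, 2, lA), (true, 11, lB'), (true, 5, lB), (true, 7, lA), (true, 31, lB'), (true, 10, lA), (true, 16, lA'), (true, 14, lA), (true, 17, lA), (true, 19, lA), (true, 21, lA'), (true, 26, lB), (true, 25, lA), (true, 33, lA'), (true, 29, lA), (true, 30, lA), (true, 32, lA), (true, 21, lA)]

/-- The tile of the type `4`. -/
def t4 : Tile where
  tab := [
      [none, none, some (1, 1, 0), some (0, 15, 0)],
      [some (1, 2, 0), some (1, 3, 0), some (1, 4, 0), some (1, 0, 0)],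
      [some (1, 3, 0), some (1, 1, 0), none, none],
      [some (1, 1, 0), some (1, 2, 0), some (1, 5, 0), some (1, 6, 0)],
      [some (1, 7, 0), some (1, 8, 0), some (0, 16, 1), some (1, 1, 0)],
      [none, none, some (1, 9, 1), some (1, 3, 0)],
      [some (1, 10, 0), some (1, 11, 0), some (1, 3, 0), some (1, 12, 0)],
      [some (1, 8, 0), some (1, 4, 0), some (1, 11, 1), none],
      [some (1, 4, 0), some (1, 7, 0), none, some (0, 19, 0)],
      [none, none, some (1, 12, 0), some (1, 5, (-1))],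
      [some (1, 11, 0), some (1, 6, 0), some (1, 13, 0), none],
      [some (1, 6, 0), some (1, 10, 0), none, some (1, 7, (-1))],
      [some (1, 14, 0), some (1, 15, 0), some (1, 6, 0), some (1, 9, 0)],
      [some (1, 16, 1), some (1, 17, 1), none, some (1, 10, 0)],
      [some (1, 15, 0), some (1, 12, 0), none, none],
      [some (1, 12, 0), some (1, 14, 0), some (2, 0, 0), some (1, 16, 0)],
      [some (1, 17, 0), some (1, 13, (-1)), some (1, 15, 0), some (2, 4, (-1))],
      [some (1, 13, (-1)), some (1, 16, 0), some (1, 18, 0), none],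
      [some (1, 19, 0), some (1, 20, 0), none, some (1, 17, 0)],
      [some (1, 20, 0), some (1, 18, 0), some (2, 8, 0), none],
      [some (1, 18, 0), some (1, 19, 0), none, none]]
  f := [0, 1, 1, 2, 0, 2, 3, 1, 0, 3, 3, 2, 4, 4, 4, 5, 5, 4, 4, 5, 4]
  h := [0, 0, 60, 0, 1, 60, 0, 1, 59, 60, 2, 2, 0, 2, 60, 0, 3, 60, 60, 60, 60]
  sl := [0, 0, 0, 0, 1, 0, 0, 1, 1, 0, 1, 1, 0, 1, 0, 0, 1, 1, 1, 1, 1]
  r := [false, false, false, false, false, false, false, false, false, false, false, false, false, false, false, false, false, false, false, false, false]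
  g := [0, 0, 0, 0, 0, 0, 0, 0, 0, 0, 0, 0, 0, 0, 0, 0, 0, 0, 0, 0, 0]
  par := [(15, lB), (0, lB), (1, lA), (1, lA'), (1, lB), (3, lB), (3, lB'), (4, lA), (4, lA'), (12, lB'), (6, lA), (6, lA'), (6, lB'), (10, lB), (12, lA), (12, lA'), (15, lB'), (16, lA), (17, lB), (18, lA), (18, lA')]
  rk := [0, 1, 2, 2, 2, 3, 3, 3, 3, 5, 4, 4, 4, 5, 5, 5, 6, 7, 8, 9, 9]
  rt := 0
  ded := [(true, 4, lB), (true, 2, lA), (true, 11, lB'), (true, 5, lB), (true, 7, lA), (true, 8, lB'), (true, 10, lA), (true, 16, lA'), (true, 14, lA), (true, 17, lA), (true, 19, lA)]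

/-- The data. -/
def data : TileData where
  l := 3
  m := 3
  n := 5
  T := [t0, t1, t2, t3, t4]
  len := [12, 6, 6, 10, 6]
  a := 1
  x0 := 21
  r1 := 0
  e1 := 4
  r2 := 5
  d2 := 0
  e2 := 0
  p0 := [lA, lB', lA', lB, lA', lB', lA, lB', lA', lB, lA', lB']
  p1 := [lA, lB', lA', lB, lA', lB']
  p2 := [lA, lB', lA', lB, lA', lB', lA', lB, lA, lB', lA, lB, lA', lB, lA, lB']
  p3 := [lA, lB, lA', lB, lA, lB']
  q0 := [lA', lB, lA, lB', lB', lA, lB, lB, lA, lB', lB', lA]
  q1 := [lB, lB, lA, lB', lB', lA]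
  q2 := [lB, lB, lA, lB', lB', lA, lB, lB, lA, lB', lB', lA', lB', lB', lA', lB]
  qa := [lB, lA', lB', lB', lA', lB]
  q3 := [lB, lA', lB', lB', lA', lB]
  c := [lB', lB']
  α := 1
  K0 := 2

/-- The data satisfy the conditions. -/
theorem ok : data.check = true := by decide +kernel

end Pool.Agent.SLE.T335
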