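import Pool.Agent.SLE.Tile

/-!
# Tiles for `(4, 2, 5)`

Generated data; everything is checked by the kernel.
-/

namespace Pool.Agent.SLE.T425

/-- The tile of the type `0`. -/
def t0 : Tile where
  tab := [
      [some (1, 1, 0), some (1, 2, 0), some (1, 10, 0), none],
      [some (2, 4, 1), some (1, 0, 0), none, some (2, 0, 0)],
      [some (1, 0, 0), some (2, 4, 1), some (1, 3, 0), some (1, 4, 0)],
      [some (1, 5, 0), none, some (1, 11, 0), some (1, 2, 0)],
      [some (1, 9, (-1)), some (1, 10, (-1)), some (1, 2, 0), some (1, 12, 0)],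
      [none, some (1, 3, 0), some (2, 4, 2), some (1, 6, 0)],
      [none, none, some (1, 5, 0), some (2, 3, 1)],
      [some (1, 10, 0), some (1, 9, 0), none, none],
      [some (1, 12, 2), none, none, some (1, 9, 0)],
      [some (1, 7, 0), some (1, 4, 1), some (1, 8, 0), none],
      [some (1, 4, 1), some (1, 7, 0), none, some (1, 0, 0)],
      [none, none, some (1, 12, 1), some (1, 3, 0)],
      [none, some (1, 8, (-2)), some (1, 4, 0), some (1, 11, (-1))]]
  f := [2, 3, 3, 2, 2, 3, 3, 0, 0, 1, 1, 1, 1]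
  h := [0, 0, 0, 60, 1, 60, 60, 0, 60, 0, 0, 60, 60]
  sl := []
  r := [false, false, true, false, true, false, false, false, false, true, false, false, false]
  g := [0, 0, 1, 0, 1, 0, 0, 0, 0, 0, 0, 0, 0]
  par := [(10, lB'), (0, lA), (0, lA'), (2, lB), (2, lB'), (3, lA), (5, lB'), (0, lA), (9, lB), (7, lA'), (7, lA), (3, lB), (4, lB')]
  rk := [2, 3, 3, 4, 4, 5, 6, 0, 2, 1, 1, 5, 5]
  rt := 7
  ded := [(true, 4, lA'), (true, 11, lB), (true, 4, lA), (true, 12, lA')]

/-- The tile of the type `1`. -/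
def t1 : Tile where
  tab := [
      [some (1, 1, 0), some (1, 2, 0), some (0, 1, 0), none],
      [some (2, 4, 1), some (1, 0, 0), none, some (2, 0, 0)],
      [some (1, 0, 0), some (2, 4, 1), some (1, 3, 0), some (1, 4, 0)],
      [some (1, 5, 0), none, some (0, 6, (-1)), some (1, 2, 0)],
      [some (0, 2, (-1)), some (0, 1, (-1)), some (1, 2, 0), some (0, 5, (-2))],
      [none, some (1, 3, 0), some (2, 4, 2), some (1, 6, 0)],
      [none, none, some (1, 5, 0), some (2, 3, 1)]]
  f := [0, 1, 1, 0, 0, 1, 1]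
  h := [0, 0, 0, 60, 1, 60, 60]
  sl := []
  r := [false, false, true, false, true, false, false]
  g := [0, 0, 2, 0, 2, 0, 0]
  par := [(1, lB'), (0, lA), (0, lA'), (2, lB), (2, lB'), (3, lA), (5, lB')]
  rk := [0, 1, 1, 2, 2, 3, 4]
  rt := 0
  ded := [(true, 4, lA'), (true, 4, lA), (true, 4, lB'), (true, 3, lB)]

/-- The tile of the type `2`. -/
def t2 : Tile where
  tab := [
      [some (1, 1, 0), some (1, 2, 0), some (0, 1, 0), none],
      [some (2, 7, 1), some (1, 0, 0), none, some (2, 8, 0)],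
      [some (1, 0, 0), some (2, 7, 1), some (1, 3, 0), some (1, 4, 0)],
      [some (1, 5, 0), none, some (0, 6, (-1)), some (1, 2, 0)],
      [some (0, 2, (-1)), some (0, 1, (-1)), some (1, 2, 0), some (0, 5, (-2))],
      [none, some (1, 3, 0), some (2, 7, 2), some (1, 6, 0)],
      [none, none, some (1, 5, 0), some (2, 9, 1)]]
  f := [0, 1, 1, 0, 0, 1, 1]
  h := [0, 0, 0, 60, 1, 60, 60]
  sl := []
  r := [false, false, false, false, true, false, false]
  g := [0, 0, 0, 0, 2, 0, 0]
  par := [(1, lB'), (0, lA), (0, lA'), (2, lB), (2, lB'), (3, lA), (5, lB')]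
  rk := [0, 1, 1, 2, 2, 3, 4]
  rt := 0
  ded := [(true, 4, lA'), (true, 4, lA), (true, 4, lB'), (true, 3, lB)]

/-- The tile of the type `3`. -/
def t3 : Tile where
  tab := [
      [some (1, 1, 0), some (1, 25, 0), some (1, 26, 0), none],
      [some (1, 2, 0), some (1, 0, 0), none, some (2, 0, 0)],
      [some (1, 25, 0), some (1, 1, 0), some (1, 3, 0), some (1, 27, 0)],
      [some (2, 0, 1), some (2, 2, 1), some (1, 4, 0), some (1, 2, 0)],
      [some (1, 5, 0), none, some (1, 28, 0), some (1, 3, 0)],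
      [none, some (1, 4, 0), some (2, 2, 2), some (1, 6, 0)],
      [none, none, some (1, 5, 0), some (2, 4, 1)],
      [some (0, 2, (-1)), some (0, 1, (-1)), some (1, 10, 0), some (0, 5, (-2))],
      [some (1, 11, 0), some (1, 10, 0), some (0, 1, 0), none],
      [some (1, 12, 1), none, some (0, 6, (-1)), some (1, 10, 0)],
      [some (1, 8, 0), some (1, 13, 0), some (1, 9, 0), some (1, 7, 0)],
      [some (1, 13, 0), some (1, 8, 0), none, some (1, 14, 0)],
      [none, some (1, 9, (-1)), some (1, 13, 0), some (1, 15, 0)],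
      [some (1, 10, 0), some (1, 11, 0), some (1, 16, 1), some (1, 12, 0)],
      [some (1, 17, 0), some (1, 16, 0), some (1, 11, 0), none],
      [none, none, some (1, 12, 0), some (1, 18, 0)],
      [some (1, 14, 0), some (1, 19, 0), some (1, 18, 0), some (1, 13, (-1))],
      [some (1, 19, 0), some (1, 14, 0), none, some (1, 20, 0)],
      [some (1, 21, 1), none, some (1, 15, 0), some (1, 16, 0)],
      [some (1, 16, 0), some (1, 17, 0), some (1, 22, 1), some (1, 21, 0)],
      [some (1, 23, 0), some (1, 22, 0), some (1, 17, 0), none],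
      [none, some (1, 18, (-1)), some (1, 19, 0), some (1, 24, 1)],
      [some (1, 20, 0), some (1, 26, 0), some (1, 25, 1), some (1, 19, (-1))],
      [some (1, 26, 0), some (1, 20, 0), none, none],
      [some (1, 27, 1), none, some (1, 21, (-1)), some (1, 25, 0)],
      [some (1, 0, 0), some (1, 2, 0), some (1, 24, 0), some (1, 22, (-1))],
      [some (1, 22, 0), some (1, 23, 0), none, some (1, 0, 0)],
      [none, some (1, 24, (-1)), some (1, 2, 0), some (1, 28, (-1))],
      [none, none, some (1, 27, 1), some (1, 4, 0)]]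
  f := [7, 8, 7, 8, 7, 8, 8, 0, 0, 0, 1, 1, 1, 2, 2, 2, 3, 3, 3, 4, 4, 4, 5, 5, 5, 6, 6, 6, 6]
  h := [0, 0, 1, 1, 60, 60, 60, 1, 0, 60, 0, 0, 60, 0, 0, 60, 0, 0, 60, 0, 0, 60, 0, 0, 60, 1, 0, 60, 60]
  sl := []
  r := [false, false, false, false, false, false, false, false, false, false, false, false, false, false, false, false, false, false, false, false, false, false, false, false, false, false, false, false, false]
  g := [0, 0, 0, 0, 0, 0, 0, 0, 0, 0, 0, 0, 0, 0, 0, 0, 0, 0, 0, 0, 0, 0, 0, 0, 0, 0, 0, 0, 0]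
  par := [(26, lB'), (0, lA), (1, lA), (2, lB), (3, lB), (4, lA), (5, lB'), (10, lB'), (1, lB'), (10, lB), (8, lA'), (8, lA), (13, lB'), (11, lA), (11, lB'), (12, lB'), (14, lA'), (14, lA), (16, lB), (17, lA), (17, lB'), (19, lB'), (20, lA'), (20, lA), (25, lB), (0, lA'), (23, lA), (2, lB'), (4, lB)]
  rk := [7, 8, 9, 10, 11, 12, 13, 2, 0, 2, 1, 1, 3, 2, 2, 4, 3, 3, 4, 4, 4, 5, 5, 5, 9, 8, 6, 10, 12]
  rt := 8
  ded := [(true, 2, lA), (true, 28, lB), (true, 27, lA'), (true, 7, lA'), (true, 13, lA), (true, 12, lA'), (true, 16, lB'), (true, 18, lB), (true, 19, lA), (true, 21, lA'), (true, 22, lB'), (true, 26, lA), (true, 25, lB'), (true, 7, lA), (true, 7, lB'), (true, 24, lB), (true, 9, lB)]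

/-- The tile of the type `4`. -/
def t4 : Tile where
  tab := [
      [some (1, 1, 0), some (0, 3, (-1)), some (0, 1, 0), none],
      [some (1, 2, 0), some (1, 0, 0), none, some (2, 0, 0)],
      [some (0, 3, (-1)), some (1, 1, 0), some (1, 3, 0), some (0, 5, (-2))],
      [some (2, 0, 1), some (2, 2, 1), some (1, 4, 0), some (1, 2, 0)],
      [some (1, 5, 0), none, some (0, 6, (-1)), some (1, 3, 0)],
      [none, some (1, 4, 0), some (2, 2, 2), some (1, 6, 0)],
      [none, none, some (1, 5, 0), some (2, 4, 1)]]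
  f := [0, 1, 0, 1, 0, 1, 1]
  h := [0, 0, 2, 2, 60, 60, 60]
  sl := [0, 0, 1, 1, 1, 1, 1]
  r := [false, false, false, false, false, false, false]
  g := [0, 0, 0, 0, 0, 0, 0]
  par := [(1, lB'), (0, lA), (1, lA), (2, lB), (3, lB), (4, lA), (5, lB')]
  rk := [0, 1, 2, 3, 4, 5, 6]
  rt := 0
  ded := [(true, 0, lA'), (true, 2, lA), (true, 2, lB'), (true, 4, lB)]

/-- The data. -/
def data : TileData where
  l := 4
  m := 2
  n := 5
  T := [t0, t1, t2, t3, t4]
  len := [4, 2, 2, 9, 2]
  a := 1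
  x0 := 7
  r1 := 0
  e1 := 2
  r2 := 4
  d2 := 0
  e2 := 0
  p0 := [lA, lB', lA, lB']
  p1 := [lA, lB']
  p2 := [lA, lB', lA, lB', lA, lB', lA', lB, lA', lB, lA']
  p3 := [lB, lA']
  q0 := [lA', lA', lB, lA']
  q1 := [lB, lA']
  q2 := [lB, lA', lB, lA', lB, lA', lB, lA', lB', lA, lB']
  qa := [lA, lB']
  q3 := [lA, lB']
  c := [lA, lA]
  α := 1
  K0 := 3

/-- The data satisfy the conditions. -/
theorem ok : data.check = true := by decide +kernel

end Pool.Agent.SLE.T425
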