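import Pool.Agent.SLE.Tile

/-!
# Tiles for `(4, 3, 3)`

Generated data; everything is checked by the kernel.
-/

namespace Pool.Agent.SLE.T433

/-- The tile of the type `0`. -/
def t0 : Tile where
  tab := [
      [some (1, 1, 0), some (1, 2, 0), some (1, 78, 0), some (1, 79, (-1))],
      [some (1, 3, 0), some (1, 0, 0), some (1, 4, 0), some (1, 5, 0)],
      [some (1, 0, 0), some (1, 3, 0), some (1, 6, 0), some (1, 7, 0)],
      [some (1, 2, 0), some (1, 1, 0), some (1, 8, 0), some (1, 9, 0)],
      [some (1, 10, 0), none, some (1, 5, 1), some (1, 1, 0)],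
      [none, some (1, 11, 0), some (1, 1, 0), some (1, 4, (-1))],
      [some (1, 12, 0), none, some (1, 7, 1), some (1, 2, 0)],
      [none, some (1, 77, (-1)), some (1, 2, 0), some (1, 6, (-1))],
      [some (1, 13, 1), some (1, 14, 0), some (1, 9, 1), some (1, 3, 0)],
      [none, some (1, 15, 0), some (1, 3, 0), some (1, 8, (-1))],
      [none, some (1, 4, 0), some (1, 80, 0), some (1, 81, 0)],
      [some (1, 5, 0), none, some (1, 16, 0), some (1, 13, 0)],
      [none, some (1, 6, 0), some (1, 15, 1), some (1, 17, 0)],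
      [some (1, 18, 0), some (1, 8, (-1)), some (1, 11, 0), some (1, 16, (-1))],
      [some (1, 8, 0), some (1, 18, 1), none, none],
      [some (1, 9, 0), none, some (1, 17, 0), some (1, 12, (-1))],
      [none, some (1, 19, 0), some (1, 13, 1), some (1, 11, 0)],
      [none, none, some (1, 12, 0), some (1, 15, 0)],
      [some (1, 14, (-1)), some (1, 13, 0), some (1, 20, 0), some (1, 21, (-1))],
      [some (1, 16, 0), none, some (1, 22, 0), some (1, 23, 0)],
      [some (1, 23, 0), some (1, 24, 0), some (1, 21, 0), some (1, 18, 0)],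
      [some (1, 25, 0), none, some (1, 18, 1), some (1, 20, 0)],
      [none, some (1, 26, 0), some (1, 23, 1), some (1, 19, 0)],
      [some (1, 27, 0), some (1, 20, 0), some (1, 19, 0), some (1, 22, (-1))],
      [some (1, 20, 0), some (1, 27, 0), some (1, 28, 0), some (1, 29, 0)],
      [none, some (1, 21, 0), some (1, 30, 1), some (1, 31, 0)],
      [some (1, 22, 0), none, some (1, 32, 0), some (1, 33, 0)],
      [some (1, 24, 0), some (1, 23, 0), some (1, 34, 0), some (1, 35, 0)],
      [some (1, 36, 1), none, some (1, 29, 1), some (1, 24, 0)],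
      [none, some (1, 30, 0), some (1, 24, 0), some (1, 28, (-1))],
      [some (1, 29, 0), none, some (1, 31, 0), some (1, 25, (-1))],
      [none, none, some (1, 25, 0), some (1, 30, 0)],
      [none, none, some (1, 33, 1), some (1, 26, 0)],
      [none, some (1, 34, 0), some (1, 26, 0), some (1, 32, (-1))],
      [some (1, 33, 0), none, some (1, 35, 1), some (1, 27, 0)],
      [some (1, 37, 0), some (1, 38, 0), some (1, 27, 0), some (1, 34, (-1))],
      [none, some (1, 28, (-1)), some (1, 38, 0), some (1, 39, (-1))],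
      [some (1, 40, 0), some (1, 35, 0), none, none],
      [some (1, 35, 0), some (1, 40, 0), some (1, 39, 0), some (1, 36, 0)],
      [some (2, 7, 1), none, some (1, 36, 1), some (1, 38, 0)],
      [some (1, 38, 0), some (1, 37, 0), some (1, 41, 0), some (2, 0, 0)],
      [none, some (1, 42, 0), some (2, 0, 1), some (1, 40, 0)],
      [some (1, 41, 0), none, some (1, 43, 0), some (2, 10, 0)],
      [none, none, some (2, 10, 1), some (1, 42, 0)],
      [some (1, 46, 0), some (1, 45, 0), none, none],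
      [some (1, 44, 0), some (1, 48, 0), none, none],
      [some (1, 48, 0), some (1, 44, 0), some (1, 47, 0), some (1, 49, 0)],
      [none, none, some (1, 49, 1), some (1, 46, 0)],
      [some (1, 45, 0), some (1, 46, 0), some (1, 51, 0), some (1, 50, 0)],
      [none, some (1, 52, 0), some (1, 46, 0), some (1, 47, (-1))],
      [none, none, some (1, 48, 0), some (1, 51, (-1))],
      [some (1, 53, 1), some (1, 55, 0), some (1, 50, 1), some (1, 48, 0)],
      [some (1, 49, 0), none, some (1, 54, 0), some (1, 53, 0)],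
      [some (1, 56, 0), some (1, 51, (-1)), some (1, 52, 0), some (1, 54, (-1))],
      [none, some (1, 57, 0), some (1, 53, 1), some (1, 52, 0)],
      [some (1, 51, 0), some (1, 56, 1), none, none],
      [some (1, 55, (-1)), some (1, 53, 0), some (1, 64, 0), some (1, 58, (-1))],
      [some (1, 54, 0), none, some (1, 59, 0), some (1, 65, 0)],
      [some (1, 60, 0), none, some (1, 56, 1), some (1, 64, 0)],
      [none, some (1, 61, 0), some (1, 65, 1), some (1, 57, 0)],
      [none, some (1, 58, 0), some (1, 66, 1), some (1, 62, 0)],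
      [some (1, 59, 0), none, some (1, 63, 0), some (1, 67, 0)],
      [none, none, some (1, 60, 0), some (1, 66, 0)],
      [none, none, some (1, 67, 1), some (1, 61, 0)],
      [some (1, 65, 0), some (1, 68, 0), some (1, 58, 0), some (1, 56, 0)],
      [some (1, 69, 0), some (1, 64, 0), some (1, 57, 0), some (1, 59, (-1))],
      [some (1, 70, 0), none, some (1, 62, 0), some (1, 60, (-1))],
      [none, some (1, 71, 0), some (1, 61, 0), some (1, 63, (-1))],
      [some (1, 64, 0), some (1, 69, 0), some (1, 72, 0), some (1, 70, 0)],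
      [some (1, 68, 0), some (1, 65, 0), some (1, 71, 0), some (1, 73, 0)],
      [none, some (1, 66, 0), some (1, 68, 0), some (1, 72, (-1))],
      [some (1, 67, 0), none, some (1, 73, 1), some (1, 69, 0)],
      [some (1, 74, 1), none, some (1, 70, 1), some (1, 68, 0)],
      [some (1, 76, 0), some (1, 75, 0), some (1, 69, 0), some (1, 71, (-1))],
      [none, some (1, 72, (-1)), some (1, 75, 0), some (1, 77, (-1))],
      [some (1, 73, 0), some (1, 78, 0), some (1, 77, 0), some (1, 74, 0)],
      [some (1, 78, 0), some (1, 73, 0), none, none],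
      [some (1, 7, 1), none, some (1, 74, 1), some (1, 75, 0)],
      [some (1, 75, 0), some (1, 76, 0), some (1, 79, 0), some (1, 0, 0)],
      [none, some (1, 80, 0), some (1, 0, 1), some (1, 78, 0)],
      [some (1, 79, 0), none, some (1, 81, 1), some (1, 10, 0)],
      [none, none, some (1, 10, 0), some (1, 80, (-1))]]
  f := [11, 12, 12, 13, 12, 13, 11, 11, 14, 13, 11, 14, 11, 15, 15, 12, 15, 11, 16, 16, 17, 16, 16, 17, 18, 16, 16, 18, 19, 18, 17, 16, 16, 17, 18, 19, 20, 20, 20, 21, 21, 21, 21, 21, 0, 1, 1, 1, 2, 2, 2, 3, 3, 4, 4, 4, 5, 5, 5, 5, 5, 5, 5, 5, 6, 6, 6, 6, 7, 7, 7, 7, 8, 8, 9, 9, 9, 10, 10, 10, 10, 10]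
  h := [0, 0, 0, 0, 60, 0, 60, 1, 0, 60, 60, 0, 60, 0, 0, 60, 0, 60, 0, 0, 0, 60, 60, 0, 0, 60, 60, 0, 0, 60, 60, 60, 60, 60, 60, 0, 1, 0, 0, 0, 0, 60, 60, 60, 0, 0, 0, 60, 0, 0, 60, 0, 0, 0, 0, 0, 0, 0, 60, 60, 60, 60, 60, 60, 0, 0, 60, 60, 0, 0, 60, 60, 0, 0, 1, 0, 0, 0, 0, 60, 60, 60]
  sl := []
  r := [false, false, true, true, false, false, false, true, true, false, false, false, false, true, true, false, false, false, true, false, true, false, false, false, true, false, false, false, true, false, false, false, false, false, false, false, true, false, false, true, false, false, false, false, false, true, false, false, true, false, false, true, false, true, false, true, true, false, false, false, false, false, false, false, true, false, false, false, true, false, false, false, true, false, true, false, false, true, false, false, false, false]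
  g := [0, 0, 2, 2, 0, 0, 0, 2, 2, 0, 0, 0, 0, 3, 2, 0, 0, 0, 3, 0, 3, 0, 0, 0, 3, 0, 0, 0, 3, 0, 0, 0, 0, 0, 0, 0, 4, 0, 0, 3, 0, 0, 0, 0, 0, 0, 0, 0, 0, 0, 0, 0, 0, 1, 0, 0, 1, 0, 0, 0, 0, 0, 0, 0, 1, 0, 0, 0, 1, 0, 0, 0, 1, 0, 2, 0, 0, 1, 0, 0, 0, 0]
  par := [(78, lB'), (0, lA), (0, lA'), (1, lA), (1, lB), (1, lB'), (2, lB), (2, lB'), (3, lB), (3, lB'), (4, lA), (5, lA'), (6, lA), (11, lB'), (8, lA'), (9, lA'), (11, lB), (12, lB'), (13, lA), (16, lA'), (23, lA'), (20, lB), (19, lB), (19, lB'), (27, lA), (21, lA), (22, lA'), (23, lA), (24, lB), (24, lB'), (29, lA'), (25, lB'), (26, lB), (34, lA), (27, lB), (27, lB'), (38, lB'), (35, lA), (35, lA'), (38, lB), (38, lA'), (40, lB), (41, lA'), (42, lB), (0, lA), (44, lA'), (44, lA), (46, lB), (46, lA), (46, lB'), (48, lB'), (48, lB), (49, lA'), (52, lB'), (52, lB), (51, lA'), (53, lA), (54, lA'), (64, lB), (57, lB), (58, lA), (59, lA'), (60, lB'), (61, lB), (65, lA'), (57, lB'), (70, lA'), (71, lA), (69, lA), (65, lA), (68, lB'), (69, lB), (68,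 lB), (69, lB'), (75, lB'), (73, lA'), (73, lA), (75, lB), (75, lA'), (78, lB), (10, lB), (10, lB')]
  rk := [11, 12, 12, 13, 13, 13, 13, 13, 14, 14, 14, 14, 14, 15, 15, 15, 15, 15, 16, 16, 18, 19, 17, 17, 19, 20, 18, 18, 20, 20, 21, 21, 19, 20, 19, 19, 21, 20, 20, 21, 21, 22, 23, 24, 0, 1, 1, 2, 2, 2, 3, 3, 3, 4, 4, 4, 5, 5, 8, 6, 9, 7, 10, 8, 7, 6, 10, 9, 8, 7, 9, 8, 9, 8, 10, 9, 9, 10, 10, 11, 15, 15]
  rt := 44
  ded := [(true, 3, lA), (true, 7, lA'), (true, 79, lB), (true, 79, lA'), (true, 4, lB), (true, 13, lA'), (true, 15, lB'), (true, 6, lB), (true, 8, lB), (true, 18, lA), (true, 80, lB), (true, 16, lB), (true, 15, lB), (true, 20, lB'), (true, 21, lB), (true, 22, lB), (true, 24, lA), (true, 30, lB'), (true, 26, lB'), (true, 36, lA'), (true, 28, lB), (true, 30, lB), (true, 32, lB), (true, 34, lB), (true, 37, lA), (true, 39, lB), (true, 48, lA), (true, 47, lB), (true, 53, lA'), (true, 51, lB), (true, 56, lA), (true, 54, lB), (true, 64, lB'), (true, 58, lB), (true, 59, lB), (true, 61, lB'),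 (true, 63, lB), (true, 68, lA), (true, 74, lA'), (true, 72, lB), (true, 71, lB), (true, 76, lA), (true, 77, lB), (true, 66, lB'), (true, 66, lB)]

/-- The tile of the type `1`. -/
def t1 : Tile where
  tab := [
      [some (1, 1, 0), some (1, 2, 0), some (0, 40, 0), some (0, 41, (-1))],
      [some (1, 3, 0), some (1, 0, 0), some (1, 4, 0), some (1, 5, 0)],
      [some (1, 0, 0), some (1, 3, 0), some (1, 6, 0), some (1, 7, 0)],
      [some (1, 2, 0), some (1, 1, 0), some (1, 8, 0), some (1, 9, 0)],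
      [some (1, 10, 0), none, some (1, 5, 1), some (1, 1, 0)],
      [none, some (1, 11, 0), some (1, 1, 0), some (1, 4, (-1))],
      [some (1, 12, 0), none, some (1, 7, 1), some (1, 2, 0)],
      [none, some (0, 39, (-1)), some (1, 2, 0), some (1, 6, (-1))],
      [some (1, 13, 1), some (1, 14, 0), some (1, 9, 1), some (1, 3, 0)],
      [none, some (1, 15, 0), some (1, 3, 0), some (1, 8, (-1))],
      [none, some (1, 4, 0), some (0, 42, 0), some (0, 43, (-1))],
      [some (1, 5, 0), none, some (1, 16, 0), some (1, 13, 0)],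
      [none, some (1, 6, 0), some (1, 15, 1), some (1, 17, 0)],
      [some (1, 18, 0), some (1, 8, (-1)), some (1, 11, 0), some (1, 16, (-1))],
      [some (1, 8, 0), some (1, 18, 1), none, none],
      [some (1, 9, 0), none, some (1, 17, 0), some (1, 12, (-1))],
      [none, some (1, 19, 0), some (1, 13, 1), some (1, 11, 0)],
      [none, none, some (1, 12, 0), some (1, 15, 0)],
      [some (1, 14, (-1)), some (1, 13, 0), some (1, 20, 0), some (1, 21, (-1))],
      [some (1, 16, 0), none, some (1, 22, 0), some (1, 23, 0)],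
      [some (1, 23, 0), some (1, 24, 0), some (1, 21, 0), some (1, 18, 0)],
      [some (1, 25, 0), none, some (1, 18, 1), some (1, 20, 0)],
      [none, some (1, 26, 0), some (1, 23, 1), some (1, 19, 0)],
      [some (1, 27, 0), some (1, 20, 0), some (1, 19, 0), some (1, 22, (-1))],
      [some (1, 20, 0), some (1, 27, 0), some (1, 28, 0), some (1, 29, 0)],
      [none, some (1, 21, 0), some (1, 30, 1), some (1, 31, 0)],
      [some (1, 22, 0), none, some (1, 32, 0), some (1, 33, 0)],
      [some (1, 24, 0), some (1, 23, 0), some (1, 34, 0), some (1, 35, 0)],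
      [some (1, 36, 1), none, some (1, 29, 1), some (1, 24, 0)],
      [none, some (1, 30, 0), some (1, 24, 0), some (1, 28, (-1))],
      [some (1, 29, 0), none, some (1, 31, 0), some (1, 25, (-1))],
      [none, none, some (1, 25, 0), some (1, 30, 0)],
      [none, none, some (1, 33, 1), some (1, 26, 0)],
      [none, some (1, 34, 0), some (1, 26, 0), some (1, 32, (-1))],
      [some (1, 33, 0), none, some (1, 35, 1), some (1, 27, 0)],
      [some (1, 37, 0), some (1, 38, 0), some (1, 27, 0), some (1, 34, (-1))],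
      [none, some (1, 28, (-1)), some (1, 38, 0), some (1, 39, (-1))],
      [some (1, 40, 0), some (1, 35, 0), none, none],
      [some (1, 35, 0), some (1, 40, 0), some (1, 39, 0), some (1, 36, 0)],
      [some (2, 7, 1), none, some (1, 36, 1), some (1, 38, 0)],
      [some (1, 38, 0), some (1, 37, 0), some (1, 41, 0), some (2, 0, 0)],
      [none, some (1, 42, 0), some (2, 0, 1), some (1, 40, 0)],
      [some (1, 41, 0), none, some (1, 43, 0), some (2, 10, 0)],
      [none, none, some (2, 10, 1), some (1, 42, 0)]]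
  f := [0, 1, 1, 2, 1, 2, 0, 0, 3, 2, 0, 3, 0, 4, 4, 1, 4, 0, 5, 5, 6, 5, 5, 6, 7, 5, 5, 7, 8, 7, 6, 5, 5, 6, 7, 8, 9, 9, 9, 10, 10, 10, 10, 10]
  h := [0, 0, 0, 0, 60, 0, 60, 1, 0, 60, 60, 0, 60, 0, 0, 60, 0, 60, 0, 0, 0, 60, 60, 0, 0, 60, 60, 0, 0, 60, 60, 60, 60, 60, 60, 0, 1, 0, 0, 0, 0, 60, 60, 60]
  sl := []
  r := [false, false, true, true, false, false, false, true, true, false, false, false, false, true, true, false, false, false, true, false, true, false, false, false, true, false, false, false, true, false, false, false, false, false, false, false, true, false, false, true, false, false, false, false]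
  g := [0, 0, 4, 4, 0, 0, 0, 4, 4, 0, 0, 0, 0, 5, 4, 0, 0, 0, 5, 0, 5, 0, 0, 0, 5, 0, 0, 0, 5, 0, 0, 0, 0, 0, 0, 0, 6, 0, 0, 5, 0, 0, 0, 0]
  par := [(40, lB'), (0, lA), (0, lA'), (1, lA), (1, lB), (1, lB'), (2, lB), (2, lB'), (3, lB), (3, lB'), (4, lA), (5, lA'), (6, lA), (11, lB'), (8, lA'), (9, lA'), (11, lB), (12, lB'), (13, lA), (16, lA'), (23, lA'), (20, lB), (19, lB), (19, lB'), (27, lA), (21, lA), (22, lA'), (23, lA), (24, lB), (24, lB'), (29, lA'), (25, lB'), (26, lB), (34, lA), (27, lB), (27, lB'), (38, lB'), (35, lA), (35, lA'), (38, lB), (38, lA'), (40, lB), (41, lA'), (42, lB)]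
  rk := [0, 1, 1, 2, 2, 2, 2, 2, 3, 3, 3, 3, 3, 4, 4, 4, 4, 4, 5, 5, 7, 8, 6, 6, 8, 9, 7, 7, 9, 9, 10, 10, 8, 9, 8, 8, 10, 9, 9, 10, 10, 11, 12, 13]
  rt := 0
  ded := [(true, 3, lA), (true, 7, lA'), (false, 41, lB), (false, 42, lB'), (true, 4, lB), (true, 13, lA'), (true, 15, lB'), (true, 6, lB), (true, 8, lB), (true, 18, lA), (false, 43, lB), (true, 16, lB), (true, 15, lB), (true, 20, lB'), (true, 21, lB), (true, 22, lB), (true, 24, lA), (true, 30, lB'), (true, 26, lB'), (true, 36, lA'), (true, 28, lB), (true, 30, lB), (true, 32, lB), (true, 34, lB), (true, 37, lA), (true, 39, lB)]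

/-- The tile of the type `2`. -/
def t2 : Tile where
  tab := [
      [some (1, 1, 0), some (1, 2, 0), some (0, 40, 0), some (0, 41, (-1))],
      [some (1, 3, 0), some (1, 0, 0), some (1, 4, 0), some (1, 5, 0)],
      [some (1, 0, 0), some (1, 3, 0), some (1, 6, 0), some (1, 7, 0)],
      [some (1, 2, 0), some (1, 1, 0), some (1, 8, 0), some (1, 9, 0)],
      [some (1, 10, 0), none, some (1, 5, 1), some (1, 1, 0)],
      [none, some (1, 11, 0), some (1, 1, 0), some (1, 4, (-1))],
      [some (1, 12, 0), none, some (1, 7, 1), some (1, 2, 0)],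
      [none, some (0, 39, (-1)), some (1, 2, 0), some (1, 6, (-1))],
      [some (1, 13, 1), some (1, 14, 0), some (1, 9, 1), some (1, 3, 0)],
      [none, some (1, 15, 0), some (1, 3, 0), some (1, 8, (-1))],
      [none, some (1, 4, 0), some (0, 42, 0), some (0, 43, (-1))],
      [some (1, 5, 0), none, some (1, 16, 0), some (1, 13, 0)],
      [none, some (1, 6, 0), some (1, 15, 1), some (1, 17, 0)],
      [some (1, 18, 0), some (1, 8, (-1)), some (1, 11, 0), some (1, 16, (-1))],
      [some (1, 8, 0), some (1, 18, 1), none, none],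
      [some (1, 9, 0), none, some (1, 17, 0), some (1, 12, (-1))],
      [none, some (1, 19, 0), some (1, 13, 1), some (1, 11, 0)],
      [none, none, some (1, 12, 0), some (1, 15, 0)],
      [some (1, 14, (-1)), some (1, 13, 0), some (1, 20, 0), some (1, 21, (-1))],
      [some (1, 16, 0), none, some (1, 22, 0), some (1, 23, 0)],
      [some (1, 23, 0), some (1, 24, 0), some (1, 21, 0), some (1, 18, 0)],
      [some (1, 25, 0), none, some (1, 18, 1), some (1, 20, 0)],
      [none, some (1, 26, 0), some (1, 23, 1), some (1, 19, 0)],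
      [some (1, 27, 0), some (1, 20, 0), some (1, 19, 0), some (1, 22, (-1))],
      [some (1, 20, 0), some (1, 27, 0), some (1, 28, 0), some (1, 29, 0)],
      [none, some (1, 21, 0), some (1, 30, 1), some (1, 31, 0)],
      [some (1, 22, 0), none, some (1, 32, 0), some (1, 33, 0)],
      [some (1, 24, 0), some (1, 23, 0), some (1, 34, 0), some (1, 35, 0)],
      [some (1, 36, 1), none, some (1, 29, 1), some (1, 24, 0)],
      [none, some (1, 30, 0), some (1, 24, 0), some (1, 28, (-1))],
      [some (1, 29, 0), none, some (1, 31, 0), some (1, 25, (-1))],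
      [none, none, some (1, 25, 0), some (1, 30, 0)],
      [none, none, some (1, 33, 1), some (1, 26, 0)],
      [none, some (1, 34, 0), some (1, 26, 0), some (1, 32, (-1))],
      [some (1, 33, 0), none, some (1, 35, 1), some (1, 27, 0)],
      [some (1, 37, 0), some (1, 38, 0), some (1, 27, 0), some (1, 34, (-1))],
      [none, some (1, 28, (-1)), some (1, 38, 0), some (1, 39, (-1))],
      [some (1, 40, 0), some (1, 35, 0), none, none],
      [some (1, 35, 0), some (1, 40, 0), some (1, 39, 0), some (1, 36, 0)],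
      [some (2, 44, 1), none, some (1, 36, 1), some (1, 38, 0)],
      [some (1, 38, 0), some (1, 37, 0), some (1, 41, 0), some (2, 45, 0)],
      [none, some (1, 42, 0), some (2, 45, 1), some (1, 40, 0)],
      [some (1, 41, 0), none, some (1, 43, 0), some (2, 48, 0)],
      [none, none, some (2, 48, 1), some (1, 42, 0)]]
  f := [0, 1, 1, 2, 1, 2, 0, 0, 3, 2, 0, 3, 0, 4, 4, 1, 4, 0, 5, 5, 6, 5, 5, 6, 7, 5, 5, 7, 8, 7, 6, 5, 5, 6, 7, 8, 9, 9, 9, 10, 10, 10, 10, 10]
  h := [0, 0, 0, 0, 60, 0, 60, 1, 0, 60, 60, 0, 60, 0, 0, 60, 0, 60, 0, 0, 0, 60, 60, 0, 0, 60, 60, 0, 0, 60, 60, 60, 60, 60, 60, 0, 1, 0, 0, 0, 0, 60, 60, 60]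
  sl := []
  r := [false, false, false, false, false, false, false, true, false, false, false, false, false, false, false, false, false, false, false, false, false, false, false, false, false, false, false, false, false, false, false, false, false, false, false, false, false, false, false, false, false, false, false, false]
  g := [0, 0, 0, 0, 0, 0, 0, 4, 0, 0, 0, 0, 0, 0, 0, 0, 0, 0, 0, 0, 0, 0, 0, 0, 0, 0, 0, 0, 0, 0, 0, 0, 0, 0, 0, 0, 0, 0, 0, 0, 0, 0, 0, 0]
  par := [(40, lB'), (0, lA), (0, lA'), (1, lA), (1, lB), (1, lB'), (2, lB), (2, lB'), (3, lB), (3, lB'), (4, lA), (5, lA'), (6, lA), (11, lB'), (8, lA'), (9, lA'), (11, lB), (12, lB'), (13, lA), (16, lA'), (23, lA'), (20, lB), (19, lB), (19, lB'), (27, lA), (21, lA), (22, lA'), (23, lA), (24, lB), (24, lB'), (29, lA'), (25, lB'), (26, lB), (34, lA), (27, lB), (27, lB'), (38, lB'), (35, lA), (35, lA'), (38, lB), (38, lA'), (40, lB), (41, lA'), (42, lB)]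
  rk := [0, 1, 1, 2, 2, 2, 2, 2, 3, 3, 3, 3, 3, 4, 4, 4, 4, 4, 5, 5, 7, 8, 6, 6, 8, 9, 7, 7, 9, 9, 10, 10, 8, 9, 8, 8, 10, 9, 9, 10, 10, 11, 12, 13]
  rt := 0
  ded := [(true, 3, lA), (true, 7, lA'), (false, 41, lB), (false, 42, lB'), (true, 4, lB), (true, 13, lA'), (true, 15, lB'), (true, 6, lB), (true, 8, lB), (true, 18, lA), (false, 43, lB), (true, 16, lB), (true, 15, lB), (true, 20, lB'), (true, 21, lB), (true, 22, lB), (true, 24, lA), (true, 30, lB'), (true, 26, lB'), (true, 36, lA'), (true, 28, lB), (true, 30, lB), (true, 32, lB), (true, 34, lB), (true, 37, lA), (true, 39, lB)]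

/-- The tile of the type `3`. -/
def t3 : Tile where
  tab := [
      [some (1, 94, 0), some (1, 95, 0), some (1, 1, 0), some (1, 2, 0)],
      [some (1, 97, 0), none, some (1, 2, 1), some (1, 0, 0)],
      [some (1, 3, 0), some (1, 4, 0), some (1, 0, 0), some (1, 1, (-1))],
      [some (1, 5, 0), some (1, 2, 0), none, none],
      [some (1, 2, 0), some (1, 5, 0), some (1, 6, 0), some (1, 7, 0)],
      [some (1, 4, 0), some (1, 3, 0), some (1, 8, 0), some (1, 9, 0)],
      [some (1, 10, 0), none, some (1, 7, 1), some (1, 4, 0)],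
      [none, some (1, 11, 0), some (1, 4, 0), some (1, 6, (-1))],
      [none, some (1, 12, 0), some (1, 9, 1), some (1, 5, 0)],
      [some (1, 13, 0), some (1, 14, 0), some (1, 5, 0), some (1, 8, (-1))],
      [none, some (1, 6, 0), some (1, 14, 1), some (1, 15, 0)],
      [some (1, 7, 0), none, some (1, 96, 0), some (1, 94, (-1))],
      [some (1, 8, 0), none, some (1, 16, 0), some (1, 17, 0)],
      [some (1, 18, 0), some (1, 9, 0), some (1, 19, 0), some (1, 20, 0)],
      [some (1, 9, 0), some (1, 18, 0), some (1, 15, 0), some (1, 10, (-1))],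
      [some (1, 21, 0), none, some (1, 10, 0), some (1, 14, 0)],
      [none, none, some (1, 17, 1), some (1, 12, 0)],
      [none, some (1, 19, 0), some (1, 12, 0), some (1, 16, (-1))],
      [some (1, 14, 0), some (1, 13, 0), some (1, 22, 0), some (1, 23, 0)],
      [some (1, 17, 0), none, some (1, 20, 1), some (1, 13, 0)],
      [none, some (1, 24, 0), some (1, 13, 0), some (1, 19, (-1))],
      [none, some (1, 15, 0), some (1, 25, 1), some (1, 26, 0)],
      [some (1, 27, 1), some (1, 28, 0), some (1, 23, 1), some (1, 18, 0)],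
      [none, some (1, 25, 0), some (1, 18, 0), some (1, 22, (-1))],
      [some (1, 20, 0), none, some (1, 29, 0), some (1, 27, 0)],
      [some (1, 23, 0), none, some (1, 26, 0), some (1, 21, (-1))],
      [none, none, some (1, 21, 0), some (1, 25, 0)],
      [some (1, 30, 0), some (1, 22, (-1)), some (1, 24, 0), some (1, 29, (-1))],
      [some (1, 22, 0), some (1, 30, 1), none, none],
      [none, some (1, 31, 0), some (1, 27, 1), some (1, 24, 0)],
      [some (1, 28, (-1)), some (1, 27, 0), some (1, 32, 0), some (1, 33, (-1))],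
      [some (1, 29, 0), none, some (1, 34, 0), some (1, 35, 0)],
      [some (1, 35, 0), some (1, 36, 0), some (1, 33, 0), some (1, 30, 0)],
      [some (1, 37, 0), none, some (1, 30, 1), some (1, 32, 0)],
      [none, some (1, 38, 0), some (1, 35, 1), some (1, 31, 0)],
      [some (2, 0, 0), some (1, 32, 0), some (1, 31, 0), some (1, 34, (-1))],
      [some (1, 32, 0), some (2, 0, 0), some (2, 11, 1), some (1, 39, 0)],
      [none, some (1, 33, 0), some (1, 40, 1), some (1, 41, 0)],
      [some (1, 34, 0), none, some (1, 42, 0), some (1, 43, 0)],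
      [none, some (1, 40, 0), some (1, 36, 0), some (2, 11, 0)],
      [some (1, 39, 0), none, some (1, 41, 0), some (1, 37, (-1))],
      [none, none, some (1, 37, 0), some (1, 40, 0)],
      [none, none, some (1, 43, 1), some (1, 38, 0)],
      [none, some (2, 1, 0), some (1, 38, 0), some (1, 42, (-1))],
      [none, some (0, 39, (-1)), some (1, 50, 0), some (1, 46, (-1))],
      [some (1, 51, 0), some (1, 50, 0), some (0, 40, 0), some (0, 41, (-1))],
      [some (1, 47, 0), none, some (1, 44, 1), some (1, 50, 0)],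
      [none, some (1, 46, 0), some (1, 53, 1), some (1, 49, 0)],
      [none, some (1, 52, 0), some (0, 42, 0), some (0, 43, (-1))],
      [none, none, some (1, 47, 0), some (1, 53, 0)],
      [some (1, 45, 0), some (1, 54, 0), some (1, 46, 0), some (1, 44, 0)],
      [some (1, 54, 0), some (1, 45, 0), some (1, 52, 0), some (1, 55, 0)],
      [some (1, 48, 0), none, some (1, 55, 1), some (1, 51, 0)],
      [some (1, 56, 0), none, some (1, 49, 0), some (1, 47, (-1))],
      [some (1, 50, 0), some (1, 51, 0), some (1, 57, 0), some (1, 56, 0)],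
      [none, some (1, 58, 0), some (1, 51, 0), some (1, 52, (-1))],
      [none, some (1, 53, 0), some (1, 54, 0), some (1, 57, (-1))],
      [some (1, 59, 1), some (1, 61, 0), some (1, 56, 1), some (1, 54, 0)],
      [some (1, 55, 0), none, some (1, 60, 0), some (1, 59, 0)],
      [some (1, 62, 0), some (1, 57, (-1)), some (1, 58, 0), some (1, 60, (-1))],
      [none, some (1, 63, 0), some (1, 59, 1), some (1, 58, 0)],
      [some (1, 57, 0), some (1, 62, 1), none, none],
      [some (1, 61, (-1)), some (1, 59, 0), some (1, 70, 0), some (1, 64, (-1))],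
      [some (1, 60, 0), none, some (1, 65, 0), some (1, 71, 0)],
      [some (1, 66, 0), none, some (1, 62, 1), some (1, 70, 0)],
      [none, some (1, 67, 0), some (1, 71, 1), some (1, 63, 0)],
      [none, some (1, 64, 0), some (1, 72, 1), some (1, 68, 0)],
      [some (1, 65, 0), none, some (1, 69, 0), some (1, 73, 0)],
      [none, none, some (1, 66, 0), some (1, 72, 0)],
      [none, none, some (1, 73, 1), some (1, 67, 0)],
      [some (1, 71, 0), some (1, 74, 0), some (1, 64, 0), some (1, 62, 0)],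
      [some (1, 75, 0), some (1, 70, 0), some (1, 63, 0), some (1, 65, (-1))],
      [some (1, 76, 0), none, some (1, 68, 0), some (1, 66, (-1))],
      [none, some (1, 77, 0), some (1, 67, 0), some (1, 69, (-1))],
      [some (1, 70, 0), some (1, 75, 0), some (1, 78, 0), some (1, 76, 0)],
      [some (1, 74, 0), some (1, 71, 0), some (1, 77, 0), some (1, 79, 0)],
      [none, some (1, 72, 0), some (1, 74, 0), some (1, 78, (-1))],
      [some (1, 73, 0), none, some (1, 79, 1), some (1, 75, 0)],
      [some (1, 80, 1), some (1, 82, 0), some (1, 76, 1), some (1, 74, 0)],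
      [none, some (1, 81, 0), some (1, 75, 0), some (1, 77, (-1))],
      [some (1, 83, 0), some (1, 78, (-1)), some (1, 81, 0), some (1, 84, (-1))],
      [some (1, 79, 0), none, some (1, 84, 0), some (1, 80, 0)],
      [some (1, 78, 0), some (1, 83, 1), none, none],
      [some (1, 82, (-1)), some (1, 80, 0), some (1, 88, 0), some (1, 85, (-1))],
      [none, some (1, 89, 0), some (1, 80, 1), some (1, 81, 0)],
      [some (1, 86, 0), none, some (1, 83, 1), some (1, 88, 0)],
      [none, some (1, 85, 0), some (1, 91, 1), some (1, 87, 0)],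
      [none, none, some (1, 86, 0), some (1, 91, 0)],
      [some (1, 95, 0), some (1, 94, 0), some (1, 85, 0), some (1, 83, 0)],
      [some (1, 84, 0), none, some (1, 90, 0), some (1, 95, 0)],
      [none, some (1, 92, 0), some (1, 95, 1), some (1, 89, 0)],
      [some (1, 96, 0), none, some (1, 87, 0), some (1, 86, (-1))],
      [some (1, 90, 0), none, some (1, 93, 1), some (1, 97, 0)],
      [none, none, some (1, 97, 0), some (1, 92, (-1))],
      [some (1, 88, 0), some (1, 0, 0), some (1, 11, 1), some (1, 96, 0)],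
      [some (1, 0, 0), some (1, 88, 0), some (1, 89, 0), some (1, 90, (-1))],
      [none, some (1, 91, 0), some (1, 94, 0), some (1, 11, 0)],
      [none, some (1, 1, 0), some (1, 92, 0), some (1, 93, 0)]]
  f := [13, 13, 14, 15, 15, 16, 15, 14, 16, 17, 16, 13, 16, 18, 17, 16, 16, 17, 18, 18, 19, 16, 19, 18, 20, 17, 16, 20, 20, 21, 21, 22, 22, 21, 22, 23, 23, 21, 22, 23, 22, 21, 22, 23, 0, 0, 0, 0, 0, 0, 1, 1, 1, 1, 2, 2, 2, 3, 3, 4, 4, 4, 5, 5, 5, 5, 5, 5, 5, 5, 6, 6, 6, 6, 7, 7, 7, 7, 8, 8, 9, 9, 9, 10, 10, 10, 10, 10, 11, 11, 11, 11, 11, 11, 12, 12, 12, 12]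
  h := [0, 60, 0, 0, 0, 0, 1, 2, 60, 0, 1, 2, 60, 0, 2, 60, 60, 60, 2, 60, 0, 60, 2, 60, 0, 60, 60, 3, 2, 0, 3, 0, 3, 60, 60, 0, 3, 60, 60, 60, 60, 60, 60, 60, 1, 0, 60, 60, 60, 60, 0, 0, 60, 60, 0, 0, 60, 0, 0, 0, 0, 0, 0, 0, 60, 60, 60, 60, 60, 60, 0, 0, 60, 60, 0, 0, 60, 60, 0, 0, 1, 0, 0, 1, 0, 60, 60, 60, 1, 0, 60, 60, 60, 60, 1, 0, 60, 60]
  sl := []
  r := [false, false, false, false, false, false, false, false, false, false, false, false, false, false, false, false, false, false, false, false, false, false, false, false, false, false, false, false, false, false, false, false, false, false, false, false, false, false, false, false, false, false, false, false, false, false, false, false, false, false, false, false, false, false, false, false, false, false, false, false, false, false, false, false, false, false, false, false, false, false, false, false, false, false, false, false, false, false, false, false, false, false, false, false, false, false, false, false, false, false, false, false,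 false, false, false, false, false, false]
  g := [0, 0, 0, 0, 0, 0, 0, 0, 0, 0, 0, 0, 0, 0, 0, 0, 0, 0, 0, 0, 0, 0, 0, 0, 0, 0, 0, 0, 0, 0, 0, 0, 0, 0, 0, 0, 0, 0, 0, 0, 0, 0, 0, 0, 0, 0, 0, 0, 0, 0, 0, 0, 0, 0, 0, 0, 0, 0, 0, 0, 0, 0, 0, 0, 0, 0, 0, 0, 0, 0, 0, 0, 0, 0, 0, 0, 0, 0, 0, 0, 0, 0, 0, 0, 0, 0, 0, 0, 0, 0, 0, 0, 0, 0, 0, 0, 0, 0]
  par := [(95, lA), (0, lB), (0, lB'), (2, lA), (2, lA'), (4, lA'), (4, lB), (4, lB'), (5, lB), (5, lB'), (6, lA), (7, lA'), (8, lA'), (9, lA), (9, lA'), (14, lB), (12, lB), (19, lA), (13, lA), (13, lB), (13, lB'), (15, lA), (18, lB), (18, lB'), (20, lA'), (23, lA'), (21, lB'), (24, lB'), (22, lA'), (24, lB), (27, lA), (29, lA'), (35, lA'), (32, lB), (31, lB), (31, lB'), (32, lA'), (33, lA), (34, lA'), (36, lB'), (39, lA'), (37, lB'), (38, lB), (38, lB'), (50, lB'), (40, lB'), (50, lB), (46, lA), (52, lA), (47, lB'), (45, lA'), (45, lA), (51, lB), (56, lA'), (51, lA), (51, lB'), (54, lB'), (54, lB), (55, lA'), (58, lB'), (58, lB), (57, lA'), (59, lA), (60,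 lA'), (70, lB), (63, lB), (64, lA), (65, lA'), (66, lB'), (67, lB), (71, lA'), (63, lB'), (76, lA'), (77, lA), (75, lA), (71, lA), (74, lB'), (75, lB), (74, lB), (75, lB'), (81, lB'), (79, lA'), (78, lA'), (80, lA), (81, lB), (88, lB), (85, lA), (91, lB), (95, lA'), (84, lA'), (89, lB), (96, lA'), (90, lA'), (97, lB'), (0, lA), (89, lB'), (11, lB), (1, lA)]
  rk := [13, 14, 14, 15, 15, 16, 16, 16, 17, 17, 17, 17, 18, 18, 18, 19, 19, 20, 19, 19, 19, 20, 20, 20, 20, 21, 21, 21, 21, 21, 22, 22, 24, 25, 23, 23, 25, 26, 24, 26, 27, 27, 25, 25, 2, 0, 2, 3, 3, 4, 1, 1, 2, 4, 2, 2, 3, 3, 3, 4, 4, 4, 5, 5, 8, 6, 9, 7, 10, 8, 7, 6, 10, 9, 8, 7, 9, 8, 9, 8, 10, 9, 10, 11, 10, 14, 15, 20, 13, 11, 12, 19, 13, 16, 14, 12, 18, 15]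
  rt := 45
  ded := [(true, 94, lA), (true, 1, lB), (true, 11, lB'), (true, 3, lA), (true, 14, lB'), (true, 6, lB), (true, 8, lB), (true, 12, lB'), (true, 18, lA), (true, 15, lB), (true, 96, lB), (true, 16, lB), (true, 19, lB), (true, 27, lA'), (true, 25, lB'), (true, 22, lB), (true, 25, lB), (true, 30, lA), (true, 29, lB), (true, 32, lB'), (true, 33, lB), (true, 34, lB), (true, 40, lB'), (true, 40, lB), (true, 42, lB), (true, 44, lA'), (true, 46, lB), (true, 54, lA), (false, 41, lB), (false, 42, lB'), (true, 53, lB'), (true, 53, lB), (false, 43, lB), (true, 52, lB), (true, 59, lA'), (true, 57, lB), (true, 62, lA), (true, 60, lB), (true, 70, lB'), (true, 64, lB), (true, 65, lB), (true, 67, lB'), (true, 69, lB), (true, 74, lA), (true, 80, lA'), (true, 78, lB), (true, 77, lB), (true, 83, lA), (true, 84, lB), (true, 88, lB'), (true, 85, lB), (true, 91, lB'), (true, 87, lB), (true, 90, lB), (true, 92, lB'), (true, 72, lB'), (true, 72, lB), (true, 92, lB)]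

/-- The tile of the type `4`. -/
def t4 : Tile where
  tab := [
      [some (0, 36, 0), some (0, 35, 0), some (1, 1, 0), some (1, 2, 0)],
      [some (0, 43, 0), none, some (1, 2, 1), some (1, 0, 0)],
      [some (1, 3, 0), some (1, 4, 0), some (1, 0, 0), some (1, 1, (-1))],
      [some (1, 5, 0), some (1, 2, 0), none, none],
      [some (1, 2, 0), some (1, 5, 0), some (1, 6, 0), some (1, 7, 0)],
      [some (1, 4, 0), some (1, 3, 0), some (1, 8, 0), some (1, 9, 0)],
      [some (1, 10, 0), none, some (1, 7, 1), some (1, 4, 0)],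
      [none, some (1, 11, 0), some (1, 4, 0), some (1, 6, (-1))],
      [none, some (1, 12, 0), some (1, 9, 1), some (1, 5, 0)],
      [some (1, 13, 0), some (1, 14, 0), some (1, 5, 0), some (1, 8, (-1))],
      [none, some (1, 6, 0), some (1, 14, 1), some (1, 15, 0)],
      [some (1, 7, 0), none, some (0, 39, 0), some (0, 36, (-1))],
      [some (1, 8, 0), none, some (1, 16, 0), some (1, 17, 0)],
      [some (1, 18, 0), some (1, 9, 0), some (1, 19, 0), some (1, 20, 0)],
      [some (1, 9, 0), some (1, 18, 0), some (1, 15, 0), some (1, 10, (-1))],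
      [some (1, 21, 0), none, some (1, 10, 0), some (1, 14, 0)],
      [none, none, some (1, 17, 1), some (1, 12, 0)],
      [none, some (1, 19, 0), some (1, 12, 0), some (1, 16, (-1))],
      [some (1, 14, 0), some (1, 13, 0), some (1, 22, 0), some (1, 23, 0)],
      [some (1, 17, 0), none, some (1, 20, 1), some (1, 13, 0)],
      [none, some (1, 24, 0), some (1, 13, 0), some (1, 19, (-1))],
      [none, some (1, 15, 0), some (1, 25, 1), some (1, 26, 0)],
      [some (1, 27, 1), some (1, 28, 0), some (1, 23, 1), some (1, 18, 0)],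
      [none, some (1, 25, 0), some (1, 18, 0), some (1, 22, (-1))],
      [some (1, 20, 0), none, some (1, 29, 0), some (1, 27, 0)],
      [some (1, 23, 0), none, some (1, 26, 0), some (1, 21, (-1))],
      [none, none, some (1, 21, 0), some (1, 25, 0)],
      [some (1, 30, 0), some (1, 22, (-1)), some (1, 24, 0), some (1, 29, (-1))],
      [some (1, 22, 0), some (1, 30, 1), none, none],
      [none, some (1, 31, 0), some (1, 27, 1), some (1, 24, 0)],
      [some (1, 28, (-1)), some (1, 27, 0), some (1, 32, 0), some (1, 33, (-1))],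
      [some (1, 29, 0), none, some (1, 34, 0), some (1, 35, 0)],
      [some (1, 35, 0), some (1, 36, 0), some (1, 33, 0), some (1, 30, 0)],
      [some (1, 37, 0), none, some (1, 30, 1), some (1, 32, 0)],
      [none, some (1, 38, 0), some (1, 35, 1), some (1, 31, 0)],
      [some (2, 0, 0), some (1, 32, 0), some (1, 31, 0), some (1, 34, (-1))],
      [some (1, 32, 0), some (2, 0, 0), some (2, 11, 1), some (1, 39, 0)],
      [none, some (1, 33, 0), some (1, 40, 1), some (1, 41, 0)],
      [some (1, 34, 0), none, some (1, 42, 0), some (1, 43, 0)],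
      [none, some (1, 40, 0), some (1, 36, 0), some (2, 11, 0)],
      [some (1, 39, 0), none, some (1, 41, 0), some (1, 37, (-1))],
      [none, none, some (1, 37, 0), some (1, 40, 0)],
      [none, none, some (1, 43, 1), some (1, 38, 0)],
      [none, some (2, 1, 0), some (1, 38, 0), some (1, 42, (-1))]]
  f := [0, 0, 1, 2, 2, 3, 2, 1, 3, 4, 3, 0, 3, 5, 4, 3, 3, 4, 5, 5, 6, 3, 6, 5, 7, 4, 3, 7, 7, 8, 8, 9, 9, 8, 9, 10, 10, 8, 9, 10, 9, 8, 9, 10]
  h := [0, 60, 0, 0, 0, 0, 3, 4, 60, 0, 3, 4, 60, 0, 4, 60, 60, 60, 4, 60, 0, 60, 4, 60, 0, 60, 60, 5, 4, 0, 5, 0, 5, 60, 60, 0, 5, 60, 60, 60, 60, 60, 60, 60]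
  sl := [0, 0, 0, 0, 0, 0, 2, 2, 0, 0, 2, 2, 0, 0, 2, 2, 0, 0, 2, 0, 0, 2, 2, 2, 0, 2, 2, 2, 2, 0, 2, 0, 2, 2, 0, 0, 2, 2, 0, 2, 2, 2, 0, 0]
  r := [false, false, false, false, false, false, false, false, false, false, false, false, false, false, false, false, false, false, false, false, false, false, false, false, false, false, false, false, false, false, false, false, false, false, false, false, false, false, false, false, false, false, false, false]
  g := [0, 0, 0, 0, 0, 0, 0, 0, 0, 0, 0, 0, 0, 0, 0, 0, 0, 0, 0, 0, 0, 0, 0, 0, 0, 0, 0, 0, 0, 0, 0, 0, 0, 0, 0, 0, 0, 0, 0, 0, 0, 0, 0, 0]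
  par := [(35, lA), (0, lB), (0, lB'), (2, lA), (2, lA'), (4, lA'), (4, lB), (4, lB'), (5, lB), (5, lB'), (6, lA), (7, lA'), (8, lA'), (9, lA), (9, lA'), (14, lB), (12, lB), (19, lA), (13, lA), (13, lB), (13, lB'), (15, lA), (18, lB), (18, lB'), (20, lA'), (23, lA'), (21, lB'), (24, lB'), (22, lA'), (24, lB), (27, lA), (29, lA'), (35, lA'), (32, lB), (31, lB), (31, lB'), (32, lA'), (33, lA), (34, lA'), (36, lB'), (39, lA'), (37, lB'), (38, lB), (38, lB')]
  rk := [0, 1, 1, 2, 2, 3, 3, 3, 4, 4, 4, 4, 5, 5, 5, 6, 6, 7, 6, 6, 6, 7, 7, 7, 7, 8, 8, 8, 8, 8, 9, 9, 11, 12, 10, 10, 12, 13, 11, 13, 14, 14, 12, 12]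
  rt := 0
  ded := [(true, 0, lA), (false, 43, lA'), (true, 1, lB), (true, 11, lB'), (true, 3, lA), (true, 14, lB'), (true, 6, lB), (true, 8, lB), (true, 12, lB'), (true, 18, lA), (true, 15, lB), (true, 11, lB), (true, 16, lB), (true, 19, lB), (true, 27, lA'), (true, 25, lB'), (true, 22, lB), (true, 25, lB), (true, 30, lA), (true, 29, lB), (true, 32, lB'), (true, 33, lB), (true, 34, lB), (true, 40, lB'), (true, 40, lB), (true, 42, lB)]

/-- The data. -/
def data : TileData where
  l := 4
  m := 3
  n := 3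
  T := [t0, t1, t2, t3, t4]
  len := [22, 11, 11, 24, 11]
  a := 2
  x0 := 44
  r1 := 0
  e1 := 11
  r2 := 7
  d2 := 0
  e2 := 0
  p0 := [lA, lB', lA', lB, lA', lB', lA, lB', lA, lA, lB', lA, lB', lA', lB, lA', lB', lA, lB', lA, lA, lB']
  p1 := [lA, lB', lA', lB, lA', lB', lA, lB', lA, lA, lB']
  p2 := [lA, lB', lA', lB, lA', lB', lA, lB', lA, lA, lB', lA, lB', lA', lB', lA, lB, lA', lB, lA, lA, lB, lA', lB, lA, lB', lA, lB, lA', lB, lA, lA, lB, lA', lB]
  p3 := [lA, lB', lA, lB, lA', lB, lA, lA, lB, lA', lB]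
  q0 := [lA', lA', lB, lA, lA, lB, lA', lB, lA, lB', lA, lB, lA', lB, lA, lA, lB, lA', lB, lA, lB', lA]
  q1 := [lB, lA', lB, lA, lA, lB, lA', lB, lA, lB', lA]
  q2 := [lB, lA', lB, lA, lA, lB, lA', lB, lA, lB', lA, lB, lA', lB, lA, lA, lB, lA', lB, lA, lB', lA', lB', lA, lB', lA, lA, lB', lA, lB', lA', lB, lA', lB', lA]
  qa := [lB', lA, lA, lB', lA, lB', lA', lB, lA', lB', lA]
  q3 := [lB', lA, lA, lB', lA, lB', lA', lB, lA', lB', lA]
  c := [lB', lA']
  α := 1
  K0 := 2

/-- The data satisfy the conditions. -/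
theorem ok : data.check = true := by decide +kernel

end Pool.Agent.SLE.T433
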