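import Pool.Agent.SLE.Tile

/-!
# Tiles for `(4, 4, 3)`

Generated data; everything is checked by the kernel.
-/

namespace Pool.Agent.SLE.T443

/-- The tile of the type `0`. -/
def t0 : Tile where
  tab := [
      [some (1, 1, 0), some (1, 2, 0), some (1, 20, 0), some (1, 21, (-1))],
      [some (1, 3, 0), some (1, 0, 0), some (1, 4, 0), some (1, 5, 0)],
      [some (1, 0, 0), some (1, 3, 0), some (1, 6, 0), some (1, 7, 0)],
      [some (1, 2, 0), some (1, 1, 0), some (1, 8, 0), some (1, 9, 0)],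
      [none, none, some (1, 5, 1), some (1, 1, 0)],
      [none, some (1, 10, 0), some (1, 1, 0), some (1, 4, (-1))],
      [none, none, some (1, 7, 1), some (1, 2, 0)],
      [none, some (1, 19, 0), some (1, 2, 0), some (1, 6, (-1))],
      [some (2, 7, 1), none, some (1, 9, 1), some (1, 3, 0)],
      [none, none, some (1, 3, 0), some (1, 8, (-1))],
      [some (1, 5, 0), none, some (1, 11, 0), some (2, 0, 0)],
      [none, none, some (2, 0, 1), some (1, 10, 0)],
      [some (1, 14, 0), some (1, 13, 0), none, none],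
      [some (1, 12, 0), some (1, 16, 0), none, none],
      [some (1, 16, 0), some (1, 12, 0), some (1, 15, 0), some (1, 17, 0)],
      [none, none, some (1, 17, 1), some (1, 14, 0)],
      [some (1, 13, 0), some (1, 14, 0), some (1, 19, 1), some (1, 18, 0)],
      [none, some (1, 20, 0), some (1, 14, 0), some (1, 15, (-1))],
      [none, none, some (1, 16, 0), some (1, 19, 0)],
      [some (1, 7, 0), none, some (1, 18, 0), some (1, 16, (-1))],
      [some (1, 17, 0), none, some (1, 21, 0), some (1, 0, 0)],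
      [none, none, some (1, 0, 1), some (1, 20, 0)]]
  f := [4, 5, 5, 6, 5, 6, 4, 4, 7, 6, 7, 7, 0, 1, 1, 1, 2, 2, 2, 3, 3, 3]
  h := [0, 0, 0, 0, 60, 0, 60, 1, 0, 60, 0, 60, 0, 0, 0, 60, 0, 0, 60, 1, 0, 60]
  sl := []
  r := [false, false, true, true, false, false, false, true, true, false, false, false, false, true, false, false, true, false, false, true, false, false]
  g := [0, 0, 1, 1, 0, 0, 0, 1, 1, 0, 0, 0, 0, 0, 0, 0, 0, 0, 0, 1, 0, 0]
  par := [(20, lB'), (0, lA), (0, lA'), (1, lA), (1, lB), (1, lB'), (2, lB), (2, lB'), (3, lB), (3, lB'), (5, lA'), (10, lB), (0, lA), (12, lA'), (12, lA), (14, lB), (14, lA), (14, lB'), (16, lB'), (7, lA'), (17, lA'), (20, lB)]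
  rk := [4, 5, 5, 6, 6, 6, 6, 6, 7, 7, 7, 8, 0, 1, 1, 2, 2, 2, 3, 7, 3, 4]
  rt := 12
  ded := [(true, 3, lA), (true, 19, lB'), (true, 21, lB), (true, 4, lB), (true, 6, lB), (true, 8, lB), (true, 16, lA), (true, 15, lB), (true, 19, lB)]

/-- The tile of the type `1`. -/
def t1 : Tile where
  tab := [
      [some (1, 1, 0), some (1, 2, 0), some (0, 10, 0), some (0, 11, (-1))],
      [some (1, 3, 0), some (1, 0, 0), some (1, 4, 0), some (1, 5, 0)],
      [some (1, 0, 0), some (1, 3, 0), some (1, 6, 0), some (1, 7, 0)],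
      [some (1, 2, 0), some (1, 1, 0), some (1, 8, 0), some (1, 9, 0)],
      [none, none, some (1, 5, 1), some (1, 1, 0)],
      [none, some (1, 10, 0), some (1, 1, 0), some (1, 4, (-1))],
      [none, none, some (1, 7, 1), some (1, 2, 0)],
      [none, some (0, 8, (-1)), some (1, 2, 0), some (1, 6, (-1))],
      [some (2, 7, 1), none, some (1, 9, 1), some (1, 3, 0)],
      [none, none, some (1, 3, 0), some (1, 8, (-1))],
      [some (1, 5, 0), none, some (1, 11, 0), some (2, 0, 0)],
      [none, none, some (2, 0, 1), some (1, 10, 0)]]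
  f := [0, 1, 1, 2, 1, 2, 0, 0, 3, 2, 3, 3]
  h := [0, 0, 0, 0, 60, 0, 60, 1, 0, 60, 0, 60]
  sl := []
  r := [false, false, true, true, false, false, false, true, true, false, false, false]
  g := [0, 0, 2, 2, 0, 0, 0, 2, 2, 0, 0, 0]
  par := [(10, lB'), (0, lA), (0, lA'), (1, lA), (1, lB), (1, lB'), (2, lB), (2, lB'), (3, lB), (3, lB'), (5, lA'), (10, lB)]
  rk := [0, 1, 1, 2, 2, 2, 2, 2, 3, 3, 3, 4]
  rt := 0
  ded := [(true, 3, lA), (true, 7, lA'), (false, 11, lB), (true, 4, lB), (true, 6, lB), (true, 8, lB)]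

/-- The tile of the type `2`. -/
def t2 : Tile where
  tab := [
      [some (1, 1, 0), some (1, 2, 0), some (0, 10, 0), some (0, 11, (-1))],
      [some (1, 3, 0), some (1, 0, 0), some (1, 4, 0), some (1, 5, 0)],
      [some (1, 0, 0), some (1, 3, 0), some (1, 6, 0), some (1, 7, 0)],
      [some (1, 2, 0), some (1, 1, 0), some (1, 8, 0), some (1, 9, 0)],
      [none, none, some (1, 5, 1), some (1, 1, 0)],
      [none, some (1, 10, 0), some (1, 1, 0), some (1, 4, (-1))],
      [none, none, some (1, 7, 1), some (1, 2, 0)],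
      [none, some (0, 8, (-1)), some (1, 2, 0), some (1, 6, (-1))],
      [some (2, 12, 1), none, some (1, 9, 1), some (1, 3, 0)],
      [none, none, some (1, 3, 0), some (1, 8, (-1))],
      [some (1, 5, 0), none, some (1, 11, 0), some (2, 13, 0)],
      [none, none, some (2, 13, 1), some (1, 10, 0)]]
  f := [0, 1, 1, 2, 1, 2, 0, 0, 3, 2, 3, 3]
  h := [0, 0, 0, 0, 60, 0, 60, 1, 0, 60, 0, 60]
  sl := []
  r := [false, false, false, false, false, false, false, true, false, false, false, false]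
  g := [0, 0, 0, 0, 0, 0, 0, 2, 0, 0, 0, 0]
  par := [(10, lB'), (0, lA), (0, lA'), (1, lA), (1, lB), (1, lB'), (2, lB), (2, lB'), (3, lB), (3, lB'), (5, lA'), (10, lB)]
  rk := [0, 1, 1, 2, 2, 2, 2, 2, 3, 3, 3, 4]
  rt := 0
  ded := [(true, 3, lA), (true, 7, lA'), (false, 11, lB), (true, 4, lB), (true, 6, lB), (true, 8, lB)]

/-- The tile of the type `3`. -/
def t3 : Tile where
  tab := [
      [some (1, 1, 0), some (1, 34, 0), some (1, 35, 0), some (1, 36, 0)],
      [some (1, 2, 0), some (1, 0, 0), some (1, 3, 0), some (1, 4, 0)],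
      [some (1, 34, 0), some (1, 1, 0), some (1, 5, 0), some (1, 6, 0)],
      [none, none, some (1, 4, 1), some (1, 1, 0)],
      [none, some (1, 7, 0), some (1, 1, 0), some (1, 3, (-1))],
      [some (1, 8, 0), none, some (1, 6, 1), some (1, 2, 0)],
      [none, none, some (1, 2, 0), some (1, 5, (-1))],
      [some (1, 4, 0), none, some (1, 9, 0), some (2, 0, 0)],
      [none, some (1, 5, 0), some (1, 10, 0), some (1, 11, 0)],
      [none, none, some (2, 0, 1), some (1, 7, 0)],
      [some (2, 0, 1), some (2, 2, 1), some (1, 11, 1), some (1, 8, 0)],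
      [none, none, some (1, 8, 0), some (1, 10, (-1))],
      [none, some (0, 8, (-1)), some (1, 16, 0), some (1, 14, (-1))],
      [some (1, 17, 0), some (1, 16, 0), some (0, 10, 0), some (0, 11, (-1))],
      [none, none, some (1, 12, 1), some (1, 16, 0)],
      [none, none, some (1, 18, 1), some (1, 17, 0)],
      [some (1, 13, 0), some (1, 19, 0), some (1, 14, 0), some (1, 12, 0)],
      [some (1, 19, 0), some (1, 13, 0), some (1, 15, 0), some (1, 18, 0)],
      [none, some (1, 20, 0), some (1, 17, 0), some (1, 15, (-1))],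
      [some (1, 16, 0), some (1, 17, 0), some (1, 23, 0), some (1, 21, 0)],
      [some (1, 18, 0), none, some (1, 22, 0), some (1, 24, (-1))],
      [none, none, some (1, 19, 0), some (1, 23, (-1))],
      [none, none, some (1, 24, 0), some (1, 20, 0)],
      [some (1, 25, 0), none, some (1, 21, 1), some (1, 19, 0)],
      [some (1, 27, 0), some (1, 26, 0), some (1, 20, 1), some (1, 22, 0)],
      [none, some (1, 23, 0), some (1, 26, 0), some (1, 28, 0)],
      [some (1, 24, 0), some (1, 29, 0), some (1, 28, 1), some (1, 25, 0)],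
      [some (1, 29, 0), some (1, 24, 0), none, none],
      [some (1, 31, 0), none, some (1, 25, 0), some (1, 26, (-1))],
      [some (1, 26, 0), some (1, 27, 0), some (1, 30, 0), some (1, 32, 0)],
      [none, none, some (1, 32, 1), some (1, 29, 0)],
      [none, some (1, 28, 0), some (1, 34, 0), some (1, 33, 0)],
      [none, some (1, 35, 0), some (1, 29, 0), some (1, 30, (-1))],
      [none, none, some (1, 31, 0), some (1, 34, (-1))],
      [some (1, 0, 0), some (1, 2, 0), some (1, 33, 1), some (1, 31, 0)],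
      [some (1, 32, 0), none, some (1, 36, 1), some (1, 0, 0)],
      [none, none, some (1, 0, 0), some (1, 35, (-1))]]
  f := [8, 9, 8, 9, 10, 9, 8, 11, 10, 11, 11, 10, 0, 0, 0, 0, 1, 1, 1, 2, 2, 2, 2, 3, 3, 4, 4, 4, 5, 5, 5, 6, 6, 6, 7, 7, 7]
  h := [0, 0, 0, 60, 0, 0, 60, 0, 0, 60, 0, 60, 1, 0, 60, 60, 0, 0, 60, 0, 60, 60, 60, 0, 59, 0, 59, 59, 0, 59, 60, 0, 59, 60, 0, 59, 60]
  sl := []
  r := [false, false, false, false, false, false, false, false, false, false, false, false, false, false, false, false, false, false, false, false, false, false, false, false, false, false, false, false, false, false, false, false, false, false, false, false, false]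
  g := [0, 0, 0, 0, 0, 0, 0, 0, 0, 0, 0, 0, 0, 0, 0, 0, 0, 0, 0, 0, 0, 0, 0, 0, 0, 0, 0, 0, 0, 0, 0, 0, 0, 0, 0, 0, 0]
  par := [(34, lA), (0, lA), (1, lA), (1, lB), (1, lB'), (2, lB), (2, lB'), (4, lA'), (5, lA), (7, lB), (8, lB), (8, lB'), (16, lB'), (10, lB'), (16, lB), (17, lB), (13, lA'), (13, lA), (17, lB'), (17, lA), (18, lA'), (19, lB'), (20, lB), (19, lB), (26, lA), (23, lA), (25, lB), (24, lA), (25, lB'), (26, lA'), (29, lB), (28, lA), (35, lA), (31, lB'), (31, lB), (0, lB), (0, lB')]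
  rk := [8, 9, 10, 10, 10, 11, 11, 11, 12, 12, 13, 13, 2, 0, 2, 2, 1, 1, 2, 2, 3, 3, 4, 3, 6, 4, 5, 7, 5, 6, 7, 6, 10, 7, 7, 9, 9]
  rt := 13
  ded := [(true, 2, lA), (true, 35, lB), (true, 3, lB), (true, 5, lB), (true, 10, lB), (true, 12, lA'), (true, 14, lB), (true, 19, lA), (false, 11, lB), (true, 15, lB), (true, 20, lB'), (true, 23, lB), (true, 22, lB), (true, 27, lA), (true, 26, lB), (true, 34, lB), (true, 29, lB'), (true, 30, lB)]

/-- The tile of the type `4`. -/
def t4 : Tile where
  tab := [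
      [some (1, 1, 0), some (0, 10, (-1)), some (0, 7, 0), some (0, 9, (-1))],
      [some (1, 2, 0), some (1, 0, 0), some (1, 3, 0), some (1, 4, 0)],
      [some (0, 10, (-1)), some (1, 1, 0), some (1, 5, 0), some (1, 6, 0)],
      [none, none, some (1, 4, 1), some (1, 1, 0)],
      [none, some (1, 7, 0), some (1, 1, 0), some (1, 3, (-1))],
      [some (1, 8, 0), none, some (1, 6, 1), some (1, 2, 0)],
      [none, none, some (1, 2, 0), some (1, 5, (-1))],
      [some (1, 4, 0), none, some (1, 9, 0), some (2, 0, 0)],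
      [none, some (1, 5, 0), some (1, 10, 0), some (1, 11, 0)],
      [none, none, some (2, 0, 1), some (1, 7, 0)],
      [some (2, 0, 1), some (2, 2, 1), some (1, 11, 1), some (1, 8, 0)],
      [none, none, some (1, 8, 0), some (1, 10, (-1))]]
  f := [0, 1, 0, 1, 2, 1, 0, 3, 2, 3, 3, 2]
  h := [0, 0, 1, 60, 0, 1, 60, 0, 1, 60, 1, 60]
  sl := [0, 0, 1, 0, 0, 1, 1, 0, 1, 0, 1, 1]
  r := [false, false, false, false, false, false, false, false, false, false, false, false]
  g := [0, 0, 0, 0, 0, 0, 0, 0, 0, 0, 0, 0]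
  par := [(7, lB'), (0, lA), (1, lA), (1, lB), (1, lB'), (2, lB), (2, lB'), (4, lA'), (5, lA), (7, lB), (8, lB), (8, lB')]
  rk := [0, 1, 2, 2, 2, 3, 3, 3, 4, 4, 5, 5]
  rt := 0
  ded := [(true, 0, lA'), (false, 9, lB), (true, 3, lB), (true, 5, lB), (true, 10, lB), (true, 2, lA)]

/-- The data. -/
def data : TileData where
  l := 4
  m := 4
  n := 3
  T := [t0, t1, t2, t3, t4]
  len := [8, 4, 4, 12, 4]
  a := 1
  x0 := 12
  r1 := 0
  e1 := 2
  r2 := 7
  d2 := 0
  e2 := 0
  p0 := [lA, lB', lA', lB', lA, lB', lA', lB']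
  p1 := [lA, lB', lA', lB']
  p2 := [lA, lB', lA', lB', lA', lA', lB, lA, lB', lA, lB, lA', lB, lA, lB, lA']
  p3 := [lB, lA, lB, lA']
  q0 := [lA', lA', lB, lA, lB, lA', lB, lA]
  q1 := [lB, lA', lB, lA]
  q2 := [lB, lA', lB, lA, lB, lA', lB, lA, lB', lA, lB, lA, lA, lB', lA', lB']
  qa := [lA, lB', lA', lB']
  q3 := [lA, lB', lA', lB']
  c := [lA, lA]
  α := 1
  K0 := 2

/-- The data satisfy the conditions. -/
theorem ok : data.check = true := by decide +kernel

end Pool.Agent.SLE.T443
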