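import Pool.Agent.SLE.Tile

/-!
# Tiles for `(5, 3, 3)`

Generated data; everything is checked by the kernel.
-/

namespace Pool.Agent.SLE.T533

/-- The tile of the type `0`. -/
def t0 : Tile where
  tab := [
      [some (1, 1, 0), some (1, 2, 0), some (1, 35, 0), some (1, 36, (-1))],
      [some (1, 3, 0), some (1, 0, 0), none, none],
      [some (1, 0, 0), some (1, 4, 0), some (1, 5, 0), some (1, 6, 0)],
      [some (1, 4, 0), some (1, 1, 0), some (1, 7, 0), some (1, 8, 0)],
      [some (1, 2, 0), some (1, 3, 0), some (1, 9, 0), some (1, 10, 0)],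
      [some (1, 11, 0), none, some (1, 6, 1), some (1, 2, 0)],
      [none, some (1, 34, (-1)), some (1, 2, 0), some (1, 5, (-1))],
      [none, none, some (1, 8, 1), some (1, 3, 0)],
      [some (1, 12, 0), some (1, 13, 0), some (1, 3, 0), some (1, 7, (-1))],
      [some (1, 14, 1), none, some (1, 10, 1), some (1, 4, 0)],
      [none, some (1, 15, 0), some (1, 4, 0), some (1, 9, (-1))],
      [none, some (1, 5, 0), some (1, 15, 1), some (1, 16, 0)],
      [some (1, 17, 0), some (1, 8, 0), none, none],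
      [some (1, 8, 0), some (1, 18, 0), some (1, 19, 0), some (1, 14, 0)],
      [none, some (1, 9, (-1)), some (1, 13, 0), some (1, 19, (-1))],
      [some (1, 10, 0), none, some (1, 16, 0), some (1, 11, (-1))],
      [none, none, some (1, 11, 0), some (1, 15, 0)],
      [some (1, 18, 0), some (1, 12, 0), none, none],
      [some (1, 13, 0), some (1, 17, 0), some (1, 20, 0), some (2, 0, 0)],
      [some (2, 6, 1), none, some (1, 14, 1), some (1, 13, 0)],
      [none, none, some (2, 0, 1), some (1, 18, 0)],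
      [some (1, 23, 0), some (1, 22, 0), none, none],
      [some (1, 21, 0), some (1, 24, 0), none, none],
      [some (1, 25, 0), some (1, 21, 0), none, none],
      [some (1, 22, 0), some (1, 25, 0), some (1, 28, 0), some (1, 26, 0)],
      [some (1, 24, 0), some (1, 23, 0), some (1, 27, 0), some (1, 29, 0)],
      [none, none, some (1, 24, 0), some (1, 28, (-1))],
      [none, none, some (1, 29, 1), some (1, 25, 0)],
      [some (1, 31, 1), none, some (1, 26, 1), some (1, 24, 0)],
      [some (1, 30, 0), some (1, 32, 0), some (1, 25, 0), some (1, 27, (-1))],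
      [some (1, 33, 0), some (1, 29, 0), none, none],
      [none, some (1, 28, (-1)), some (1, 32, 0), some (1, 34, (-1))],
      [some (1, 29, 0), some (1, 35, 0), some (1, 34, 0), some (1, 31, 0)],
      [some (1, 35, 0), some (1, 30, 0), none, none],
      [some (1, 6, 1), none, some (1, 31, 1), some (1, 32, 0)],
      [some (1, 32, 0), some (1, 33, 0), some (1, 36, 0), some (1, 0, 0)],
      [none, none, some (1, 0, 1), some (1, 35, 0)]]
  f := [6, 7, 7, 8, 8, 6, 6, 8, 9, 9, 8, 6, 9, 10, 10, 7, 6, 10, 11, 11, 11, 0, 1, 1, 2, 2, 2, 2, 3, 3, 3, 4, 4, 4, 5, 5, 5]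
  h := [0, 0, 0, 0, 0, 60, 1, 60, 0, 0, 60, 60, 60, 0, 1, 60, 60, 60, 0, 0, 60, 0, 0, 0, 0, 0, 60, 60, 0, 0, 60, 1, 0, 60, 0, 0, 60]
  sl := []
  r := [false, false, true, false, true, false, true, false, false, true, false, false, false, false, true, false, false, false, false, true, false, false, true, false, true, false, false, false, true, false, false, true, false, false, true, false, false]
  g := [0, 0, 1, 0, 1, 0, 1, 0, 0, 1, 0, 0, 0, 0, 2, 0, 0, 0, 0, 1, 0, 0, 0, 0, 0, 0, 0, 0, 0, 0, 0, 1, 0, 0, 0, 0, 0]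
  par := [(35, lB'), (0, lA), (0, lA'), (1, lA), (3, lA), (2, lB), (2, lB'), (3, lB), (3, lB'), (4, lB), (4, lB'), (5, lA), (8, lA), (8, lA'), (13, lB'), (10, lA'), (11, lB'), (18, lA'), (13, lA'), (13, lB), (18, lB), (0, lA), (21, lA'), (21, lA), (25, lA), (23, lA), (24, lB'), (25, lB), (24, lB), (25, lB'), (29, lA), (32, lB'), (29, lA'), (35, lA'), (32, lB), (32, lA'), (35, lB)]
  rk := [6, 7, 7, 8, 9, 8, 8, 9, 9, 10, 10, 9, 10, 10, 11, 11, 10, 12, 11, 11, 12, 0, 1, 1, 3, 2, 4, 3, 4, 3, 4, 5, 4, 6, 5, 5, 6]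
  rt := 21
  ded := [(true, 4, lA), (true, 6, lA'), (true, 36, lB), (true, 15, lB'), (true, 5, lB), (true, 7, lB), (true, 14, lA'), (true, 9, lB), (true, 12, lA), (true, 15, lB), (true, 19, lB), (true, 24, lA), (true, 31, lA'), (true, 28, lB), (true, 27, lB), (true, 30, lA), (true, 34, lB)]

/-- The tile of the type `1`. -/
def t1 : Tile where
  tab := [
      [some (1, 1, 0), some (1, 2, 0), some (0, 18, 0), some (0, 20, (-1))],
      [some (1, 3, 0), some (1, 0, 0), none, none],
      [some (1, 0, 0), some (1, 4, 0), some (1, 5, 0), some (1, 6, 0)],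
      [some (1, 4, 0), some (1, 1, 0), some (1, 7, 0), some (1, 8, 0)],
      [some (1, 2, 0), some (1, 3, 0), some (1, 9, 0), some (1, 10, 0)],
      [some (1, 11, 0), none, some (1, 6, 1), some (1, 2, 0)],
      [none, some (0, 19, (-1)), some (1, 2, 0), some (1, 5, (-1))],
      [none, none, some (1, 8, 1), some (1, 3, 0)],
      [some (1, 12, 0), some (1, 13, 0), some (1, 3, 0), some (1, 7, (-1))],
      [some (1, 14, 1), none, some (1, 10, 1), some (1, 4, 0)],
      [none, some (1, 15, 0), some (1, 4, 0), some (1, 9, (-1))],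
      [none, some (1, 5, 0), some (1, 15, 1), some (1, 16, 0)],
      [some (1, 17, 0), some (1, 8, 0), none, none],
      [some (1, 8, 0), some (1, 18, 0), some (1, 19, 0), some (1, 14, 0)],
      [none, some (1, 9, (-1)), some (1, 13, 0), some (1, 19, (-1))],
      [some (1, 10, 0), none, some (1, 16, 0), some (1, 11, (-1))],
      [none, none, some (1, 11, 0), some (1, 15, 0)],
      [some (1, 18, 0), some (1, 12, 0), none, none],
      [some (1, 13, 0), some (1, 17, 0), some (1, 20, 0), some (2, 0, 0)],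
      [some (2, 6, 1), none, some (1, 14, 1), some (1, 13, 0)],
      [none, none, some (2, 0, 1), some (1, 18, 0)]]
  f := [0, 1, 1, 2, 2, 0, 0, 2, 3, 3, 2, 0, 3, 4, 4, 1, 0, 4, 5, 5, 5]
  h := [0, 0, 0, 0, 0, 60, 1, 60, 0, 0, 60, 60, 60, 0, 1, 60, 60, 60, 0, 0, 60]
  sl := []
  r := [false, false, true, false, true, false, true, false, false, true, false, false, false, false, true, false, false, false, false, true, false]
  g := [0, 0, 2, 0, 2, 0, 2, 0, 0, 2, 0, 0, 0, 0, 3, 0, 0, 0, 0, 2, 0]
  par := [(18, lB'), (0, lA), (0, lA'), (1, lA), (3, lA), (2, lB), (2, lB'), (3, lB), (3, lB'), (4, lB), (4, lB'), (5, lA), (8, lA), (8, lA'), (13, lB'), (10, lA'), (11, lB'), (18, lA'), (13, lA'), (13, lB), (18, lB)]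
  rk := [0, 1, 1, 2, 3, 2, 2, 3, 3, 4, 4, 3, 4, 4, 5, 5, 4, 6, 5, 5, 6]
  rt := 0
  ded := [(true, 4, lA), (true, 6, lA'), (false, 20, lB), (true, 15, lB'), (true, 5, lB), (true, 7, lB), (true, 14, lA'), (true, 9, lB), (true, 12, lA), (true, 15, lB), (true, 19, lB)]

/-- The tile of the type `2`. -/
def t2 : Tile where
  tab := [
      [some (1, 1, 0), some (1, 2, 0), some (0, 18, 0), some (0, 20, (-1))],
      [some (1, 3, 0), some (1, 0, 0), none, none],
      [some (1, 0, 0), some (1, 4, 0), some (1, 5, 0), some (1, 6, 0)],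
      [some (1, 4, 0), some (1, 1, 0), some (1, 7, 0), some (1, 8, 0)],
      [some (1, 2, 0), some (1, 3, 0), some (1, 9, 0), some (1, 10, 0)],
      [some (1, 11, 0), none, some (1, 6, 1), some (1, 2, 0)],
      [none, some (0, 19, (-1)), some (1, 2, 0), some (1, 5, (-1))],
      [none, none, some (1, 8, 1), some (1, 3, 0)],
      [some (1, 12, 0), some (1, 13, 0), some (1, 3, 0), some (1, 7, (-1))],
      [some (1, 14, 1), none, some (1, 10, 1), some (1, 4, 0)],
      [none, some (1, 15, 0), some (1, 4, 0), some (1, 9, (-1))],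
      [none, some (1, 5, 0), some (1, 15, 1), some (1, 16, 0)],
      [some (1, 17, 0), some (1, 8, 0), none, none],
      [some (1, 8, 0), some (1, 18, 0), some (1, 19, 0), some (1, 14, 0)],
      [none, some (1, 9, (-1)), some (1, 13, 0), some (1, 19, (-1))],
      [some (1, 10, 0), none, some (1, 16, 0), some (1, 11, (-1))],
      [none, none, some (1, 11, 0), some (1, 15, 0)],
      [some (1, 18, 0), some (1, 12, 0), none, none],
      [some (1, 13, 0), some (1, 17, 0), some (1, 20, 0), some (2, 22, 0)],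
      [some (2, 21, 1), none, some (1, 14, 1), some (1, 13, 0)],
      [none, none, some (2, 22, 1), some (1, 18, 0)]]
  f := [0, 1, 1, 2, 2, 0, 0, 2, 3, 3, 2, 0, 3, 4, 4, 1, 0, 4, 5, 5, 5]
  h := [0, 0, 0, 0, 0, 60, 1, 60, 0, 0, 60, 60, 60, 0, 1, 60, 60, 60, 0, 0, 60]
  sl := []
  r := [false, false, false, false, false, false, true, false, false, false, false, false, false, false, false, false, false, false, false, false, false]
  g := [0, 0, 0, 0, 0, 0, 2, 0, 0, 0, 0, 0, 0, 0, 0, 0, 0, 0, 0, 0, 0]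
  par := [(18, lB'), (0, lA), (0, lA'), (1, lA), (3, lA), (2, lB), (2, lB'), (3, lB), (3, lB'), (4, lB), (4, lB'), (5, lA), (8, lA), (8, lA'), (13, lB'), (10, lA'), (11, lB'), (18, lA'), (13, lA'), (13, lB), (18, lB)]
  rk := [0, 1, 1, 2, 3, 2, 2, 3, 3, 4, 4, 3, 4, 4, 5, 5, 4, 6, 5, 5, 6]
  rt := 0
  ded := [(true, 4, lA), (true, 6, lA'), (false, 20, lB), (true, 15, lB'), (true, 5, lB), (true, 7, lB), (true, 14, lA'), (true, 9, lB), (true, 12, lA), (true, 15, lB), (true, 19, lB)]

/-- The tile of the type `3`. -/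
def t3 : Tile where
  tab := [
      [some (1, 40, 0), none, some (1, 1, 0), some (1, 2, 0)],
      [none, some (1, 3, 0), some (1, 2, 1), some (1, 0, 0)],
      [some (1, 4, 0), some (1, 5, 0), some (1, 0, 0), some (1, 1, (-1))],
      [some (1, 1, 0), none, some (1, 6, 0), some (1, 7, 0)],
      [some (1, 8, 0), some (1, 2, 0), some (1, 9, 0), some (1, 10, 0)],
      [some (1, 2, 0), some (1, 11, 0), some (1, 41, 0), some (1, 39, 0)],
      [none, none, some (1, 7, 1), some (1, 3, 0)],
      [none, some (1, 9, 0), some (1, 3, 0), some (1, 6, (-1))],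
      [some (1, 11, 0), some (1, 4, 0), some (1, 12, 0), some (1, 13, 0)],
      [some (1, 7, 0), none, some (1, 10, 1), some (1, 4, 0)],
      [none, some (1, 14, 0), some (1, 4, 0), some (1, 9, (-1))],
      [some (1, 5, 0), some (1, 8, 0), none, none],
      [some (1, 15, 1), some (1, 16, 0), some (1, 13, 1), some (1, 8, 0)],
      [none, none, some (1, 8, 0), some (1, 12, (-1))],
      [some (1, 10, 0), none, some (1, 17, 0), some (1, 15, 0)],
      [some (1, 18, 0), some (1, 12, (-1)), some (1, 14, 0), some (1, 17, (-1))],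
      [some (1, 12, 0), some (1, 19, 1), none, none],
      [none, some (2, 0, 0), some (1, 15, 1), some (1, 14, 0)],
      [some (1, 19, 0), some (1, 15, 0), some (2, 5, 0), some (1, 20, 0)],
      [some (1, 16, (-1)), some (1, 18, 0), none, none],
      [none, none, some (1, 18, 0), some (2, 5, (-1))],
      [none, some (0, 19, (-1)), some (1, 26, 0), some (1, 23, (-1))],
      [some (1, 27, 0), some (1, 26, 0), some (0, 18, 0), some (0, 20, (-1))],
      [some (1, 24, 0), none, some (1, 21, 1), some (1, 26, 0)],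
      [none, some (1, 23, 0), some (1, 28, 1), some (1, 25, 0)],
      [none, none, some (1, 24, 0), some (1, 28, 0)],
      [some (1, 22, 0), some (1, 29, 0), some (1, 23, 0), some (1, 21, 0)],
      [some (1, 30, 0), some (1, 22, 0), none, none],
      [some (1, 31, 0), none, some (1, 25, 0), some (1, 24, (-1))],
      [some (1, 26, 0), some (1, 30, 0), some (1, 33, 0), some (1, 31, 0)],
      [some (1, 29, 0), some (1, 27, 0), some (1, 32, 0), some (1, 34, 0)],
      [none, some (1, 28, 0), some (1, 29, 0), some (1, 33, (-1))],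
      [none, none, some (1, 34, 1), some (1, 30, 0)],
      [some (1, 36, 1), some (1, 35, 0), some (1, 31, 1), some (1, 29, 0)],
      [none, some (1, 37, 0), some (1, 30, 0), some (1, 32, (-1))],
      [some (1, 33, 0), some (1, 38, 1), none, none],
      [some (1, 39, 0), some (1, 33, (-1)), some (1, 37, 0), some (1, 40, (-1))],
      [some (1, 34, 0), none, some (1, 40, 0), some (1, 36, 0)],
      [some (1, 35, (-1)), some (1, 39, 0), none, none],
      [some (1, 38, 0), some (1, 36, 0), some (1, 5, 0), some (1, 41, (-1))],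
      [none, some (1, 0, 0), some (1, 36, 1), some (1, 37, 0)],
      [none, none, some (1, 39, 1), some (1, 5, 0)]]
  f := [6, 6, 7, 6, 8, 6, 6, 7, 8, 8, 9, 7, 9, 8, 10, 10, 9, 11, 11, 10, 11, 0, 0, 0, 0, 0, 1, 1, 1, 2, 2, 2, 2, 3, 3, 3, 4, 4, 4, 5, 5, 5]
  h := [0, 60, 0, 60, 0, 1, 60, 60, 1, 60, 0, 1, 1, 60, 0, 2, 60, 0, 2, 60, 60, 1, 0, 60, 60, 60, 0, 0, 60, 0, 0, 60, 60, 0, 0, 60, 1, 0, 60, 1, 0, 60]
  sl := []
  r := [false, false, false, false, false, false, false, false, false, false, false, false, false, false, false, false, false, false, false, false, false, false, false, false, false, false, false, false, false, false, false, false, false, false, false, false, false, false, false, false, false, false]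
  g := [0, 0, 0, 0, 0, 0, 0, 0, 0, 0, 0, 0, 0, 0, 0, 0, 0, 0, 0, 0, 0, 0, 0, 0, 0, 0, 0, 0, 0, 0, 0, 0, 0, 0, 0, 0, 0, 0, 0, 0, 0, 0]
  par := [(40, lA'), (0, lB), (0, lB'), (1, lA'), (2, lA), (2, lA'), (3, lB), (9, lA), (4, lA), (4, lB), (4, lB'), (5, lA'), (8, lB), (8, lB'), (10, lA'), (14, lB'), (12, lA'), (14, lB), (15, lA), (18, lA), (18, lB'), (26, lB'), (18, lB'), (26, lB), (23, lA), (24, lB'), (22, lA'), (22, lA), (31, lA'), (30, lA), (27, lA), (29, lB'), (30, lB), (29, lB), (30, lB'), (33, lA'), (37, lB'), (34, lA'), (39, lA), (5, lB'), (37, lB), (5, lB)]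
  rk := [6, 7, 7, 8, 8, 8, 9, 10, 9, 9, 9, 9, 10, 10, 10, 11, 11, 11, 12, 13, 13, 2, 0, 2, 3, 4, 1, 1, 5, 3, 2, 4, 3, 4, 3, 5, 5, 4, 10, 9, 5, 9]
  rt := 22
  ded := [(true, 1, lB), (true, 3, lB'), (true, 8, lA), (true, 6, lB), (true, 9, lB), (true, 15, lA'), (true, 41, lB), (true, 12, lB), (true, 19, lA), (true, 17, lB), (true, 21, lA'), (true, 23, lB), (true, 29, lA), (false, 20, lB), (true, 28, lB'), (true, 28, lB), (true, 36, lA'), (true, 33, lB), (true, 32, lB), (true, 40, lB), (true, 39, lA'), (true, 38, lA)]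

/-- The tile of the type `4`. -/
def t4 : Tile where
  tab := [
      [some (0, 17, 0), none, some (1, 1, 0), some (1, 2, 0)],
      [none, some (1, 3, 0), some (1, 2, 1), some (1, 0, 0)],
      [some (1, 4, 0), some (1, 5, 0), some (1, 0, 0), some (1, 1, (-1))],
      [some (1, 1, 0), none, some (1, 6, 0), some (1, 7, 0)],
      [some (1, 8, 0), some (1, 2, 0), some (1, 9, 0), some (1, 10, 0)],
      [some (1, 2, 0), some (1, 11, 0), some (0, 20, 1), some (0, 18, 0)],
      [none, none, some (1, 7, 1), some (1, 3, 0)],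
      [none, some (1, 9, 0), some (1, 3, 0), some (1, 6, (-1))],
      [some (1, 11, 0), some (1, 4, 0), some (1, 12, 0), some (1, 13, 0)],
      [some (1, 7, 0), none, some (1, 10, 1), some (1, 4, 0)],
      [none, some (1, 14, 0), some (1, 4, 0), some (1, 9, (-1))],
      [some (1, 5, 0), some (1, 8, 0), none, none],
      [some (1, 15, 1), some (1, 16, 0), some (1, 13, 1), some (1, 8, 0)],
      [none, none, some (1, 8, 0), some (1, 12, (-1))],
      [some (1, 10, 0), none, some (1, 17, 0), some (1, 15, 0)],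
      [some (1, 18, 0), some (1, 12, (-1)), some (1, 14, 0), some (1, 17, (-1))],
      [some (1, 12, 0), some (1, 19, 1), none, none],
      [none, some (2, 0, 0), some (1, 15, 1), some (1, 14, 0)],
      [some (1, 19, 0), some (1, 15, 0), some (2, 5, 0), some (1, 20, 0)],
      [some (1, 16, (-1)), some (1, 18, 0), none, none],
      [none, none, some (1, 18, 0), some (2, 5, (-1))]]
  f := [0, 0, 1, 0, 2, 0, 0, 1, 2, 2, 3, 1, 3, 2, 4, 4, 3, 5, 5, 4, 5]
  h := [0, 60, 0, 60, 0, 2, 60, 60, 2, 60, 0, 2, 2, 60, 0, 3, 60, 0, 3, 60, 60]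
  sl := [0, 0, 0, 0, 0, 1, 0, 0, 1, 0, 0, 1, 1, 1, 0, 1, 1, 0, 1, 1, 1]
  r := [false, false, false, false, false, false, false, false, false, false, false, false, false, false, false, false, false, false, false, false, false]
  g := [0, 0, 0, 0, 0, 0, 0, 0, 0, 0, 0, 0, 0, 0, 0, 0, 0, 0, 0, 0, 0]
  par := [(17, lA'), (0, lB), (0, lB'), (1, lA'), (2, lA), (2, lA'), (3, lB), (9, lA), (4, lA), (4, lB), (4, lB'), (5, lA'), (8, lB), (8, lB'), (10, lA'), (14, lB'), (12, lA'), (14, lB), (15, lA), (18, lA), (18, lB')]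
  rk := [0, 1, 1, 2, 2, 2, 3, 4, 3, 3, 3, 3, 4, 4, 4, 5, 5, 5, 6, 7, 7]
  rt := 0
  ded := [(true, 1, lB), (true, 5, lB'), (true, 3, lB'), (true, 8, lA), (true, 6, lB), (true, 9, lB), (true, 15, lA'), (true, 5, lB), (true, 12, lB), (true, 19, lA), (true, 17, lB)]

/-- The data. -/
def data : TileData where
  l := 5
  m := 3
  n := 3
  T := [t0, t1, t2, t3, t4]
  len := [12, 6, 6, 12, 6]
  a := 1
  x0 := 21
  r1 := 0
  e1 := 5
  r2 := 6
  d2 := 0
  e2 := 0
  p0 := [lA, lA, lB', lA', lA', lB', lA, lA, lB', lA', lA', lB']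
  p1 := [lA, lA, lB', lA', lA', lB']
  p2 := [lA, lA, lB', lA', lA', lB', lA', lA', lB, lA, lA, lB, lA', lA', lB, lA, lA, lB]
  p3 := [lA', lA', lB, lA, lA, lB]
  q0 := [lA', lA', lB, lA, lB', lA, lB, lA', lB, lA, lB', lA]
  q1 := [lB, lA', lB, lA, lB', lA]
  q2 := [lB, lA', lB, lA, lB', lA, lB, lA', lB, lA, lB', lA', lB', lA, lB', lA', lB, lA']
  qa := [lB', lA, lB', lA', lB, lA']
  q3 := [lB', lA, lB', lA', lB, lA']
  c := [lA, lB]
  α := 1
  K0 := 1

/-- The data satisfy the conditions. -/
theorem ok : data.check = true := by decide +kernel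

end Pool.Agent.SLE.T533
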