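import Pool.Agent.SLE.TileScen
import Pool.Agent.SLE.Tiles.T425
import Pool.Agent.SLE.Tiles.T327
import Pool.Agent.SLE.Tiles.T335
import Pool.Agent.SLE.Tiles.T533
import Pool.Agent.SLE.Tiles.T433
import Pool.Agent.SLE.Tiles.T334
import Pool.Agent.SLE.Tiles.T443

/-!
# The seven triples which are treated by a periodic table
-/

namespace Pool.Agent.SLE

variable (lt : Letter → Letter → Prop) [IsStrictTotalOrder Letter lt]

theorem notFD_425 : ¬ FiniteDiff 4 2 5 lt :=
  TileData.not_finiteDiff T425.ok (by decide) (by decide) (by decide)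
    (by norm_num [T425.data]) lt

theorem notFD_327 : ¬ FiniteDiff 3 2 7 lt :=
  TileData.not_finiteDiff T327.ok (by decide) (by decide) (by decide)
    (by norm_num [T327.data]) lt

theorem notFD_335 : ¬ FiniteDiff 3 3 5 lt :=
  TileData.not_finiteDiff T335.ok (by decide) (by decide) (by decide)
    (by norm_num [T335.data]) lt

theorem notFD_533 : ¬ FiniteDiff 5 3 3 lt :=
  TileData.not_finiteDiff T533.ok (by decide) (by decide) (by decide)
    (by norm_num [T533.data]) lt

theorem notFD_433 : ¬ FiniteDiff 4 3 3 lt :=
  TileData.not_finiteDiff T433.ok (by decide) (by decide) (by decide)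
    (by norm_num [T433.data]) lt

theorem notFD_334 : ¬ FiniteDiff 3 3 4 lt :=
  TileData.not_finiteDiff T334.ok (by decide) (by decide) (by decide)
    (by norm_num [T334.data]) lt

theorem notFD_443 : ¬ FiniteDiff 4 4 3 lt :=
  TileData.not_finiteDiff T443.ok (by decide) (by decide) (by decide)
    (by norm_num [T443.data]) lt

end Pool.Agent.SLE
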